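import Pool.Agent.Work.MP_81c58b_co.LG.Stmts

/-!
# MP_81c58b_co, block LG, item Ca: the configuration of part (A)

(after the file I_Cb of helper19)
-/

set_option autoImplicit false

open Finset

namespace Pool.Agent.Work.MP_81c58b_co.LG

namespace XCa

theorem mem_GS {Z i M : ℕ} :
    M ∈ GS Z i ↔ (1 ≤ M ∧ M ≤ Z) ∧ Good M ∧ M.primeFactors.card = i := by
  unfold GS
  simp only [mem_filter, mem_Icc]

theorem pt_inj {x y x' y' : ℤ} (h : pt x y = pt x' y') : x = x' ∧ y = y' := by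
  unfold pt at h
  rw [Disc.mk.injEq] at h
  exact ⟨by exact_mod_cast h.1, by exact_mod_cast h.2.1⟩

theorem touch_mk (hTp : StTp) {a M : ℕ} {x y u v : ℤ} (ha : 0 < a)
    (h : u ^ 2 + v ^ 2 = (M : ℤ)) :
    Touch (mk a M (a * x - u) (a * y - v)) (pt x y) := by
  rw [hTp]
  unfold mk
  have ha' : (a : ℝ) ≠ 0 := by exact_mod_cast ha.ne'
  have h1 : (u : ℝ) ^ 2 + (v : ℝ) ^ 2 = M := by exact_mod_cast h
  rw [div_pow, Real.sq_sqrt (Nat.cast_nonneg M), ← h1]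
  push_cast
  field_simp
  ring

theorem abs_bd {X M : ℕ} {u v : ℤ} (h : u ^ 2 + v ^ 2 = (M : ℤ)) (hM : M ≤ X ^ 2) :
    -(X : ℤ) ≤ u ∧ u ≤ X := by
  have h1 : u ^ 2 ≤ (X : ℤ) ^ 2 := by
    have h2 : (M : ℤ) ≤ (X : ℤ) ^ 2 := by exact_mod_cast hM
    nlinarith [sq_nonneg v]
  exact abs_le.1 (abs_le_of_sq_le_sq h1 (Int.natCast_nonneg X))

theorem bound {A X a : ℕ} (hA : 1 ≤ A) (hX : 1 ≤ X) (ha : A < a) :
    (2 * (5 * A * X) + 1) * (2 * (2 * (5 * A * X) / a + 1)) ≤ 242 * A * X ^ 2 := by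
  have h1 : 2 * (5 * A * X) / a ≤ 10 * X := by
    apply Nat.div_le_of_le_mul
    calc 2 * (5 * A * X) = A * (10 * X) := by ring
      _ ≤ a * (10 * X) := Nat.mul_le_mul_right _ ha.le
  have h2 : 1 ≤ A * X := Nat.one_le_iff_ne_zero.2 (by positivity)
  have h3 : 2 * (5 * A * X) + 1 ≤ 11 * (A * X) := by
    have : 2 * (5 * A * X) = 10 * (A * X) := by ring
    omega
  have h4 : 2 * (2 * (5 * A * X) / a + 1) ≤ 22 * X := by omega
  calc _ ≤ (11 * (A * X)) * (22 * X) := Nat.mul_le_mul h3 h4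
    _ = 242 * A * X ^ 2 := by ring

end XCa

theorem prfCa : StRp → StCl → StIj → StTp → StCa := by
  intro hRp hCl hIj hTp A X Z i Q S hA hX hZ hQ hS
  classical
  have hS' : ∀ M ∈ S, (1 ≤ M ∧ M ≤ Z) ∧ Good M ∧ M.primeFactors.card = i :=
    fun M hM => XCa.mem_GS.1 (hS hM)
  obtain ⟨W, hW⟩ : ∃ W : ℕ → Finset (ℤ × ℤ), ∀ M ∈ S,
      2 ^ i ≤ (W M).card ∧ ∀ v ∈ W M, v.1 ^ 2 + v.2 ^ 2 = (M : ℤ) := by
    have h : ∀ M : ℕ, ∃ W : Finset (ℤ × ℤ), M ∈ S → (2 ^ i ≤ W.card ∧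
        ∀ v ∈ W, v.1 ^ 2 + v.2 ^ 2 = (M : ℤ)) := by
      intro M
      by_cases hM : M ∈ S
      · obtain ⟨W, h1, h2⟩ := hRp M (hS' M hM).2.1
        exact ⟨W, fun _ => ⟨by rw [← (hS' M hM).2.2]; exact h1, h2⟩⟩
      · exact ⟨∅, fun h => absurd h hM⟩
    choose W hW using h
    exact ⟨W, fun M hM => hW M hM⟩
  obtain ⟨B, hB⟩ : ∃ B : Finset Disc, B = (range X ×ˢ range X).image
      (fun p : ℕ × ℕ => pt ((p.1 : ℤ) + 1) ((p.2 : ℤ) + 1)) := ⟨_, rfl⟩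
  obtain ⟨L, hL⟩ : ∃ L : ℕ, L = 5 * A * X := ⟨_, rfl⟩
  obtain ⟨R, hR⟩ : ∃ R : Finset Disc, R = (Q ×ˢ S).biUnion (fun p : ℕ × ℕ =>
      (((Icc (-(L : ℤ)) L) ×ˢ (Icc (-(L : ℤ)) L)).filter
        (fun v : ℤ × ℤ => (p.1 : ℤ) ∣ v.1 ^ 2 + v.2 ^ 2 - p.2)).image
        (fun v : ℤ × ℤ => mk p.1 p.2 v.1 v.2)) := ⟨_, rfl⟩
  refine ⟨R, B, ?_, ?_, ?_, ?_, ?_⟩
  · intro D hD
    rw [hR, mem_biUnion] at hD
    obtain ⟨p, hp, hD⟩ := hD
    rw [mem_image] at hD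
    obtain ⟨v, hv, rfl⟩ := hD
    have h1 := (hS' p.2 (mem_product.1 hp).2).1.1
    have h4 := (hQ p.1 (mem_product.1 hp).1).1.pos
    unfold mk
    have h2 : (0 : ℝ) < p.2 := by exact_mod_cast h1
    have h3 := Real.sqrt_pos.2 h2
    have h5 : (0 : ℝ) < p.1 := by exact_mod_cast h4
    exact div_pos h3 h5
  · intro D hD
    rw [hB, mem_image] at hD
    obtain ⟨p, hp, rfl⟩ := hD
    rfl
  · rw [hB, card_image_of_injOn, card_product, card_range, sq]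
    rintro ⟨p1, p2⟩ _ ⟨q1, q2⟩ _ h
    obtain ⟨h1, h2⟩ := XCa.pt_inj h
    simp only at h1 h2
    rw [Prod.mk.injEq]
    omega
  · rw [hR]
    refine card_biUnion_le.trans ?_
    have h1 : ∀ p ∈ Q ×ˢ S, ((((Icc (-(L : ℤ)) L) ×ˢ (Icc (-(L : ℤ)) L)).filter
        (fun v : ℤ × ℤ => (p.1 : ℤ) ∣ v.1 ^ 2 + v.2 ^ 2 - p.2)).image
        (fun v : ℤ × ℤ => mk p.1 p.2 v.1 v.2)).card ≤ 242 * A * X ^ 2 := by
      intro p hp
      have ha := hQ p.1 (mem_product.1 hp).1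
      refine card_image_le.trans ((hCl p.1 p.2 L ha.1).trans ?_)
      rw [hL]
      exact XCa.bound hA hX ha.2.1
    refine (sum_le_sum h1).trans ?_
    rw [sum_const, card_product, smul_eq_mul]
    apply le_of_eq
    ring
  · obtain ⟨U, hU⟩ : ∃ U : Finset ((ℕ × ℕ) × (Σ _ : ℕ × ℕ, ℤ × ℤ)), U =
        (range X ×ˢ range X) ×ˢ ((Q ×ˢ S).sigma (fun p => W p.2)) := ⟨_, rfl⟩
    obtain ⟨Φ, hΦ⟩ : ∃ Φ : (ℕ × ℕ) × (Σ _ : ℕ × ℕ, ℤ × ℤ) → Disc × Disc, ∀ z, Φ z =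
        (mk z.2.1.1 z.2.1.2 ((z.2.1.1 : ℤ) * ((z.1.1 : ℤ) + 1) - z.2.2.1)
          ((z.2.1.1 : ℤ) * ((z.1.2 : ℤ) + 1) - z.2.2.2),
          pt ((z.1.1 : ℤ) + 1) ((z.1.2 : ℤ) + 1)) := ⟨_, fun _ => rfl⟩
    have hinj : Set.InjOn Φ U := by
      rintro ⟨⟨p1, p2⟩, ⟨⟨a, M⟩, v1, v2⟩⟩ hz ⟨⟨q1, q2⟩, ⟨⟨a', M'⟩, w1, w2⟩⟩ hz' h
      rw [hU, Finset.mem_coe, mem_product, mem_product, mem_sigma, mem_product] at hz hz'
      obtain ⟨-, ⟨ha, hM⟩, -⟩ := hz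
      obtain ⟨-, ⟨ha', hM'⟩, -⟩ := hz'
      simp only at ha hM ha' hM'
      rw [hΦ, hΦ, Prod.mk.injEq] at h
      obtain ⟨h1, h2⟩ := h
      obtain ⟨h3, h4, h5, h8⟩ := hIj _ _ _ _ _ _ _ _ (hQ a ha).1 (hQ a' ha').1
        (hS' M hM).2.1.1 (hS' M' hM').2.1.1 h1
      obtain ⟨h6, h7⟩ := XCa.pt_inj h2
      simp only at h3 h4 h5 h6 h7 h8
      have e1 : p1 = q1 := by omega
      have e2 : p2 = q2 := by omega
      subst e1 e2 h3 h4
      have e3 : v1 = w1 := by linarith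
      have e4 : v2 = w2 := by linarith
      subst e3 e4
      rfl
    have hsub : ((U.image Φ : Finset (Disc × Disc)) : Set (Disc × Disc)) ⊆
        {P : Disc × Disc | P.1 ∈ R ∧ P.2 ∈ B ∧ Touch P.1 P.2} := by
      intro P hP
      rw [Finset.mem_coe, mem_image] at hP
      obtain ⟨⟨⟨p1, p2⟩, ⟨⟨a, M⟩, v1, v2⟩⟩, hz, rfl⟩ := hP
      rw [hU, mem_product, mem_product, mem_sigma, mem_product] at hz
      obtain ⟨⟨hp1, hp2⟩, ⟨ha, hM⟩, hv⟩ := hz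
      simp only at hp1 hp2 ha hM hv
      rw [mem_range] at hp1 hp2
      have g1 := (hW M hM).2 _ hv
      simp only at g1
      have hMX : M ≤ (A * X) ^ 2 := (hS' M hM).1.2.trans hZ
      have b1 := XCa.abs_bd g1 hMX
      have b2 := XCa.abs_bd (u := v2) (v := v1) (by rw [add_comm]; exact g1) hMX
      obtain ⟨ha1, ha2, ha3⟩ := hQ a ha
      have k1 : (a : ℤ) * ((p1 : ℤ) + 1) ≤ 4 * A * X := by
        have h1 : (a : ℤ) ≤ 4 * A := by exact_mod_cast ha3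
        have h2 : ((p1 : ℤ) + 1) ≤ X := by exact_mod_cast hp1
        exact mul_le_mul h1 h2 (by positivity) (by positivity)
      have k2 : (a : ℤ) * ((p2 : ℤ) + 1) ≤ 4 * A * X := by
        have h1 : (a : ℤ) ≤ 4 * A := by exact_mod_cast ha3
        have h2 : ((p2 : ℤ) + 1) ≤ X := by exact_mod_cast hp2
        exact mul_le_mul h1 h2 (by positivity) (by positivity)
      have k3 : 0 ≤ (a : ℤ) * ((p1 : ℤ) + 1) := by positivity
      have k4 : 0 ≤ (a : ℤ) * ((p2 : ℤ) + 1) := by positivity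
      have k5 : (0 : ℤ) ≤ (A : ℤ) * X := by positivity
      have hLz : (L : ℤ) = 5 * (A : ℤ) * X := by rw [hL]; push_cast; ring
      push_cast at b1 b2
      rw [hΦ]
      refine ⟨?_, ?_, ?_⟩
      · show mk a M ((a : ℤ) * ((p1 : ℤ) + 1) - v1) ((a : ℤ) * ((p2 : ℤ) + 1) - v2) ∈ R
        rw [hR, mem_biUnion]
        refine ⟨(a, M), mem_product.2 ⟨ha, hM⟩, ?_⟩
        rw [mem_image]
        refine ⟨((a : ℤ) * ((p1 : ℤ) + 1) - v1, (a : ℤ) * ((p2 : ℤ) + 1) - v2), ?_, rfl⟩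
        rw [mem_filter, mem_product, mem_Icc, mem_Icc]
        simp only
        refine ⟨⟨⟨?_, ?_⟩, ⟨?_, ?_⟩⟩, ?_⟩
        · rw [hLz]; linarith
        · rw [hLz]; linarith
        · rw [hLz]; linarith
        · rw [hLz]; linarith
        · refine ⟨(a : ℤ) * ((p1 : ℤ) + 1) ^ 2 - 2 * ((p1 : ℤ) + 1) * v1 +
            (a : ℤ) * ((p2 : ℤ) + 1) ^ 2 - 2 * ((p2 : ℤ) + 1) * v2, ?_⟩
          rw [← g1]
          ring
      · show pt ((p1 : ℤ) + 1) ((p2 : ℤ) + 1) ∈ B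
        rw [hB, mem_image]
        exact ⟨(p1, p2), by rw [mem_product, mem_range, mem_range]; exact ⟨hp1, hp2⟩, rfl⟩
      · exact XCa.touch_mk hTp ha1.pos g1
    have hfin : {P : Disc × Disc | P.1 ∈ R ∧ P.2 ∈ B ∧ Touch P.1 P.2}.Finite := by
      refine (R ×ˢ B).finite_toSet.subset ?_
      rintro P ⟨h1, h2, -⟩
      rw [Finset.mem_coe, mem_product]
      exact ⟨h1, h2⟩
    have h1 : (U.image Φ).card ≤ touching R B := by
      unfold touching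
      rw [← Set.ncard_coe_finset]
      exact Set.ncard_le_ncard hsub hfin
    rw [card_image_of_injOn hinj, hU, card_product, card_product, card_range,
      card_sigma] at h1
    have h2 : (Q ×ˢ S).card * 2 ^ i ≤ ∑ p ∈ Q ×ˢ S, (W p.2).card := by
      rw [← smul_eq_mul, ← sum_const]
      exact sum_le_sum fun p hp => (hW p.2 (mem_product.1 hp).2).1
    calc Q.card * S.card * X ^ 2 * 2 ^ i = X * X * ((Q ×ˢ S).card * 2 ^ i) := by
          rw [card_product]; ring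
      _ ≤ X * X * ∑ p ∈ Q ×ˢ S, (W p.2).card := Nat.mul_le_mul_left _ h2
      _ ≤ touching R B := h1

end Pool.Agent.Work.MP_81c58b_co.LG
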