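import Pool.Agent.Work.MP_81c58b_co.LG.Stmts

/-!
# MP_81c58b_co, block LG, item Cb: the configuration of part (B)
-/

set_option autoImplicit false

open Finset

namespace Pool.Agent.Work.MP_81c58b_co.LG

namespace XCb

theorem mem_GS {Z i M : ℕ} :
    M ∈ GS Z i ↔ (1 ≤ M ∧ M ≤ Z) ∧ Good M ∧ M.primeFactors.card = i := by
  unfold GS
  simp only [mem_filter, mem_Icc]

theorem pt_inj {x y x' y' : ℤ} (h : pt x y = pt x' y') : x = x' ∧ y = y' := by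
  unfold pt at h
  rw [Disc.mk.injEq] at h
  exact ⟨by exact_mod_cast h.1, by exact_mod_cast h.2.1⟩

theorem mk_inj {M M' : ℕ} {b c b' c' : ℤ} (h : mk 1 M b c = mk 1 M' b' c') :
    M = M' ∧ b = b' ∧ c = c' := by
  unfold mk at h
  rw [Disc.mk.injEq] at h
  obtain ⟨h1, h2, h3⟩ := h
  simp only [Nat.cast_one, div_one] at h1 h2 h3
  refine ⟨?_, by exact_mod_cast h1, by exact_mod_cast h2⟩
  have h4 := (Real.sqrt_inj (Nat.cast_nonneg M) (Nat.cast_nonneg M')).1 h3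
  exact_mod_cast h4

theorem touch_mk (hTp : StTp) {M : ℕ} {x y u v : ℤ} (h : u ^ 2 + v ^ 2 = (M : ℤ)) :
    Touch (mk 1 M (x - u) (y - v)) (pt x y) := by
  rw [hTp]
  unfold mk
  simp only [Nat.cast_one, div_one]
  rw [Real.sq_sqrt (Nat.cast_nonneg M)]
  push_cast
  have h1 : (u : ℝ) ^ 2 + (v : ℝ) ^ 2 = M := by exact_mod_cast h
  rw [← h1]
  ring

theorem abs_bd {X M : ℕ} {u v : ℤ} (h : u ^ 2 + v ^ 2 = (M : ℤ)) (hM : M ≤ X ^ 2) :
    -(X : ℤ) ≤ u ∧ u ≤ X := by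
  have h1 : u ^ 2 ≤ (X : ℤ) ^ 2 := by
    have h2 : (M : ℤ) ≤ (X : ℤ) ^ 2 := by exact_mod_cast hM
    nlinarith [sq_nonneg v]
  exact abs_le.1 (abs_le_of_sq_le_sq h1 (Int.natCast_nonneg X))

end XCb

theorem prfCb : StR3 → StTp → StNt → StCb := by
  intro hR3 hTp hNt X Z i κ S hX hZ hS hκ hmod
  classical
  obtain ⟨t, ht, ht01⟩ : ∃ t : ℤ, (∀ M ∈ S, (if M % 3 = 1 then (0 : ℤ) else 1) = t) ∧
      0 ≤ t ∧ t ≤ 1 := by
    rcases hκ with rfl | rfl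
    · exact ⟨0, fun M hM => by rw [if_pos (hmod M hM)], le_refl _, zero_le_one⟩
    · exact ⟨1, fun M hM => by rw [if_neg (by rw [hmod M hM]; norm_num)], zero_le_one,
        le_refl _⟩
  have hS' : ∀ M ∈ S, (1 ≤ M ∧ M ≤ Z) ∧ Good M ∧ M.primeFactors.card = i :=
    fun M hM => XCb.mem_GS.1 (hS hM)
  obtain ⟨W, hW⟩ : ∃ W : ℕ → Finset (ℤ × ℤ), ∀ M ∈ S,
      2 ^ i ≤ 4 * (W M).card ∧
      ∀ v ∈ W M, v.1 ^ 2 + v.2 ^ 2 = (M : ℤ) ∧ v.1 % 3 = 1 ∧ v.2 % 3 = t := by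
    have h : ∀ M : ℕ, ∃ W : Finset (ℤ × ℤ), M ∈ S → (2 ^ i ≤ 4 * W.card ∧
        ∀ v ∈ W, v.1 ^ 2 + v.2 ^ 2 = (M : ℤ) ∧ v.1 % 3 = 1 ∧ v.2 % 3 = t) := by
      intro M
      by_cases hM : M ∈ S
      · obtain ⟨W, h1, h2⟩ := hR3 M (hS' M hM).2.1
        refine ⟨W, fun _ => ⟨by rw [← (hS' M hM).2.2]; exact h1, fun v hv => ?_⟩⟩
        rw [← ht M hM]
        exact h2 v hv
      · exact ⟨∅, fun h => absurd h hM⟩
    choose W hW using h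
    exact ⟨W, fun M hM => hW M hM⟩
  obtain ⟨B, hB⟩ : ∃ B : Finset Disc, B = (range X ×ˢ range X).image
      (fun p : ℕ × ℕ => pt (3 * p.1 + 1) (3 * p.2 + t)) := ⟨_, rfl⟩
  obtain ⟨R, hR⟩ : ∃ R : Finset Disc, R =
      (S ×ˢ (Icc (-(X : ℤ)) (2 * X) ×ˢ Icc (-(X : ℤ)) (2 * X))).image
      (fun p : ℕ × (ℤ × ℤ) => mk 1 p.1 (3 * p.2.1) (3 * p.2.2)) := ⟨_, rfl⟩
  refine ⟨R, B, ?_, ?_, ?_, ?_, ?_, ?_⟩
  · intro D hD
    rw [hR, mem_image] at hD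
    obtain ⟨p, hp, rfl⟩ := hD
    have h1 := (hS' p.1 (mem_product.1 hp).1).1.1
    unfold mk
    have h2 : (0 : ℝ) < p.1 := by exact_mod_cast h1
    have h3 := Real.sqrt_pos.2 h2
    simp only [Nat.cast_one, div_one]
    exact h3
  · intro D hD
    rw [hB, mem_image] at hD
    obtain ⟨p, hp, rfl⟩ := hD
    rfl
  · apply hNt R B
    · intro D hD
      rw [hR, mem_image] at hD
      obtain ⟨p, hp, rfl⟩ := hD
      exact ⟨p.1, 3 * p.2.1, 3 * p.2.2, (hS' p.1 (mem_product.1 hp).1).2.1.1,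
        Dvd.intro _ rfl, Dvd.intro _ rfl, rfl⟩
    · intro D hD
      rw [hB, mem_image] at hD
      obtain ⟨p, hp, rfl⟩ := hD
      exact ⟨3 * p.1 + 1, 3 * p.2 + t, by omega, rfl⟩
  · rw [hB, card_image_of_injOn, card_product, card_range, sq]
    rintro ⟨p1, p2⟩ _ ⟨q1, q2⟩ _ h
    obtain ⟨h1, h2⟩ := XCb.pt_inj h
    simp only at h1 h2
    rw [Prod.mk.injEq]
    omega
  · rw [hR]
    refine card_image_le.trans ?_
    rw [card_product, card_product, Int.card_Icc]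
    have h1 : (2 * (X : ℤ) + 1 - -(X : ℤ)).toNat = 3 * X + 1 := by omega
    rw [h1, sq]
  · obtain ⟨U, hU⟩ : ∃ U : Finset ((ℕ × ℕ) × (Σ _ : ℕ, ℤ × ℤ)), U =
        (range X ×ˢ range X) ×ˢ (S.sigma W) := ⟨_, rfl⟩
    obtain ⟨Φ, hΦ⟩ : ∃ Φ : (ℕ × ℕ) × (Σ _ : ℕ, ℤ × ℤ) → Disc × Disc, ∀ z, Φ z =
        (mk 1 z.2.1 ((3 * z.1.1 + 1) - z.2.2.1) ((3 * z.1.2 + t) - z.2.2.2),
          pt (3 * z.1.1 + 1) (3 * z.1.2 + t)) := ⟨_, fun _ => rfl⟩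
    have hinj : Set.InjOn Φ U := by
      rintro ⟨⟨p1, p2⟩, ⟨M, v1, v2⟩⟩ _ ⟨⟨q1, q2⟩, ⟨M', w1, w2⟩⟩ _ h
      rw [hΦ, hΦ, Prod.mk.injEq] at h
      obtain ⟨h1, h2⟩ := h
      obtain ⟨h3, h4, h5⟩ := XCb.mk_inj h1
      obtain ⟨h6, h7⟩ := XCb.pt_inj h2
      simp only at h3 h4 h5 h6 h7
      have e1 : p1 = q1 := by omega
      have e2 : p2 = q2 := by omega
      have e3 : v1 = w1 := by omega
      have e4 : v2 = w2 := by omega
      subst e1 e2 e3 e4 h3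
      rfl
    have hsub : ((U.image Φ : Finset (Disc × Disc)) : Set (Disc × Disc)) ⊆
        {P : Disc × Disc | P.1 ∈ R ∧ P.2 ∈ B ∧ Touch P.1 P.2} := by
      intro P hP
      rw [Finset.mem_coe, mem_image] at hP
      obtain ⟨⟨⟨p1, p2⟩, ⟨M, v1, v2⟩⟩, hz, rfl⟩ := hP
      rw [hU, mem_product, mem_product, mem_sigma] at hz
      obtain ⟨⟨hp1, hp2⟩, hM, hv⟩ := hz
      simp only at hp1 hp2 hM hv
      rw [mem_range] at hp1 hp2
      obtain ⟨g1, g2, g3⟩ := (hW M hM).2 _ hv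
      simp only at g1 g2 g3
      have hMX : M ≤ X ^ 2 := (hS' M hM).1.2.trans hZ
      have b1 := XCb.abs_bd g1 hMX
      have b2 := XCb.abs_bd (u := v2) (v := v1) (by rw [add_comm]; exact g1) hMX
      rw [hΦ]
      refine ⟨?_, ?_, ?_⟩
      · show mk 1 M ((3 * p1 + 1) - v1) ((3 * p2 + t) - v2) ∈ R
        obtain ⟨b', hb'⟩ : ∃ b' : ℤ, (3 * (p1 : ℤ) + 1) - v1 = 3 * b' :=
          ⟨((3 * (p1 : ℤ) + 1) - v1) / 3, by omega⟩
        obtain ⟨c', hc'⟩ : ∃ c' : ℤ, (3 * (p2 : ℤ) + t) - v2 = 3 * c' :=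
          ⟨((3 * (p2 : ℤ) + t) - v2) / 3, by omega⟩
        rw [hR, mem_image]
        refine ⟨(M, (b', c')), ?_, ?_⟩
        · rw [mem_product, mem_product, mem_Icc, mem_Icc]
          refine ⟨hM, ⟨?_, ?_⟩, ⟨?_, ?_⟩⟩ <;> simp only <;> omega
        · rw [hb', hc']
      · show pt (3 * p1 + 1) (3 * p2 + t) ∈ B
        rw [hB, mem_image]
        exact ⟨(p1, p2), by rw [mem_product, mem_range, mem_range]; exact ⟨hp1, hp2⟩, rfl⟩
      · exact XCb.touch_mk hTp g1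
    have hfin : {P : Disc × Disc | P.1 ∈ R ∧ P.2 ∈ B ∧ Touch P.1 P.2}.Finite := by
      refine (R ×ˢ B).finite_toSet.subset ?_
      rintro P ⟨h1, h2, -⟩
      rw [Finset.mem_coe, mem_product]
      exact ⟨h1, h2⟩
    have h1 : (U.image Φ).card ≤ touching R B := by
      unfold touching
      rw [← Set.ncard_coe_finset]
      exact Set.ncard_le_ncard hsub hfin
    rw [card_image_of_injOn hinj, hU, card_product, card_product, card_range,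
      card_sigma] at h1
    have h2 : S.card * 2 ^ i ≤ 4 * ∑ M ∈ S, (W M).card := by
      rw [mul_sum, ← smul_eq_mul, ← sum_const]
      exact sum_le_sum fun M hM => (hW M hM).1
    calc S.card * X ^ 2 * 2 ^ i = X * X * (S.card * 2 ^ i) := by ring
      _ ≤ X * X * (4 * ∑ M ∈ S, (W M).card) := Nat.mul_le_mul_left _ h2
      _ = 4 * (X * X * ∑ M ∈ S, (W M).card) := by ring
      _ ≤ 4 * touching R B := Nat.mul_le_mul_left _ h1

end Pool.Agent.Work.MP_81c58b_co.LG
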