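import Pool.Agent.Work.MP_81c58b_co.LG.Stmts

/-!
# MP_81c58b_co, block LG, item Cl: the number of centres
-/

set_option autoImplicit false

open Finset

namespace Pool.Agent.Work.MP_81c58b_co.LG

namespace XCl

/-- a residue class has at most `2 L / a + 1` members in `[-L, L]` -/
theorem cls (a L : ℕ) (ha : 0 < a) (r : ℤ) :
    ((Icc (-(L : ℤ)) L).filter (fun c : ℤ => (a : ℤ) ∣ c - r)).card ≤ 2 * L / a + 1 := by
  have h1 : ((Icc (-(L : ℤ)) L).filter (fun c : ℤ => (a : ℤ) ∣ c - r)).card ≤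
      (range (2 * L / a + 1)).card := by
    refine card_le_card_of_injOn (fun c : ℤ => ((c + L).toNat / a)) ?_ ?_
    · intro c hc
      rw [mem_coe, mem_filter, mem_Icc] at hc
      rw [mem_coe, mem_range, Nat.lt_succ_iff]
      apply Nat.div_le_div_right
      omega
    · intro c hc c' hc' hcc
      rw [mem_coe, mem_filter, mem_Icc] at hc hc'
      have h2 : (c + L).toNat / a = (c' + L).toNat / a := hcc
      have h3 : ((c + L).toNat : ℤ) = c + L := Int.toNat_of_nonneg (by omega)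
      have h4 : ((c' + L).toNat : ℤ) = c' + L := Int.toNat_of_nonneg (by omega)
      have h5 : (a : ℤ) ∣ ((c + L).toNat : ℤ) - ((c' + L).toNat : ℤ) := by
        rw [h3, h4]
        have := dvd_sub hc.2 hc'.2
        have e : c + (L : ℤ) - (c' + L) = c - r - (c' - r) := by ring
        rwa [e]
      have h6 : (c + L).toNat % a = (c' + L).toNat % a := by
        have h7 : ((c + L).toNat : ℤ) % a = ((c' + L).toNat : ℤ) % a :=
          Int.emod_eq_emod_iff_emod_sub_eq_zero.mpr (Int.emod_eq_zero_of_dvd h5)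
        exact_mod_cast h7
      have h8 : (c + L).toNat = (c' + L).toNat := by
        rw [← Nat.div_add_mod (c + L).toNat a, ← Nat.div_add_mod (c' + L).toNat a, h2, h6]
      omega
  simpa using h1

/-- the centres with a given first coordinate -/
theorem fib (a M L : ℕ) (ha : a.Prime) (b : ℤ) :
    ((Icc (-(L : ℤ)) L).filter (fun c : ℤ => (a : ℤ) ∣ b ^ 2 + c ^ 2 - M)).card ≤
      2 * (2 * L / a + 1) := by
  rcases ((Icc (-(L : ℤ)) L).filter
    (fun c : ℤ => (a : ℤ) ∣ b ^ 2 + c ^ 2 - M)).eq_empty_or_nonempty with h | ⟨c0, h0⟩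
  · rw [h, card_empty]
    exact Nat.zero_le _
  · rw [mem_filter] at h0
    have hsub : (Icc (-(L : ℤ)) L).filter (fun c : ℤ => (a : ℤ) ∣ b ^ 2 + c ^ 2 - M) ⊆
        (Icc (-(L : ℤ)) L).filter (fun c : ℤ => (a : ℤ) ∣ c - c0) ∪
        (Icc (-(L : ℤ)) L).filter (fun c : ℤ => (a : ℤ) ∣ c - -c0) := by
      intro c hc
      rw [mem_filter] at hc
      rw [mem_union, mem_filter, mem_filter]
      have h1 : (a : ℤ) ∣ (c - c0) * (c - -c0) := by
        have := dvd_sub hc.2 h0.2
        have e : (c - c0) * (c - -c0) = b ^ 2 + c ^ 2 - M - (b ^ 2 + c0 ^ 2 - M) := by ring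
        rwa [e]
      rcases (Nat.prime_iff_prime_int.mp ha).dvd_or_dvd h1 with h2 | h2
      · exact Or.inl ⟨hc.1, h2⟩
      · exact Or.inr ⟨hc.1, h2⟩
    refine (card_le_card hsub).trans ((card_union_le _ _).trans ?_)
    have h2 := cls a L ha.pos c0
    have h3 := cls a L ha.pos (-c0)
    omega

end XCl

theorem prfCl : StCl := by
  intro a M L ha
  set S := ((Icc (-(L : ℤ)) L) ×ˢ (Icc (-(L : ℤ)) L)).filter
    (fun v : ℤ × ℤ => (a : ℤ) ∣ v.1 ^ 2 + v.2 ^ 2 - M) with hS
  have h1 : S.card ≤ (2 * (2 * L / a + 1)) * (S.image Prod.fst).card := by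
    refine card_le_mul_card_image S _ fun b _ => ?_
    refine le_trans ?_ (XCl.fib a M L ha b)
    refine card_le_card_of_injOn Prod.snd ?_ ?_
    · intro v hv
      rw [mem_coe, mem_filter, hS, mem_filter, mem_product] at hv
      rw [mem_coe, mem_filter]
      obtain ⟨⟨⟨_, h2⟩, h3⟩, h4⟩ := hv
      rw [h4] at h3
      exact ⟨h2, h3⟩
    · intro v hv v' hv' h
      rw [mem_coe, mem_filter] at hv hv'
      exact Prod.ext (hv.2.trans hv'.2.symm) h
  have h2 : (S.image Prod.fst).card ≤ 2 * L + 1 := by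
    have h3 : S.image Prod.fst ⊆ Icc (-(L : ℤ)) L := by
      intro b hb
      rw [mem_image] at hb
      obtain ⟨v, hv, rfl⟩ := hb
      rw [hS, mem_filter, mem_product] at hv
      exact hv.1.1
    refine (card_le_card h3).trans ?_
    rw [Int.card_Icc]
    omega
  calc S.card ≤ (2 * (2 * L / a + 1)) * (S.image Prod.fst).card := h1
    _ ≤ (2 * (2 * L / a + 1)) * (2 * L + 1) := Nat.mul_le_mul_left _ h2
    _ = (2 * L + 1) * (2 * (2 * L / a + 1)) := Nat.mul_comm _ _

end Pool.Agent.Work.MP_81c58b_co.LG
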