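import Pool.Agent.Work.MP_81c58b_co.LG.Stmts

/-!
# Block LG, item Fa: the choice of the parameters in part (A)
-/

set_option autoImplicit false

open Finset Filter

namespace Pool.Agent.Work.MP_81c58b_co.LG

namespace XFa

/-- the three estimates -/
lemma core (P N Z q A X T m n w : ℝ) (hP : 0 < P) (hN : 0 < N) (hq : 0 < q)
    (hX : 0 < X) (hm : m = X ^ 2) (hn0 : 0 ≤ n) (hw : 0 ≤ w)
    (hn : n ≤ 242 * q * N * A * X ^ 2) (hT : q * N * X ^ 2 * P ≤ T)
    (hAX : (A * X) ^ 2 ≤ 4 * Z) (hA : 0 < A)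
    (h1 : 3 * w * (242 * A) ≤ P) (h2 : 3 * w ≤ N * P) (hq1 : 1 ≤ q)
    (h3 : (3 * w) ^ 3 * (242 ^ 2 * (4 * Z)) ≤ q * N * P ^ 3) :
    w * ((m * n) ^ ((2 : ℝ) / 3) + m + n) ≤ T := by
  have hm0 : 0 ≤ m := by rw [hm]; positivity
  have hT0 : 0 ≤ T := le_trans (by positivity) hT
  have e1 : 3 * w * n ≤ T := by
    refine le_trans ?_ hT
    calc 3 * w * n ≤ 3 * w * (242 * q * N * A * X ^ 2) :=
          mul_le_mul_of_nonneg_left hn (by positivity)
      _ = (3 * w * (242 * A)) * (q * N * X ^ 2) := by ring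
      _ ≤ P * (q * N * X ^ 2) := mul_le_mul_of_nonneg_right h1 (by positivity)
      _ = q * N * X ^ 2 * P := by ring
  have e2 : 3 * w * m ≤ T := by
    refine le_trans ?_ hT
    calc 3 * w * m ≤ (N * P) * X ^ 2 := by
          rw [hm]; exact mul_le_mul_of_nonneg_right h2 (by positivity)
      _ = 1 * (N * X ^ 2 * P) := by ring
      _ ≤ q * (N * X ^ 2 * P) := mul_le_mul_of_nonneg_right hq1 (by positivity)
      _ = q * N * X ^ 2 * P := by ring
  have e3 : 3 * w * (m * n) ^ ((2 : ℝ) / 3) ≤ T := by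
    have key : (3 * w) ^ 3 * (m * n) ^ 2 ≤ T ^ 3 := by
      have hT3 : (q * N * X ^ 2 * P) ^ 3 ≤ T ^ 3 := pow_le_pow_left₀ (by positivity) hT 3
      refine le_trans ?_ hT3
      have hmn : (m * n) ^ 2 ≤ (X ^ 2 * (242 * q * N * A * X ^ 2)) ^ 2 := by
        apply pow_le_pow_left₀ (by positivity)
        rw [hm]
        exact mul_le_mul_of_nonneg_left hn (by positivity)
      calc (3 * w) ^ 3 * (m * n) ^ 2
          ≤ (3 * w) ^ 3 * (X ^ 2 * (242 * q * N * A * X ^ 2)) ^ 2 :=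
            mul_le_mul_of_nonneg_left hmn (by positivity)
        _ = ((3 * w) ^ 3 * (242 ^ 2 * (A * X) ^ 2)) * (q ^ 2 * N ^ 2 * X ^ 6) := by ring
        _ ≤ ((3 * w) ^ 3 * (242 ^ 2 * (4 * Z))) * (q ^ 2 * N ^ 2 * X ^ 6) := by
            apply mul_le_mul_of_nonneg_right _ (by positivity)
            apply mul_le_mul_of_nonneg_left _ (by positivity)
            exact mul_le_mul_of_nonneg_left hAX (by norm_num)
        _ ≤ (q * N * P ^ 3) * (q ^ 2 * N ^ 2 * X ^ 6) :=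
            mul_le_mul_of_nonneg_right h3 (by positivity)
        _ = (q * N * X ^ 2 * P) ^ 3 := by ring
    have hr : ((m * n) ^ ((2 : ℝ) / 3)) ^ 3 = (m * n) ^ 2 := by
      rw [← Real.rpow_natCast, ← Real.rpow_mul (by positivity)]
      norm_num
    have : (3 * w * (m * n) ^ ((2 : ℝ) / 3)) ^ 3 ≤ T ^ 3 := by
      rw [mul_pow, hr]
      exact key
    exact le_of_pow_le_pow_left₀ (by norm_num) hT0 this
  nlinarith [e1, e2, e3]

/-- the asymptotic inequalities -/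
lemma asym (c C' k' κ ε : ℝ) (hc : 0 < c) (hε : 0 < ε) (hk : k' < κ) :
    ∃ x0 : ℝ, ∀ x : ℝ, x0 ≤ x →
      3 * 484 ≤ x ^ (ε / 2) ∧
      27 * (242 ^ 2 * 4) * (16 * Real.log x + 2) ≤ c * x ^ (3 * ε / 2) ∧
      C' * (3 * x) ^ k' < x ^ κ ∧
      3 * x ^ κ ≤ Real.exp x ^ ((1 : ℝ) / 4) ∧ Real.exp 1 ≤ x := by
  have a1 : ∀ᶠ x : ℝ in atTop, 3 * 484 ≤ x ^ (ε / 2) :=
    (tendsto_rpow_atTop (by positivity)).eventually_ge_atTop _
  have a2 : ∀ᶠ x : ℝ in atTop,
      27 * (242 ^ 2 * 4) * (16 * Real.log x + 2) ≤ c * x ^ (3 * ε / 2) := by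
    have h1 := (isLittleO_log_rpow_atTop (r := 3 * ε / 2) (by positivity)).def
      (c := c / (2 * (27 * (242 ^ 2 * 4) * 16))) (by positivity)
    have h2 : ∀ᶠ x : ℝ in atTop, 2 * (27 * (242 ^ 2 * 4) * 2) / c ≤ x ^ (3 * ε / 2) :=
      (tendsto_rpow_atTop (by positivity)).eventually_ge_atTop _
    filter_upwards [h1, h2, eventually_ge_atTop 1] with x h1 h2 h3
    have hx : 0 ≤ x ^ (3 * ε / 2) := Real.rpow_nonneg (by linarith) _
    rw [Real.norm_of_nonneg (Real.log_nonneg h3), Real.norm_of_nonneg hx] at h1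
    rw [div_le_iff₀ hc] at h2
    have h4 : (27 * (242 ^ 2 * 4) * 16 : ℝ) * Real.log x ≤ c * x ^ (3 * ε / 2) / 2 := by
      calc (27 * (242 ^ 2 * 4) * 16 : ℝ) * Real.log x
          ≤ (27 * (242 ^ 2 * 4) * 16 : ℝ) *
            (c / (2 * (27 * (242 ^ 2 * 4) * 16)) * x ^ (3 * ε / 2)) :=
            mul_le_mul_of_nonneg_left h1 (by norm_num)
        _ = c * x ^ (3 * ε / 2) / 2 := by field_simp
    nlinarith
  have a3 : ∀ᶠ x : ℝ in atTop, C' * (3 * x) ^ k' < x ^ κ := by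
    have h1 : ∀ᶠ x : ℝ in atTop, |C'| * 3 ^ k' + 1 ≤ x ^ (κ - k') :=
      (tendsto_rpow_atTop (by linarith)).eventually_ge_atTop _
    filter_upwards [h1, eventually_gt_atTop 0] with x h1 h2
    have h3 : x ^ κ = x ^ (κ - k') * x ^ k' := by
      rw [← Real.rpow_add h2]; ring_nf
    rw [h3, Real.mul_rpow (by norm_num) h2.le]
    have h4 : 0 < x ^ k' := Real.rpow_pos_of_pos h2 _
    have h5 : C' * (3 : ℝ) ^ k' < x ^ (κ - k') := by
      have : C' * (3 : ℝ) ^ k' ≤ |C'| * 3 ^ k' :=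
        mul_le_mul_of_nonneg_right (le_abs_self _) (Real.rpow_nonneg (by norm_num) _)
      linarith
    calc C' * ((3 : ℝ) ^ k' * x ^ k') = (C' * (3 : ℝ) ^ k') * x ^ k' := by ring
      _ < x ^ (κ - k') * x ^ k' := mul_lt_mul_of_pos_right h5 h4
  have a4 : ∀ᶠ x : ℝ in atTop, 3 * x ^ κ ≤ Real.exp x ^ ((1 : ℝ) / 4) := by
    have h1 := (isLittleO_rpow_exp_pos_mul_atTop κ (b := 1 / 4) (by norm_num)).def
      (c := 1 / 3) (by norm_num)
    filter_upwards [h1, eventually_gt_atTop 0] with x h1 h2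
    rw [Real.norm_of_nonneg (Real.rpow_nonneg h2.le _),
      Real.norm_of_nonneg (Real.exp_pos _).le] at h1
    have h3 : Real.exp x ^ ((1 : ℝ) / 4) = Real.exp (1 / 4 * x) := by
      rw [← Real.exp_mul]; ring_nf
    rw [h3]
    linarith
  obtain ⟨x0, hx0⟩ := (a1.and (a2.and (a3.and (a4.and (eventually_ge_atTop (Real.exp 1)))))).exists_forall_of_atTop
  exact ⟨x0, fun x hx => hx0 x hx⟩

/-- choice of `α`, `A`, `X` -/
lemma params (Z N : ℕ) (hZ : 16 ≤ Z) (hN : 1 ≤ N) (hNZ : N ≤ Z) :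
    ∃ (α : ℝ) (A X : ℕ), 1 ≤ α ∧ α ^ 4 * N = Z ∧ 1 ≤ A ∧ 1 ≤ X ∧ α ≤ A ∧ (A : ℝ) ≤ 2 * α ∧
      Z ≤ (A * X) ^ 2 ∧ ((A : ℝ) * X) ^ 2 ≤ 4 * Z := by
  have hN0 : (0 : ℝ) < N := by exact_mod_cast hN
  have hZ0 : (0 : ℝ) < Z := by exact_mod_cast (by omega : 0 < Z)
  have hNZ' : (N : ℝ) ≤ Z := by exact_mod_cast hNZ
  have hN1 : (1 : ℝ) ≤ N := by exact_mod_cast hN
  have hZ16 : (16 : ℝ) ≤ Z := by exact_mod_cast hZ
  set α : ℝ := ((Z : ℝ) / N) ^ ((1 : ℝ) / 4) with hα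
  have h1 : 1 ≤ (Z : ℝ) / N := by rw [le_div_iff₀ hN0]; linarith
  have hα1 : 1 ≤ α := Real.one_le_rpow h1 (by norm_num)
  have hα4 : α ^ 4 = (Z : ℝ) / N := by
    rw [hα, ← Real.rpow_natCast, ← Real.rpow_mul (by positivity)]
    norm_num
  have hA1 : α ≤ (⌈α⌉₊ : ℝ) := Nat.le_ceil α
  have hA2 : (⌈α⌉₊ : ℝ) ≤ 2 * α := by
    have := Nat.ceil_lt_add_one (by linarith : (0 : ℝ) ≤ α)
    linarith
  set A : ℕ := ⌈α⌉₊ with hA
  have hA0 : (0 : ℝ) < A := by linarith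
  have hAs : (A : ℝ) ≤ Real.sqrt Z := by
    apply Real.le_sqrt_of_sq_le
    have h2 : ((A : ℝ) ^ 2) ^ 2 ≤ (Z : ℝ) ^ 2 := by
      calc ((A : ℝ) ^ 2) ^ 2 = (A : ℝ) ^ 4 := by ring
        _ ≤ (2 * α) ^ 4 := pow_le_pow_left₀ hA0.le hA2 4
        _ = 16 * ((Z : ℝ) / N) := by rw [mul_pow, hα4]; norm_num
        _ ≤ 16 * Z := by
            apply mul_le_mul_of_nonneg_left _ (by norm_num)
            exact div_le_self hZ0.le hN1
        _ ≤ (Z : ℝ) ^ 2 := by nlinarith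
    exact le_of_sq_le_sq h2 hZ0.le
  have hs : 0 < Real.sqrt Z := Real.sqrt_pos.2 hZ0
  have hq1 : 1 ≤ Real.sqrt Z / A := by rw [le_div_iff₀ hA0]; linarith
  have hX1 : Real.sqrt Z / A ≤ (⌈Real.sqrt Z / A⌉₊ : ℝ) := Nat.le_ceil _
  have hX2 : (⌈Real.sqrt Z / A⌉₊ : ℝ) ≤ 2 * (Real.sqrt Z / A) := by
    have := Nat.ceil_lt_add_one (by linarith : (0 : ℝ) ≤ Real.sqrt Z / A)
    linarith
  refine ⟨α, A, ⌈Real.sqrt Z / A⌉₊, hα1, ?_, ?_, ?_, hA1, hA2, ?_, ?_⟩
  · rw [hα4]; field_simp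
  · exact_mod_cast (lt_of_lt_of_le (by linarith : (0 : ℝ) < α) hA1)
  · exact_mod_cast (lt_of_lt_of_le (by linarith : (0 : ℝ) < Real.sqrt Z / A) hX1)
  · have h3 : Real.sqrt Z ≤ A * (⌈Real.sqrt Z / A⌉₊ : ℝ) := by
      rw [div_le_iff₀ hA0] at hX1
      linarith
    have h4 : (Z : ℝ) ≤ (A * (⌈Real.sqrt Z / A⌉₊ : ℝ)) ^ 2 := by
      calc (Z : ℝ) = Real.sqrt Z ^ 2 := (Real.sq_sqrt hZ0.le).symm
        _ ≤ _ := pow_le_pow_left₀ hs.le h3 2
    exact_mod_cast h4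
  · have h3 : (A : ℝ) * (⌈Real.sqrt Z / A⌉₊ : ℝ) ≤ 2 * Real.sqrt Z := by
      calc (A : ℝ) * (⌈Real.sqrt Z / A⌉₊ : ℝ) ≤ A * (2 * (Real.sqrt Z / A)) :=
            mul_le_mul_of_nonneg_left hX2 hA0.le
        _ = 2 * Real.sqrt Z := by field_simp
    calc ((A : ℝ) * (⌈Real.sqrt Z / A⌉₊ : ℝ)) ^ 2 ≤ (2 * Real.sqrt Z) ^ 2 :=
          pow_le_pow_left₀ (by positivity) h3 2
      _ = 4 * Z := by rw [mul_pow, Real.sq_sqrt hZ0.le]; norm_num

end XFa

/-- item Fa -/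
theorem prfFa : StLv → StPa → StCa → StFa := by
  intro hLv hPa hCa C k hk
  obtain ⟨c, hc, hPc⟩ := hPa
  obtain ⟨k', hk'k, hk'0, hk'⟩ : ∃ k' : ℝ, k ≤ k' ∧ 0 ≤ k' ∧ k' < 7 / 4 :=
    ⟨max k 0, le_max_left _ _, le_max_right _ _, max_lt hk (by norm_num)⟩
  obtain ⟨ε, hε, hκ⟩ : ∃ ε : ℝ, 0 < ε ∧ k' < (7 - ε) / 4 - ε / 2 :=
    ⟨(7 / 4 - k') / 4, by linarith, by linarith⟩
  set κ : ℝ := (7 - ε) / 4 - ε / 2 with hκd
  obtain ⟨x0, hx0⟩ := XFa.asym c (max C 1) k' κ ε hc hε hκ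
  obtain ⟨Z0, hZ0⟩ := hLv 16 (by norm_num) le_rfl ε hε
  obtain ⟨Z, hZa, hZb, hZc⟩ : ∃ Z : ℕ, Z0 ≤ Z ∧ 3000 ≤ Z ∧ x0 ≤ Real.log Z := by
    obtain ⟨Z1, hZ1⟩ := exists_nat_ge (Real.exp x0)
    refine ⟨max Z0 (max 3000 Z1), le_max_left _ _, le_trans (le_max_left _ _) (le_max_right _ _), ?_⟩
    rw [Real.le_log_iff_exp_le (by positivity)]
    refine hZ1.trans ?_
    exact_mod_cast le_trans (le_max_right 3000 Z1) (le_max_right Z0 _)
  obtain ⟨f1, f2, f3, f4, f5⟩ := hx0 _ hZc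
  have hZr : (3000 : ℝ) ≤ Z := by exact_mod_cast hZb
  have hZpos : (0 : ℝ) < Z := by linarith
  rw [Real.exp_log hZpos] at f4
  set l : ℝ := Real.log Z with hl
  have hl1 : 1 ≤ l := le_trans (by have := Real.add_one_le_exp (1 : ℝ); linarith) f5
  have hl0 : 0 < l := by linarith
  have hll : 1 ≤ Real.log l := by
    rw [Real.le_log_iff_exp_le hl0]; exact f5
  obtain ⟨i, hi, hNi⟩ := hZ0 Z hZa
  have hexp : (((16 : ℕ) : ℝ) / 2 - 1 - ε) = 7 - ε := by norm_num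
  rw [hexp] at hNi
  set N : ℕ := (GS Z i).card with hN
  have hNZ : N ≤ Z := by
    have hsub : GS Z i ⊆ Icc 1 Z := by
      classical
      intro M hM
      unfold GS at hM
      exact (mem_filter.1 hM).1
    rw [hN]
    refine (card_le_card hsub).trans ?_
    simp
  have hlp : 0 < l ^ (7 - ε) := Real.rpow_pos_of_pos hl0 _
  have hN1 : 1 ≤ N := by
    rcases Nat.eq_zero_or_pos N with h | h
    · rw [h] at hNi
      have : 0 < (Z : ℝ) * l ^ (7 - ε) := mul_pos hZpos hlp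
      simp at hNi
      linarith
    · exact h
  obtain ⟨α, A, X, g1, g2, g3, g4, g5, g6, g7, g8⟩ := XFa.params Z N (by omega) hN1 hNZ
  have hα0 : 0 < α := by linarith
  have hNr : (1 : ℝ) ≤ N := by exact_mod_cast hN1
  have hAr : (1 : ℝ) ≤ A := by exact_mod_cast g3
  have hXr : (1 : ℝ) ≤ X := by exact_mod_cast g4
  set Q : Finset ℕ := (Ioc A (4 * A)).filter Nat.Prime with hQ
  obtain ⟨R, B, hR, hB, hBc, hRc, hT⟩ := hCa A X Z i Q (GS Z i) g3 g4 g7
    (fun a ha => by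
      rw [hQ, mem_filter, mem_Ioc] at ha
      exact ⟨ha.2, ha.1.1, ha.1.2⟩) (Subset.refl _)
  have hq := hPc A g3
  rw [← hQ] at hq
  have hlogA : 0 < Real.log (2 * A) := Real.log_pos (by linarith)
  have hq0 : (0 : ℝ) < Q.card := lt_of_lt_of_le (by positivity) hq
  have hq1 : (1 : ℝ) ≤ Q.card := by
    have : 0 < Q.card := by exact_mod_cast hq0
    exact_mod_cast this
  have hq3 : (Q.card : ℝ) ≤ 3 * A := by
    have : Q.card ≤ 3 * A := by
      refine (card_le_card (filter_subset _ _)).trans ?_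
      rw [Nat.card_Ioc]; omega
    exact_mod_cast this
  -- the quantity h
  set h : ℝ := l ^ ((7 - ε) / 4) with hh
  have hh4 : h ^ 4 = l ^ (7 - ε) := by
    rw [hh, ← Real.rpow_natCast, ← Real.rpow_mul hl0.le]
    norm_num
  have hh0 : 0 < h := Real.rpow_pos_of_pos hl0 _
  set w : ℝ := l ^ κ with hw
  have hw0 : 0 < w := Real.rpow_pos_of_pos hl0 _
  have hhw : h = w * l ^ (ε / 2) := by
    rw [hh, hw, ← Real.rpow_add hl0, hκd]; ring_nf
  have hhw3 : h ^ 3 = w ^ 3 * l ^ (3 * ε / 2) := by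
    rw [hhw, mul_pow, ← Real.rpow_natCast (l ^ (ε / 2)), ← Real.rpow_mul hl0.le]
    norm_num
    left
    ring_nf
  have hw1 : 1 ≤ w := by
    apply Real.one_le_rpow hl1
    linarith
  have hh1 : 1 ≤ h := by
    rw [hhw]
    have : (1 : ℝ) ≤ l ^ (ε / 2) := by linarith
    nlinarith
  set P : ℝ := (2 : ℝ) ^ i with hP
  have hP0 : 0 < P := by positivity
  have hP4 : P ^ 4 = (16 : ℝ) ^ i := by
    rw [hP, ← pow_mul, mul_comm i 4, pow_mul]; norm_num
  have hNi' : (Z : ℝ) * h ^ 4 ≤ P ^ 4 * N := by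
    rw [hh4, hP4]; exact_mod_cast hNi
  have hPα : α * h ≤ P := by
    have e1 : (α * h) ^ 4 * N ≤ P ^ 4 * N := by
      calc (α * h) ^ 4 * N = (α ^ 4 * N) * h ^ 4 := by ring
        _ = Z * h ^ 4 := by rw [g2]
        _ ≤ _ := hNi'
    have e2 : (α * h) ^ 4 ≤ P ^ 4 := le_of_mul_le_mul_right e1 (by linarith)
    exact le_of_pow_le_pow_left₀ (by norm_num) hP0.le e2
  have hlogA' : Real.log (2 * A) ≤ 16 * Real.log l + 2 := by
    have e1 : (2 : ℝ) * A ≤ 4 * P := by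
      have : α ≤ P := by nlinarith
      linarith
    have e2 : Real.log (2 * A) ≤ Real.log 4 + i * Real.log 2 := by
      calc Real.log (2 * A) ≤ Real.log (4 * P) := Real.log_le_log (by linarith) e1
        _ = Real.log 4 + i * Real.log 2 := by
            rw [Real.log_mul (by norm_num) hP0.ne', hP, Real.log_pow]
    have e3 : Real.log 4 ≤ 2 := by
      have : Real.log 4 = 2 * Real.log 2 := by
        rw [show (4 : ℝ) = 2 ^ 2 by norm_num, Real.log_pow]; norm_num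
      rw [this]
      have := Real.log_two_lt_d9
      linarith
    have e4 : (i : ℝ) * Real.log 2 ≤ 16 * Real.log l := by
      have h2 : Real.log 2 ≤ 1 := by
        have := Real.log_two_lt_d9
        linarith
      have h3 : (i : ℝ) ≤ 16 * Real.log l := by exact_mod_cast hi
      have h4 : (0 : ℝ) ≤ i := Nat.cast_nonneg i
      nlinarith
    linarith
  have hmain : w * (((B.card : ℝ) * R.card) ^ ((2 : ℝ) / 3) + B.card + R.card) ≤
      touching R B := by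
    refine XFa.core P N Z Q.card A X (touching R B) B.card R.card w hP0 (by linarith) hq0
      (by linarith) (by rw [hBc]; push_cast; ring) (Nat.cast_nonneg _) hw0.le ?_ ?_ g8
      (by linarith) ?_ ?_ hq1 ?_
    · exact_mod_cast hRc
    · have hT' : ((Q.card * (GS Z i).card * X ^ 2 * 2 ^ i : ℕ) : ℝ) ≤ touching R B := by
        exact_mod_cast hT
      rw [hP]
      push_cast at hT'
      exact hT'
    · calc 3 * w * (242 * A) ≤ 3 * w * (242 * (2 * α)) := by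
            apply mul_le_mul_of_nonneg_left _ (by positivity)
            linarith
        _ = α * (w * (3 * 484)) := by ring
        _ ≤ α * (w * l ^ (ε / 2)) := by
            apply mul_le_mul_of_nonneg_left _ hα0.le
            exact mul_le_mul_of_nonneg_left f1 hw0.le
        _ = α * h := by rw [hhw]
        _ ≤ P := hPα
    · refine f4.trans ?_
      have e1 : (Z : ℝ) ≤ ((N : ℝ) * P) ^ 4 := by
        have e2 : (Z : ℝ) ≤ P ^ 4 * N := by
          refine le_trans ?_ hNi'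
          have : 1 ≤ h ^ 4 := one_le_pow₀ hh1
          nlinarith
        calc (Z : ℝ) ≤ P ^ 4 * N := e2
          _ ≤ P ^ 4 * (N : ℝ) ^ 4 := by
              apply mul_le_mul_of_nonneg_left _ (by positivity)
              calc (N : ℝ) = (N : ℝ) ^ 1 := (pow_one _).symm
                _ ≤ (N : ℝ) ^ 4 := pow_le_pow_right₀ hNr (by norm_num)
          _ = ((N : ℝ) * P) ^ 4 := by ring
      calc (Z : ℝ) ^ ((1 : ℝ) / 4) ≤ (((N : ℝ) * P) ^ 4) ^ ((1 : ℝ) / 4) :=
            Real.rpow_le_rpow hZpos.le e1 (by norm_num)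
        _ = (N : ℝ) * P := by
            rw [← Real.rpow_natCast, ← Real.rpow_mul (by positivity)]
            norm_num
    · set Λ' : ℝ := 16 * Real.log l + 2 with hΛ
      have hΛ0 : 0 < Λ' := by rw [hΛ]; linarith
      have e1 : c * α ≤ Q.card * Λ' := by
        rw [div_le_iff₀ hlogA] at hq
        calc c * α ≤ c * A := mul_le_mul_of_nonneg_left g5 hc.le
          _ ≤ Q.card * Real.log (2 * A) := hq
          _ ≤ Q.card * Λ' := mul_le_mul_of_nonneg_left hlogA' hq0.le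
      have e2 : (α * h) ^ 3 ≤ P ^ 3 := pow_le_pow_left₀ (by positivity) hPα 3
      have e3 : (3 * w) ^ 3 * (242 ^ 2 * (4 * Z)) * Λ' ≤ (Q.card * N * P ^ 3) * Λ' := by
        calc (3 * w) ^ 3 * (242 ^ 2 * (4 * Z)) * Λ'
            = (27 * (242 ^ 2 * 4) * Λ') * (w ^ 3 * Z) := by ring
          _ ≤ (c * l ^ (3 * ε / 2)) * (w ^ 3 * Z) :=
              mul_le_mul_of_nonneg_right f2 (by positivity)
          _ = c * Z * (w ^ 3 * l ^ (3 * ε / 2)) := by ring
          _ = c * (α ^ 4 * N) * h ^ 3 := by rw [hhw3, g2]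
          _ = (c * α) * (N * (α * h) ^ 3) := by ring
          _ ≤ (Q.card * Λ') * (N * P ^ 3) := by
              apply mul_le_mul e1 _ (by positivity) (by positivity)
              exact mul_le_mul_of_nonneg_left e2 (by linarith)
          _ = (Q.card * N * P ^ 3) * Λ' := by ring
      exact le_of_mul_le_mul_right e3 hΛ0
  -- number of discs
  have hTpos : 0 < touching R B := by
    refine lt_of_lt_of_le ?_ hT
    have : 0 < Q.card := by exact_mod_cast hq0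
    positivity
  have hRne : 1 ≤ R.card := by
    rcases R.eq_empty_or_nonempty with h0 | h0
    · rw [h0] at hTpos
      simp [touching] at hTpos
    · exact h0.card_pos
  have hBne : 1 ≤ B.card := by rw [hBc]; exact Nat.one_le_pow _ _ g4
  have hRr : (1 : ℝ) ≤ R.card := by exact_mod_cast hRne
  have hBr : (1 : ℝ) ≤ B.card := by exact_mod_cast hBne
  have hsum : (R.card : ℝ) + B.card + 1 ≤ (Z : ℝ) ^ 3 := by
    have e1 : (B.card : ℝ) ≤ 4 * Z := by
      rw [hBc]; push_cast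
      calc (X : ℝ) ^ 2 = 1 * (X : ℝ) ^ 2 := by ring
        _ ≤ (A : ℝ) ^ 2 * (X : ℝ) ^ 2 := by
            apply mul_le_mul_of_nonneg_right _ (by positivity)
            nlinarith
        _ = ((A : ℝ) * X) ^ 2 := by ring
        _ ≤ 4 * Z := g8
    have e2 : (R.card : ℝ) ≤ 2904 * (Z : ℝ) ^ 2 := by
      have hRc' : (R.card : ℝ) ≤ 242 * Q.card * N * A * X ^ 2 := by exact_mod_cast hRc
      have hNZr : (N : ℝ) ≤ Z := by exact_mod_cast hNZ
      calc (R.card : ℝ) ≤ 242 * Q.card * N * A * X ^ 2 := hRc'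
        _ = (Q.card * N) * (242 * A * X ^ 2) := by ring
        _ ≤ ((3 * A) * Z) * (242 * A * X ^ 2) := by
            apply mul_le_mul_of_nonneg_right _ (by positivity)
            exact mul_le_mul hq3 hNZr (by positivity) (by positivity)
        _ = 726 * Z * ((A : ℝ) * X) ^ 2 := by ring
        _ ≤ 726 * Z * (4 * Z) := mul_le_mul_of_nonneg_left g8 (by positivity)
        _ = 2904 * (Z : ℝ) ^ 2 := by ring
    have e3 : (Z : ℝ) ^ 3 = Z * (Z : ℝ) ^ 2 := by ring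
    have e4 : (3000 : ℝ) * (Z : ℝ) ^ 2 ≤ Z * (Z : ℝ) ^ 2 :=
      mul_le_mul_of_nonneg_right hZr (by positivity)
    rw [e3]
    nlinarith
  have hlog1 : 1 ≤ Real.log (R.card + B.card + 1) := by
    rw [Real.le_log_iff_exp_le (by positivity)]
    have := Real.exp_one_lt_d9
    linarith
  have hlog2 : Real.log (R.card + B.card + 1) ≤ 3 * l := by
    calc Real.log (R.card + B.card + 1) ≤ Real.log ((Z : ℝ) ^ 3) :=
          Real.log_le_log (by positivity) hsum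
      _ = 3 * l := by rw [Real.log_pow, hl]; norm_num
  refine ⟨R, B, hR, hB, ?_⟩
  set S : ℝ := ((R.card : ℝ) * B.card) ^ ((2 : ℝ) / 3) + R.card + B.card with hS
  have hS0 : 0 < S := by
    have : 0 ≤ ((R.card : ℝ) * B.card) ^ ((2 : ℝ) / 3) := Real.rpow_nonneg (by positivity) _
    rw [hS]; linarith
  have hSm : w * S ≤ touching R B := by
    have : ((B.card : ℝ) * R.card) ^ ((2 : ℝ) / 3) + B.card + R.card = S := by
      rw [hS, mul_comm (B.card : ℝ)]; ring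
    rw [← this]; exact hmain
  have hpw : Real.log (R.card + B.card + 1) ^ k ≤ (3 * l) ^ k' := by
    calc Real.log (R.card + B.card + 1) ^ k ≤ Real.log (R.card + B.card + 1) ^ k' :=
          Real.rpow_le_rpow_of_exponent_le hlog1 hk'k
      _ ≤ (3 * l) ^ k' := Real.rpow_le_rpow (by linarith) hlog2 hk'0
  have hpw0 : 0 ≤ Real.log (R.card + B.card + 1) ^ k := Real.rpow_nonneg (by linarith) _
  calc C * S * Real.log (R.card + B.card + 1) ^ k
      ≤ (max C 1 * S) * Real.log (R.card + B.card + 1) ^ k := by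
        apply mul_le_mul_of_nonneg_right _ hpw0
        exact mul_le_mul_of_nonneg_right (le_max_left _ _) hS0.le
    _ ≤ (max C 1 * S) * (3 * l) ^ k' := by
        apply mul_le_mul_of_nonneg_left hpw
        exact mul_nonneg (le_trans zero_le_one (le_max_right _ _)) hS0.le
    _ = (max C 1 * (3 * l) ^ k') * S := by ring
    _ < w * S := mul_lt_mul_of_pos_right f3 hS0
    _ ≤ touching R B := hSm

end Pool.Agent.Work.MP_81c58b_co.LG
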