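import Pool.Agent.Work.MP_81c58b_co.LG.Stmts

/-!
# MP_81c58b_co, block LG, item Fb: part (B), the choice of the parameters
-/

set_option autoImplicit false

open Finset

namespace Pool.Agent.Work.MP_81c58b_co.LG

namespace XFb

theorem mem_GS {Z i M : ℕ} :
    M ∈ GS Z i ↔ (1 ≤ M ∧ M ≤ Z) ∧ Good M ∧ M.primeFactors.card = i := by
  unfold GS
  simp only [mem_filter, mem_Icc]

theorem good_mod {M : ℕ} (h : Good M) : M % 3 = 1 ∨ M % 3 = 2 := by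
  by_contra hc
  have h0 : 3 ∣ M := by omega
  have := h.2 3 Nat.prime_three h0
  omega

theorem card_le (Z i : ℕ) : (GS Z i).card ≤ Z := by
  have h1 : GS Z i ⊆ Icc 1 Z := by
    intro M hM
    rw [mem_Icc]
    exact (mem_GS.1 hM).1
  have h2 := card_le_card h1
  rwa [Nat.card_Icc, Nat.add_sub_cancel] at h2

theorem split (Z i : ℕ) : ∃ κ : ℕ, (κ = 1 ∨ κ = 2) ∧
    (GS Z i).card ≤ 2 * ((GS Z i).filter (fun M => M % 3 = κ)).card := by
  have h : (GS Z i).card ≤ ((GS Z i).filter (fun M => M % 3 = 1)).card +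
      ((GS Z i).filter (fun M => M % 3 = 2)).card := by
    refine le_trans (card_le_card ?_) (card_union_le _ _)
    intro M hM
    rw [mem_union, mem_filter, mem_filter]
    rcases good_mod (mem_GS.1 hM).2.1 with h1 | h1
    · exact Or.inl ⟨hM, h1⟩
    · exact Or.inr ⟨hM, h1⟩
  rcases le_total ((GS Z i).filter (fun M => M % 3 = 1)).card
    ((GS Z i).filter (fun M => M % 3 = 2)).card with h1 | h1
  · exact ⟨2, Or.inr rfl, by omega⟩
  · exact ⟨1, Or.inl rfl, by omega⟩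

theorem calc3 {Z n N' N P T G : ℝ} (hZ : 2 ≤ Z) (hn : 0 ≤ n) (hN' : 1 ≤ N') (hP : 0 < P)
    (hG : 0 < G) (hT : 0 ≤ T) (hNZ : N ≤ Z) (h1 : Z * G ^ 3 ≤ P ^ 3 * N) (h1' : N ≤ 2 * N')
    (h2 : N' * Z * P ≤ 4 * T) (h3 : n ≤ 16 * N' * Z) :
    G * ((n * Z) ^ ((2 : ℝ) / 3) + n + Z) ≤ 192 * T := by
  have hP3 : 0 < P ^ 3 := by positivity
  have hG3 : 0 < G ^ 3 := by positivity
  have hZ0 : 0 < Z := by linarith
  have hGP : G ≤ P := by
    refine le_of_pow_le_pow_left₀ (n := 3) (by norm_num) hP.le ?_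
    have h4 : Z * G ^ 3 ≤ Z * P ^ 3 := by
      calc Z * G ^ 3 ≤ P ^ 3 * N := h1
        _ ≤ P ^ 3 * Z := mul_le_mul_of_nonneg_left hNZ hP3.le
        _ = Z * P ^ 3 := mul_comm _ _
    exact le_of_mul_le_mul_left h4 hZ0
  have h1b : Z * G ^ 3 ≤ 2 * (P ^ 3 * N') := by
    calc Z * G ^ 3 ≤ P ^ 3 * N := h1
      _ ≤ P ^ 3 * (2 * N') := mul_le_mul_of_nonneg_left h1' hP3.le
      _ = 2 * (P ^ 3 * N') := by ring
  have hGPN : G ≤ P * N' := by
    refine le_of_pow_le_pow_left₀ (n := 3) (by norm_num) (by positivity) ?_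
    have h5 : N' ≤ N' ^ 3 := le_self_pow₀ hN' (by norm_num)
    have h6 : P ^ 3 * N' ≤ P ^ 3 * N' ^ 3 := mul_le_mul_of_nonneg_left h5 hP3.le
    have h7 : 2 * G ^ 3 ≤ Z * G ^ 3 := mul_le_mul_of_nonneg_right hZ hG3.le
    rw [mul_pow]
    linarith
  have a1 : G * n ≤ 64 * T := by
    calc G * n ≤ P * (16 * N' * Z) := mul_le_mul hGP h3 hn hP.le
      _ = 16 * (N' * Z * P) := by ring
      _ ≤ 16 * (4 * T) := mul_le_mul_of_nonneg_left h2 (by norm_num)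
      _ = 64 * T := by ring
  have a2 : G * Z ≤ 64 * T := by
    calc G * Z ≤ P * N' * Z := mul_le_mul_of_nonneg_right hGPN hZ0.le
      _ = N' * Z * P := by ring
      _ ≤ 4 * T := h2
      _ ≤ 64 * T := by linarith
  have a3 : G * (n * Z) ^ ((2 : ℝ) / 3) ≤ 64 * T := by
    refine le_of_pow_le_pow_left₀ (n := 3) (by norm_num) (by positivity) ?_
    have h8 : ((n * Z) ^ ((2 : ℝ) / 3)) ^ 3 = (n * Z) ^ 2 := by
      rw [← Real.rpow_natCast, ← Real.rpow_mul (by positivity)]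
      norm_num
    have h9 : (n * Z) ^ 2 ≤ (16 * N' * Z * Z) ^ 2 :=
      pow_le_pow_left₀ (by positivity) (mul_le_mul_of_nonneg_right h3 hZ0.le) 2
    calc (G * (n * Z) ^ ((2 : ℝ) / 3)) ^ 3 = G ^ 3 * (n * Z) ^ 2 := by rw [mul_pow, h8]
      _ ≤ G ^ 3 * (16 * N' * Z * Z) ^ 2 := mul_le_mul_of_nonneg_left h9 hG3.le
      _ = 256 * N' ^ 2 * Z ^ 3 * (Z * G ^ 3) := by ring
      _ ≤ 256 * N' ^ 2 * Z ^ 3 * (2 * (P ^ 3 * N')) :=
          mul_le_mul_of_nonneg_left h1b (by positivity)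
      _ = 512 * (N' * Z * P) ^ 3 := by ring
      _ ≤ 512 * (4 * T) ^ 3 :=
          mul_le_mul_of_nonneg_left (pow_le_pow_left₀ (by positivity) h2 3) (by norm_num)
      _ ≤ (64 * T) ^ 3 := by
          have : 0 ≤ T ^ 3 := by positivity
          nlinarith
  calc G * ((n * Z) ^ ((2 : ℝ) / 3) + n + Z) = G * (n * Z) ^ ((2 : ℝ) / 3) + G * n + G * Z := by
        ring
    _ ≤ 64 * T + 64 * T + 64 * T := by linarith
    _ = 192 * T := by ring

/-- the choice of `Z = X ^ 2` -/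
theorem choose_X (C k ε : ℝ) (hk : 0 ≤ k) (hC : 0 < C) (hkε : k < 1 - ε / 3) (Z0 : ℕ) :
    ∃ X : ℕ, 5 ≤ X ∧ Z0 ≤ X ^ 2 ∧
      C * (3 * Real.log ((X : ℝ) ^ 2)) ^ k < Real.log ((X : ℝ) ^ 2) ^ (1 - ε / 3) / 192 := by
  have hδ : 0 < 1 - ε / 3 - k := by linarith
  have h1 := (tendsto_rpow_atTop hδ).eventually_gt_atTop (192 * (C * 3 ^ k))
  obtain ⟨l0, hl0⟩ := Filter.eventually_atTop.1 h1
  obtain ⟨X, hX⟩ := exists_nat_ge (Real.exp (max l0 1) + 5 + Z0)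
  have he := Real.exp_pos (max l0 1)
  have hX5 : (5 : ℝ) ≤ X := by
    have : (0 : ℝ) ≤ Z0 := Nat.cast_nonneg _
    linarith
  have hX5' : 5 ≤ X := by exact_mod_cast hX5
  have hXZ : Z0 ≤ X := by
    have : (Z0 : ℝ) ≤ X := by linarith
    exact_mod_cast this
  refine ⟨X, hX5', hXZ.trans (Nat.le_self_pow (by norm_num) X), ?_⟩
  obtain ⟨l, hl⟩ : ∃ l : ℝ, l = Real.log ((X : ℝ) ^ 2) := ⟨_, rfl⟩
  have hX0 : (0 : ℝ) < X := by linarith
  have hlX : max l0 1 ≤ Real.log X := by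
    rw [Real.le_log_iff_exp_le hX0]
    have : (0 : ℝ) ≤ Z0 := Nat.cast_nonneg _
    linarith
  have hl1 : max l0 1 ≤ l := by
    have h2 : 1 ≤ max l0 1 := le_max_right _ _
    rw [hl, Real.log_pow]
    push_cast
    linarith
  have hl2 : 0 < l := by
    have h2 : 1 ≤ max l0 1 := le_max_right _ _
    linarith
  rw [← hl]
  have h3 := hl0 l ((le_max_left _ _).trans hl1)
  have h4 : l ^ (1 - ε / 3) = l ^ (1 - ε / 3 - k) * l ^ k := by
    rw [← Real.rpow_add hl2]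
    congr 1
    ring
  have h5 : 0 < l ^ k := Real.rpow_pos_of_pos hl2 k
  rw [h4, Real.mul_rpow (by norm_num) hl2.le, lt_div_iff₀ (by norm_num)]
  calc C * (3 ^ k * l ^ k) * 192 = 192 * (C * 3 ^ k) * l ^ k := by ring
    _ < l ^ (1 - ε / 3 - k) * l ^ k := mul_lt_mul_of_pos_right h3 h5

end XFb

theorem prfFb : StLv → StCb → StFb := by
  intro hLv hCb C0 k0 hk0
  -- reductions
  obtain ⟨C, hC⟩ : ∃ C : ℝ, C = max C0 1 := ⟨_, rfl⟩
  obtain ⟨k, hk⟩ : ∃ k : ℝ, k = max k0 0 := ⟨_, rfl⟩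
  have hC1 : 1 ≤ C := by rw [hC]; exact le_max_right _ _
  have hCC : C0 ≤ C := by rw [hC]; exact le_max_left _ _
  have hk1 : 0 ≤ k := by rw [hk]; exact le_max_right _ _
  have hkk : k0 ≤ k := by rw [hk]; exact le_max_left _ _
  have hk2 : k < 1 := by rw [hk]; exact max_lt hk0 zero_lt_one
  obtain ⟨ε, hε⟩ : ∃ ε : ℝ, ε = (1 - k) / 2 := ⟨_, rfl⟩
  have hε0 : 0 < ε := by rw [hε]; linarith
  obtain ⟨Z0, hZ0⟩ := hLv 8 (by norm_num) (by norm_num) ε hε0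
  obtain ⟨X, hX5, hXZ, hX⟩ := XFb.choose_X C k ε hk1 (by linarith) (by rw [hε]; linarith) Z0
  obtain ⟨i, -, hi⟩ := hZ0 (X ^ 2) hXZ
  obtain ⟨κ, hκ, hsplit⟩ := XFb.split (X ^ 2) i
  obtain ⟨S, hS⟩ : ∃ S : Finset ℕ, S = (GS (X ^ 2) i).filter (fun M => M % 3 = κ) := ⟨_, rfl⟩
  rw [← hS] at hsplit
  obtain ⟨R, B, hR, hB, hNT, hBc, hRc, hT⟩ := hCb X (X ^ 2) i κ S (by omega) le_rfl
    (by rw [hS]; exact filter_subset _ _) hκ
    (fun M hM => by rw [hS, mem_filter] at hM; exact hM.2)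
  refine ⟨R, B, hR, hB, hNT, ?_⟩
  -- real numbers
  obtain ⟨l, hl⟩ : ∃ l : ℝ, l = Real.log ((X : ℝ) ^ 2) := ⟨_, rfl⟩
  rw [← hl] at hX
  have hXr : (5 : ℝ) ≤ X := by exact_mod_cast hX5
  have hZr : (25 : ℝ) ≤ (X : ℝ) ^ 2 := by nlinarith
  have hl1 : 1 ≤ l := by
    rw [hl, Real.le_log_iff_exp_le (by linarith)]
    have := Real.exp_one_lt_d9
    linarith
  have hl0 : 0 < l := by linarith
  obtain ⟨G, hG⟩ : ∃ G : ℝ, G = l ^ (1 - ε / 3) := ⟨_, rfl⟩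
  have hG0 : 0 < G := by rw [hG]; exact Real.rpow_pos_of_pos hl0 _
  have hG3 : G ^ 3 = l ^ (3 - ε) := by
    rw [hG, ← Real.rpow_natCast, ← Real.rpow_mul hl0.le]
    congr 1
    push_cast
    ring
  have h1 : (X : ℝ) ^ 2 * G ^ 3 ≤ ((2 : ℝ) ^ i) ^ 3 * ((GS (X ^ 2) i).card : ℝ) := by
    have h2 : ((8 : ℕ) : ℝ) / 2 - 1 - ε = 3 - ε := by
      push_cast
      ring
    rw [h2] at hi
    push_cast at hi
    rw [← hl, ← hG3] at hi
    have h3 : (8 : ℝ) ^ i = ((2 : ℝ) ^ i) ^ 3 := by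
      rw [← pow_mul, mul_comm i 3, pow_mul]
      norm_num
    rwa [h3] at hi
  have hP : (0 : ℝ) < (2 : ℝ) ^ i := by positivity
  have hNpos : 0 < (GS (X ^ 2) i).card := by
    by_contra h0
    have h00 : (GS (X ^ 2) i).card = 0 := by omega
    rw [h00, Nat.cast_zero, mul_zero] at h1
    have : 0 < (X : ℝ) ^ 2 * G ^ 3 := by positivity
    linarith
  have hN' : 1 ≤ S.card := by omega
  have hN'r : (1 : ℝ) ≤ S.card := by exact_mod_cast hN'
  have hm : (B.card : ℝ) = (X : ℝ) ^ 2 := by rw [hBc]; push_cast; ring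
  have hn : (R.card : ℝ) ≤ 16 * S.card * (X : ℝ) ^ 2 := by
    have h4 : (R.card : ℝ) ≤ S.card * (3 * X + 1) ^ 2 := by exact_mod_cast hRc
    have h5 : (3 * (X : ℝ) + 1) ^ 2 ≤ (4 * X) ^ 2 :=
      pow_le_pow_left₀ (by linarith) (by linarith) 2
    calc (R.card : ℝ) ≤ S.card * (3 * X + 1) ^ 2 := h4
      _ ≤ S.card * (4 * X) ^ 2 := mul_le_mul_of_nonneg_left h5 (by linarith)
      _ = 16 * S.card * (X : ℝ) ^ 2 := by ring
  have hTr : (S.card : ℝ) * (X : ℝ) ^ 2 * 2 ^ i ≤ 4 * (touching R B : ℝ) := by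
    exact_mod_cast hT
  have hNZ : ((GS (X ^ 2) i).card : ℝ) ≤ (X : ℝ) ^ 2 := by
    exact_mod_cast XFb.card_le (X ^ 2) i
  have hN2 : ((GS (X ^ 2) i).card : ℝ) ≤ 2 * S.card := by exact_mod_cast hsplit
  have hmain := XFb.calc3 (Z := (X : ℝ) ^ 2) (n := R.card) (T := touching R B) (by linarith)
    (Nat.cast_nonneg _) hN'r hP hG0 (Nat.cast_nonneg _) hNZ h1 hN2 hTr hn
  -- the logarithm
  have hSX : (S.card : ℝ) ≤ (X : ℝ) ^ 2 := by
    have h6 : S.card ≤ X ^ 2 := by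
      rw [hS]
      exact (card_le_card (filter_subset _ _)).trans (XFb.card_le (X ^ 2) i)
    exact_mod_cast h6
  have hn0 : (0 : ℝ) ≤ R.card := Nat.cast_nonneg _
  have hL1 : Real.log (R.card + B.card + 1) ≤ 3 * l := by
    have h7 : (R.card : ℝ) + B.card + 1 ≤ ((X : ℝ) ^ 2) ^ 3 := by
      rw [hm]
      have h8 : (R.card : ℝ) ≤ 16 * (X : ℝ) ^ 2 * (X : ℝ) ^ 2 := by
        refine hn.trans ?_
        gcongr
      nlinarith [mul_le_mul hZr hZr (by norm_num) (by positivity)]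
    calc Real.log (R.card + B.card + 1) ≤ Real.log (((X : ℝ) ^ 2) ^ 3) :=
          Real.log_le_log (by rw [hm]; positivity) h7
      _ = 3 * l := by rw [Real.log_pow, hl]; push_cast; ring
  have hL0 : 1 ≤ Real.log (R.card + B.card + 1) := by
    rw [Real.le_log_iff_exp_le (by rw [hm]; positivity), hm]
    have := Real.exp_one_lt_d9
    linarith
  have hsum : 0 < ((R.card * B.card : ℝ)) ^ ((2 : ℝ) / 3) + R.card + B.card := by
    rw [hm]
    have : 0 ≤ ((R.card : ℝ) * (X : ℝ) ^ 2) ^ ((2 : ℝ) / 3) := by positivity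
    linarith
  rw [← hm] at hmain
  obtain ⟨Sg, hSg⟩ : ∃ Sg : ℝ, Sg = ((R.card * B.card : ℝ)) ^ ((2 : ℝ) / 3) + R.card + B.card :=
    ⟨_, rfl⟩
  rw [← hSg] at hmain hsum ⊢
  obtain ⟨L, hL⟩ : ∃ L : ℝ, L = Real.log (R.card + B.card + 1) := ⟨_, rfl⟩
  rw [← hL] at hL0 hL1 ⊢
  have hLk : L ^ k0 ≤ L ^ k := Real.rpow_le_rpow_of_exponent_le hL0 hkk
  have hLk3 : L ^ k ≤ (3 * l) ^ k := Real.rpow_le_rpow (by linarith) hL1 hk1
  have hLp : 0 < L ^ k0 := Real.rpow_pos_of_pos (by linarith) _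
  calc C0 * Sg * L ^ k0 ≤ C * Sg * L ^ k0 := by gcongr
    _ ≤ C * Sg * (3 * l) ^ k := by
        refine mul_le_mul_of_nonneg_left (hLk.trans hLk3) (by positivity)
    _ = (C * (3 * l) ^ k) * Sg := by ring
    _ < (l ^ (1 - ε / 3) / 192) * Sg := mul_lt_mul_of_pos_right hX hsum
    _ = (G * Sg) / 192 := by rw [hG]; ring
    _ ≤ (192 * (touching R B : ℝ)) / 192 := by gcongr
    _ = touching R B := by ring

end Pool.Agent.Work.MP_81c58b_co.LG
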