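import Pool.Agent.Work.MP_81c58b_co.LG.Stmts

/-!
# MP_81c58b_co, block LG, item Ij: different parameters give different circles
-/

set_option autoImplicit false

open Finset

namespace Pool.Agent.Work.MP_81c58b_co.LG

namespace XIj

theorem cast_eq {a : ℕ} (ha : 0 < a) {b b' : ℤ} (h : (b : ℝ) / a = (b' : ℝ) / a) : b = b' := by
  have ha' : (a : ℝ) ≠ 0 := by exact_mod_cast ha.ne'
  rw [div_left_inj' ha'] at h
  exact_mod_cast h

theorem rad {a a' M M' : ℕ} (ha : 0 < a) (ha' : 0 < a')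
    (h : Real.sqrt M / a = Real.sqrt M' / a') : M * a' ^ 2 = M' * a ^ 2 := by
  have h1 : (a : ℝ) ≠ 0 := by exact_mod_cast ha.ne'
  have h2 : (a' : ℝ) ≠ 0 := by exact_mod_cast ha'.ne'
  have h3 := congrArg (fun t : ℝ => t ^ 2) h
  simp only [div_pow, Real.sq_sqrt (Nat.cast_nonneg M), Real.sq_sqrt (Nat.cast_nonneg M')] at h3
  rw [div_eq_div_iff (pow_ne_zero 2 h1) (pow_ne_zero 2 h2)] at h3
  exact_mod_cast h3

end XIj

open XIj in
theorem prfIj : StIj := by
  intro a a' M M' b b' c c' ha ha' hM hM' h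
  unfold mk at h
  rw [Disc.mk.injEq] at h
  obtain ⟨hb, hc, hr⟩ := h
  have h1 := rad ha.pos ha'.pos hr
  have haa : a = a' := by
    by_contra hne
    have hco : Nat.Coprime (a ^ 2) (a' ^ 2) :=
      Nat.Coprime.pow 2 2 ((Nat.coprime_primes ha ha').2 hne)
    have hd : a ^ 2 ∣ M * a' ^ 2 := h1 ▸ Dvd.intro_left M' rfl
    have hd' : a * a ∣ M := by
      rw [← pow_two]
      exact hco.dvd_of_dvd_mul_right hd
    have hu := hM a hd'
    exact ha.ne_one (Nat.isUnit_iff.1 hu)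
  subst haa
  refine ⟨rfl, ?_, cast_eq ha.pos hb, cast_eq ha.pos hc⟩
  exact Nat.eq_of_mul_eq_mul_right (pow_pos ha.pos 2) h1

end Pool.Agent.Work.MP_81c58b_co.LG
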