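import Pool.Agent.Work.MP_81c58b_co.LG.Stmts

/-!
# MP_81c58b_co, block LG, item Nt: no three touch in one point
-/

set_option autoImplicit false

open Finset

namespace Pool.Agent.Work.MP_81c58b_co.LG

namespace XNt

/-- the circles of `R` -/
def IsC (D : Disc) : Prop := ∃ (M : ℕ) (b c : ℤ), Squarefree M ∧ 3 ∣ b ∧ 3 ∣ c ∧ D = mk 1 M b c

/-- the points of `B` -/
def IsP (D : Disc) : Prop := ∃ x y : ℤ, x % 3 = 1 ∧ D = pt x y

theorem pt_circle {x y : ℤ} {q : ℝ × ℝ} (h : q ∈ (pt x y).circle) : q.1 = x ∧ q.2 = y := by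
  have h1 : (q.1 - (x : ℝ)) ^ 2 + (q.2 - (y : ℝ)) ^ 2 = 0 ^ 2 := h
  constructor
  · nlinarith [sq_nonneg (q.1 - (x : ℝ)), sq_nonneg (q.2 - (y : ℝ))]
  · nlinarith [sq_nonneg (q.1 - (x : ℝ)), sq_nonneg (q.2 - (y : ℝ))]

theorem mk_circle {M : ℕ} {b c : ℤ} {q : ℝ × ℝ} (h : q ∈ (mk 1 M b c).circle) :
    (q.1 - b) ^ 2 + (q.2 - c) ^ 2 = M := by
  have h1 : (q.1 - (b : ℝ) / ((1 : ℕ) : ℝ)) ^ 2 + (q.2 - (c : ℝ) / ((1 : ℕ) : ℝ)) ^ 2 =
      (Real.sqrt M / ((1 : ℕ) : ℝ)) ^ 2 := h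
  rw [Nat.cast_one, div_one, div_one, div_one, Real.sq_sqrt (Nat.cast_nonneg M)] at h1
  exact h1

theorem two_pts (hT : StTp) {D E : Disc} (hD : IsP D) (hE : IsP E) (hne : D ≠ E)
    (h : Touch D E) : False := by
  obtain ⟨x, y, -, rfl⟩ := hD
  obtain ⟨x', y', -, rfl⟩ := hE
  have h1 := (hT _ x' y').1 h
  have h2 : ((x' : ℝ) - x) ^ 2 + ((y' : ℝ) - y) ^ 2 = 0 ^ 2 := h1
  have h3 : (x' : ℝ) = x := by
    nlinarith [sq_nonneg ((x' : ℝ) - x), sq_nonneg ((y' : ℝ) - y)]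
  have h4 : (y' : ℝ) = y := by
    nlinarith [sq_nonneg ((x' : ℝ) - x), sq_nonneg ((y' : ℝ) - y)]
  have h5 : x' = x := by exact_mod_cast h3
  have h6 : y' = y := by exact_mod_cast h4
  exact hne (by rw [h5, h6])

theorem one_pt (hO : StOp) {P C C' : Disc} (hP : IsP P) (hC : IsC C) (hC' : IsC C')
    (hne : C ≠ C') (h : Touch C C') {q : ℝ × ℝ} (h0 : q ∈ P.circle) (h1 : q ∈ C.circle)
    (h2 : q ∈ C'.circle) : False := by
  obtain ⟨x, y, hx, rfl⟩ := hP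
  obtain ⟨M, b, c, hM, hb, hc, rfl⟩ := hC
  obtain ⟨M', b', c', hM', hb', hc', rfl⟩ := hC'
  obtain ⟨h3, -⟩ := hO M M' b c b' c' q hM hM' hne h h1 h2
  obtain ⟨h4, -⟩ := pt_circle h0
  rw [h4] at h3
  have h5 : (2 : ℝ) * x = b + b' := by linarith
  have h6 : 2 * x = b + b' := by exact_mod_cast h5
  omega

theorem three (hO : StOp) {D E F : Disc} (hD : IsC D) (hE : IsC E) (hF : IsC F)
    (h12 : D ≠ E) (h13 : D ≠ F) (h23 : E ≠ F) (t12 : Touch D E) (t13 : Touch D F)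
    (t23 : Touch E F) {q : ℝ × ℝ} (h1 : q ∈ D.circle) (h2 : q ∈ E.circle)
    (h3 : q ∈ F.circle) : False := by
  obtain ⟨M, b, c, hM, hb, hc, rfl⟩ := hD
  obtain ⟨M', b', c', hM', hb', hc', rfl⟩ := hE
  obtain ⟨M'', b'', c'', hM'', hb'', hc'', rfl⟩ := hF
  obtain ⟨a1, a2⟩ := hO M M' b c b' c' q hM hM' h12 t12 h1 h2
  obtain ⟨a3, a4⟩ := hO M M'' b c b'' c'' q hM hM'' h13 t13 h1 h3
  obtain ⟨a5, a6⟩ := hO M' M'' b' c' b'' c'' q hM' hM'' h23 t23 h2 h3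
  have e1 : q.1 - b = 0 := by linarith
  have e2 : q.2 - c = 0 := by linarith
  have e3 := mk_circle h1
  rw [e1, e2] at e3
  have e4 : (M : ℝ) = 0 := by
    rw [← e3]
    ring
  have e5 : M = 0 := by exact_mod_cast e4
  exact hM.ne_zero e5

end XNt

open XNt in
theorem prfNt : StOp → StTp → StNt := by
  intro hO hT R B hR hB D hD E hE F hF hDE hDF hEF tDE tDF tEF
  rw [Set.eq_empty_iff_forall_notMem]
  rintro q ⟨⟨qD, qE⟩, qF⟩
  have hD' : IsC D ∨ IsP D := by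
    rcases hD with h | h
    · exact Or.inl (hR D h)
    · exact Or.inr (hB D h)
  have hE' : IsC E ∨ IsP E := by
    rcases hE with h | h
    · exact Or.inl (hR E h)
    · exact Or.inr (hB E h)
  have hF' : IsC F ∨ IsP F := by
    rcases hF with h | h
    · exact Or.inl (hR F h)
    · exact Or.inr (hB F h)
  rcases hD' with d | d <;> rcases hE' with e | e <;> rcases hF' with f | f
  · exact three hO d e f hDE hDF hEF tDE tDF tEF qD qE qF
  · exact one_pt hO f d e hDE tDE qF qD qE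
  · exact one_pt hO e d f hDF tDF qE qD qF
  · exact two_pts hT e f hEF tEF
  · exact one_pt hO d e f hEF tEF qD qE qF
  · exact two_pts hT d f hDF tDF
  · exact two_pts hT d e hDE tDE
  · exact two_pts hT d e hDE tDE

end Pool.Agent.Work.MP_81c58b_co.LG
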