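import Pool.Agent.Work.MP_81c58b_co.LG.Stmts

set_option autoImplicit false

open Finset

namespace Pool.Agent.Work.MP_81c58b_co.LG

namespace XOp

theorem mk_r_sq (M : ℕ) (b c : ℤ) : (mk 1 M b c).r ^ 2 = (M : ℝ) := by
  simp only [mk, Nat.cast_one, div_one]
  exact Real.sq_sqrt (Nat.cast_nonneg M)

theorem mk_r_pos (M : ℕ) (b c : ℤ) (h : Squarefree M) : 0 < (mk 1 M b c).r := by
  have h0 : 0 < M := Nat.pos_of_ne_zero h.ne_zero
  simp only [mk, Nat.cast_one, div_one]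
  exact Real.sqrt_pos.mpr (by exact_mod_cast h0)

end XOp

/-- Op. -/
theorem prfOp : StSq → StPl → StOp := by
  intro hSq hPl M M' b c b' c' p hM hM' hne hT hp hp'
  have hpos := XOp.mk_r_pos M b c hM
  have hpos' := XOp.mk_r_pos M' b' c' hM'
  have hdet := hPl _ _ p hpos hpos' hne hT hp hp'
  have h1 : (p.1 - b) ^ 2 + (p.2 - c) ^ 2 = (M : ℝ) := by
    have h : (p.1 - (mk 1 M b c).x) ^ 2 + (p.2 - (mk 1 M b c).y) ^ 2 = (mk 1 M b c).r ^ 2 := hp
    rw [XOp.mk_r_sq] at h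
    simpa [mk] using h
  have h2 : (p.1 - b') ^ 2 + (p.2 - c') ^ 2 = (M' : ℝ) := by
    have h : (p.1 - (mk 1 M' b' c').x) ^ 2 + (p.2 - (mk 1 M' b' c').y) ^ 2
      = (mk 1 M' b' c').r ^ 2 := hp'
    rw [XOp.mk_r_sq] at h
    simpa [mk] using h
  have h3 : (p.1 - b) * (p.2 - c') - (p.2 - c) * (p.1 - b') = 0 := by
    simpa [mk] using hdet
  -- the scalar product
  set s : ℝ := (p.1 - b) * (p.1 - b') + (p.2 - c) * (p.2 - c') with hs
  have h4 : s ^ 2 = (M : ℝ) * M' := by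
    have e : s ^ 2 + ((p.1 - b) * (p.2 - c') - (p.2 - c) * (p.1 - b')) ^ 2
        = ((p.1 - b) ^ 2 + (p.2 - c) ^ 2) * ((p.1 - b') ^ 2 + (p.2 - c') ^ 2) := by
      rw [hs]; ring
    rw [h3, h1, h2] at e
    linarith
  -- it is half an integer
  set t : ℤ := (M : ℤ) + M' - (b' - b) ^ 2 - (c' - c) ^ 2 with ht
  have h5 : 2 * s = (t : ℝ) := by
    rw [ht, hs]
    push_cast
    have e : 2 * ((p.1 - b) * (p.1 - b') + (p.2 - c) * (p.2 - c'))
        = ((p.1 - b) ^ 2 + (p.2 - c) ^ 2) + ((p.1 - b') ^ 2 + (p.2 - c') ^ 2)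
          - ((b' : ℝ) - b) ^ 2 - ((c' : ℝ) - c) ^ 2 := by ring
    rw [e, h1, h2]
  have h6 : t ^ 2 = 4 * ((M : ℤ) * M') := by
    have : (t : ℝ) ^ 2 = 4 * ((M : ℝ) * M') := by
      rw [← h5, ← h4]; ring
    exact_mod_cast this
  have h7 : Even t := by
    have : Even (t ^ 2) := by
      rw [h6]; exact ⟨2 * ((M : ℤ) * M'), by ring⟩
    exact (Int.even_pow' (by norm_num)).mp this
  obtain ⟨k, hk⟩ := h7
  have h8 : (M : ℤ) * M' = k ^ 2 := by
    rw [hk] at h6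
    nlinarith
  have h9 : M * M' = k.natAbs ^ 2 := by
    zify
    rw [h8, sq_abs]
  have h10 : M = M' := hSq M M' k.natAbs hM hM' h9
  subst h10
  have h11 : (s - M) * (s + M) = 0 := by
    have : s ^ 2 = (M : ℝ) * M := h4
    nlinarith
  rcases mul_eq_zero.mp h11 with h12 | h12
  · exfalso
    apply hne
    have h13 : ((b' : ℝ) - b) ^ 2 + ((c' : ℝ) - c) ^ 2 = 0 := by
      have e : ((b' : ℝ) - b) ^ 2 + ((c' : ℝ) - c) ^ 2
        = ((p.1 - b) ^ 2 + (p.2 - c) ^ 2) + ((p.1 - b') ^ 2 + (p.2 - c') ^ 2) - 2 * s := by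
        rw [hs]; ring
      rw [e, h1, h2]
      linarith
    have h14 : ((b' : ℝ) - b) = 0 := by nlinarith [sq_nonneg ((b' : ℝ) - b), sq_nonneg ((c' : ℝ) - c)]
    have h15 : ((c' : ℝ) - c) = 0 := by nlinarith [sq_nonneg ((b' : ℝ) - b), sq_nonneg ((c' : ℝ) - c)]
    have h16 : b' = b := by
      have : (b' : ℝ) = b := by linarith
      exact_mod_cast this
    have h17 : c' = c := by
      have : (c' : ℝ) = c := by linarith
      exact_mod_cast this
    rw [h16, h17]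
  · have h13 : ((p.1 - b) + (p.1 - b')) ^ 2 + ((p.2 - c) + (p.2 - c')) ^ 2 = 0 := by
      have e : ((p.1 - b) + (p.1 - b')) ^ 2 + ((p.2 - c) + (p.2 - c')) ^ 2
        = ((p.1 - b) ^ 2 + (p.2 - c) ^ 2) + ((p.1 - b') ^ 2 + (p.2 - c') ^ 2) + 2 * s := by
        rw [hs]; ring
      rw [e, h1, h2]
      linarith
    have h14 : (p.1 - b) + (p.1 - b') = 0 := by
      have := sq_nonneg ((p.1 - b) + (p.1 - b'))
      have := sq_nonneg ((p.2 - c) + (p.2 - c'))
      exact pow_eq_zero_iff (n := 2) (by norm_num) |>.mp (by linarith)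
    have h15 : (p.2 - c) + (p.2 - c') = 0 := by
      have := sq_nonneg ((p.1 - b) + (p.1 - b'))
      have := sq_nonneg ((p.2 - c) + (p.2 - c'))
      exact pow_eq_zero_iff (n := 2) (by norm_num) |>.mp (by linarith)
    constructor <;> linarith

end Pool.Agent.Work.MP_81c58b_co.LG
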