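import Pool.Agent.Work.MP_81c58b_co.LG.Stmts

/-!
# Item Pa of block LG: primes in `(A, 4A]`
-/

set_option autoImplicit false

open Finset

namespace Pool.Agent.Work.MP_81c58b_co.LG

namespace XPa

/-- the error term is small -/
theorem err (x y : ℝ) (hy : 80 ≤ y) (hx : x = y ^ 4) :
    Real.log (x + 1) + 2 * √x * Real.log x ≤ Real.log 2 / 4 * x := by
  have hy0 : 0 < y := by linarith
  have hx0 : 0 < x := by rw [hx]; positivity
  have hx1 : 1 ≤ x := by
    rw [hx]
    exact one_le_pow₀ (by linarith)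
  have hs : √x = y ^ 2 := by
    rw [hx, show y ^ 4 = (y ^ 2) ^ 2 by ring]
    exact Real.sqrt_sq (by positivity)
  have hl : Real.log x ≤ 4 * y := by
    rw [hx, Real.log_pow]
    have := Real.log_le_sub_one_of_pos hy0
    push_cast
    linarith
  have hl0 : 0 ≤ Real.log x := Real.log_nonneg hx1
  have hl1 : Real.log (x + 1) ≤ 1 + 4 * y := by
    have h1 : Real.log (x + 1) ≤ Real.log (2 * x) :=
      Real.log_le_log (by linarith) (by linarith)
    rw [Real.log_mul two_ne_zero hx0.ne'] at h1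
    have h2 := Real.log_two_lt_d9
    linarith
  have h2 : 2 * √x * Real.log x ≤ 8 * y ^ 3 := by
    rw [hs]
    have : 2 * y ^ 2 * Real.log x ≤ 2 * y ^ 2 * (4 * y) :=
      mul_le_mul_of_nonneg_left hl (by positivity)
    calc 2 * y ^ 2 * Real.log x ≤ 2 * y ^ 2 * (4 * y) := this
      _ = 8 * y ^ 3 := by ring
  have h3 : 1 + 4 * y ≤ y ^ 3 := by nlinarith [sq_nonneg (y - 80), mul_pos hy0 hy0]
  have h4 := Real.log_two_gt_d9
  have h5 : 9 * y ^ 3 ≤ Real.log 2 / 4 * y ^ 4 := by
    have h6 : 9 ≤ Real.log 2 / 4 * y := by nlinarith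
    have h7 : 0 < y ^ 3 := by positivity
    calc 9 * y ^ 3 ≤ (Real.log 2 / 4 * y) * y ^ 3 := mul_le_mul_of_nonneg_right h6 h7.le
      _ = Real.log 2 / 4 * y ^ 4 := by ring
  rw [← hx] at h5
  linarith

/-- the difference of the theta functions -/
theorem theta_diff (A B : ℕ) (h : A ≤ B) :
    Chebyshev.theta (B : ℝ) - Chebyshev.theta (A : ℝ) =
      ∑ p ∈ (Ioc A B).filter Nat.Prime, Real.log p := by
  unfold Chebyshev.theta
  rw [Nat.floor_natCast, Nat.floor_natCast, sum_filter, sum_filter, sum_filter,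
    ← Finset.sum_Ioc_consecutive _ (Nat.zero_le A) h]
  ring

theorem big (A : ℕ) (hA : 10240000 ≤ A) :
    Real.log 2 * A ≤ ∑ p ∈ (Ioc A (4 * A)).filter Nat.Prime, Real.log p := by
  rw [← theta_diff A (4 * A) (by omega)]
  have hA' : (10240000 : ℝ) ≤ A := by exact_mod_cast hA
  have h1 := Chebyshev.theta_ge (4 * A)
  have h2 := Chebyshev.theta_le_log4_mul_x (x := (A : ℝ)) (by positivity)
  have h4 : Real.log 4 = 2 * Real.log 2 := by
    rw [show (4 : ℝ) = 2 ^ 2 by norm_num, Real.log_pow]; push_cast; ring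
  rw [h4] at h2
  push_cast at h1 ⊢
  obtain ⟨y, hy0, hy⟩ : ∃ y : ℝ, 0 ≤ y ∧ y ^ 4 = 4 * (A : ℝ) := by
    refine ⟨√(√(4 * (A : ℝ))), Real.sqrt_nonneg _, ?_⟩
    rw [show ∀ z : ℝ, z ^ 4 = (z ^ 2) ^ 2 from fun z => by ring, Real.sq_sqrt (Real.sqrt_nonneg _),
      Real.sq_sqrt (by positivity)]
  have hy80 : 80 ≤ y := by
    by_contra hc
    have hc' : y < 80 := not_le.1 hc
    have h5 : y ^ 4 < 80 ^ 4 := pow_lt_pow_left₀ hc' hy0 (by norm_num)
    rw [hy] at h5
    norm_num at h5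
    linarith
  have h3 := err (4 * (A : ℝ)) y hy80 hy.symm
  linarith

end XPa

open XPa in
/-- Item [Pa] -/
theorem prfPa : StPa := by
  have hl2 : 0 < Real.log 2 := Real.log_pos (by norm_num)
  refine ⟨Real.log 2 / 10240000, by positivity, fun A hA => ?_⟩
  have hA1 : (1 : ℝ) ≤ A := by exact_mod_cast hA
  have hlog : Real.log 2 ≤ Real.log (2 * A) := Real.log_le_log (by norm_num) (by linarith)
  have hlogpos : 0 < Real.log (2 * A) := by linarith
  rw [div_le_iff₀ hlogpos]
  rcases Nat.lt_or_ge A 10240000 with hlt | hge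
  · have hA2 : (A : ℝ) ≤ 10240000 := by exact_mod_cast hlt.le
    have hex : ((Ioc A (4 * A)).filter Nat.Prime).Nonempty := by
      obtain ⟨p, hp, h1, h2⟩ := Nat.exists_prime_lt_and_le_two_mul A (by omega)
      exact ⟨p, mem_filter.2 ⟨mem_Ioc.2 ⟨h1, by omega⟩, hp⟩⟩
    have hcard : (1 : ℝ) ≤ (((Ioc A (4 * A)).filter Nat.Prime).card : ℝ) := by
      exact_mod_cast Finset.card_pos.2 hex
    have h1 : Real.log 2 / 10240000 * A ≤ Real.log 2 := by
      have : Real.log 2 / 10240000 * A ≤ Real.log 2 / 10240000 * 10240000 :=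
        mul_le_mul_of_nonneg_left hA2 (by positivity)
      linarith
    nlinarith
  · have h1 := big A hge
    have h2 : ∑ p ∈ (Ioc A (4 * A)).filter Nat.Prime, Real.log p ≤
        (((Ioc A (4 * A)).filter Nat.Prime).card : ℝ) * (2 * Real.log (2 * A)) := by
      rw [← nsmul_eq_mul, ← Finset.sum_const]
      refine Finset.sum_le_sum fun p hp => ?_
      obtain ⟨hp1, hp2⟩ := mem_filter.1 hp
      obtain ⟨-, hp3⟩ := mem_Ioc.1 hp1
      have hp3' : (p : ℝ) ≤ 4 * A := by exact_mod_cast hp3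
      have hp0 : (0 : ℝ) < p := by exact_mod_cast hp2.pos
      have h3 : Real.log p ≤ Real.log ((2 * (A : ℝ)) ^ 2) := by
        refine Real.log_le_log hp0 (hp3'.trans ?_)
        nlinarith
      rw [Real.log_pow] at h3
      exact_mod_cast h3
    have h4 : Real.log 2 / 10240000 * A ≤ Real.log 2 * A / 2 := by
      have : 0 ≤ Real.log 2 * A := by positivity
      have h5 : Real.log 2 / 10240000 * A = Real.log 2 * A / 10240000 := by ring
      rw [h5]
      linarith
    have h6 := h1.trans h2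
    linarith

end Pool.Agent.Work.MP_81c58b_co.LG
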