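import Pool.Agent.Work.MP_81c58b_co.LG.Stmts

/-!
# MP_81c58b_co, block LG, item R3: representations in a given residue class mod 3
-/

set_option autoImplicit false

open Finset

namespace Pool.Agent.Work.MP_81c58b_co.LG

namespace XR3

/-- the four rotations -/
def rot (j : Fin 4) (v : ℤ × ℤ) : ℤ × ℤ :=
  if j = 0 then v else if j = 1 then (-v.2, v.1) else if j = 2 then (-v.1, -v.2) else (v.2, -v.1)

/-- the inverse rotations -/
def inv (j : Fin 4) (v : ℤ × ℤ) : ℤ × ℤ :=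
  if j = 0 then v else if j = 1 then (v.2, -v.1) else if j = 2 then (-v.1, -v.2) else (-v.2, v.1)

theorem inv_rot (j : Fin 4) (v : ℤ × ℤ) : inv j (rot j v) = v := by
  unfold inv rot
  fin_cases j <;> simp

theorem norm_rot (j : Fin 4) (v : ℤ × ℤ) : (rot j v).1 ^ 2 + (rot j v).2 ^ 2 = v.1 ^ 2 + v.2 ^ 2 := by
  unfold rot
  fin_cases j <;> simp <;> ring

/-- the residue class -/
def T (M : ℕ) (v : ℤ × ℤ) : Prop := v.1 % 3 = 1 ∧ v.2 % 3 = (if M % 3 = 1 then 0 else 1)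

theorem ex_rot (M : ℕ) (hM : M % 3 ≠ 0) (v : ℤ × ℤ) (hv : v.1 ^ 2 + v.2 ^ 2 = (M : ℤ)) :
    ∃ j : Fin 4, T M (rot j v) := by
  obtain ⟨a, b⟩ := v
  have h1 : ((a % 3) ^ 2 + (b % 3) ^ 2) % 3 = (M : ℤ) % 3 := by
    rw [← hv]
    simp [Int.add_emod, pow_two, Int.mul_emod]
  have ha : a % 3 = 0 ∨ a % 3 = 1 ∨ a % 3 = 2 := by omega
  have hb : b % 3 = 0 ∨ b % 3 = 1 ∨ b % 3 = 2 := by omega
  have key : ∀ j : Fin 4, (rot j (a, b)).1 % 3 = 1 →
      (rot j (a, b)).2 % 3 = (if M % 3 = 1 then 0 else 1) → ∃ j : Fin 4, T M (rot j (a, b)) :=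
    fun j h h' => ⟨j, h, h'⟩
  rcases ha with ha | ha | ha <;> rcases hb with hb | hb | hb <;> rw [ha, hb] at h1 <;>
    norm_num at h1
  · omega
  · have hm : M % 3 = 1 := by omega
    refine key 3 ?_ ?_ <;> simp [rot, hm] <;> omega
  · have hm : M % 3 = 1 := by omega
    refine key 1 ?_ ?_ <;> simp [rot, hm] <;> omega
  · have hm : M % 3 = 1 := by omega
    refine key 0 ?_ ?_ <;> simp [rot, hm] <;> omega
  · have hm : M % 3 = 2 := by omega
    refine key 0 ?_ ?_ <;> simp [rot, hm] <;> omega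
  · have hm : M % 3 = 2 := by omega
    refine key 1 ?_ ?_ <;> simp [rot, hm] <;> omega
  · have hm : M % 3 = 1 := by omega
    refine key 2 ?_ ?_ <;> simp [rot, hm] <;> omega
  · have hm : M % 3 = 2 := by omega
    refine key 3 ?_ ?_ <;> simp [rot, hm] <;> omega
  · have hm : M % 3 = 2 := by omega
    refine key 2 ?_ ?_ <;> simp [rot, hm] <;> omega

end XR3

open Classical in
theorem prfR3 (h : StRp) : StR3 := by
  intro M hM
  obtain ⟨W0, hW0, hv⟩ := h M hM
  have h3 : M % 3 ≠ 0 := by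
    intro h0
    have h1 := hM.2 3 Nat.prime_three (Nat.dvd_of_mod_eq_zero h0)
    omega
  set W := ((univ : Finset (Fin 4)).biUnion fun j => W0.image (XR3.rot j)).filter (XR3.T M) with hW
  refine ⟨W, ?_, ?_⟩
  · refine hW0.trans ?_
    have hsub : W0 ⊆ (univ : Finset (Fin 4)).biUnion fun j => W.image (XR3.inv j) := by
      intro v hvW
      obtain ⟨j, hj⟩ := XR3.ex_rot M h3 v (hv v hvW)
      rw [mem_biUnion]
      refine ⟨j, mem_univ _, ?_⟩
      rw [mem_image]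
      refine ⟨XR3.rot j v, ?_, XR3.inv_rot j v⟩
      rw [hW, mem_filter, mem_biUnion]
      exact ⟨⟨j, mem_univ _, mem_image_of_mem _ hvW⟩, hj⟩
    refine (card_le_card hsub).trans ?_
    have h4 := card_biUnion_le_card_mul (univ : Finset (Fin 4)) (fun j => W.image (XR3.inv j))
      W.card (fun j _ => card_image_le)
    simpa using h4
  · intro v hvW
    rw [hW, mem_filter, mem_biUnion] at hvW
    obtain ⟨⟨j, _, hj⟩, hT⟩ := hvW
    rw [mem_image] at hj
    obtain ⟨u, hu, rfl⟩ := hj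
    refine ⟨?_, hT.1, hT.2⟩
    rw [XR3.norm_rot]
    exact hv u hu

end Pool.Agent.Work.MP_81c58b_co.LG
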