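import Pool.Agent.Work.MP_81c58b_co.LG.Stmts
import Pool.Agent.Work.MP_cf6fa9_co.Reps

/-!
# Block LG, item Rp
-/

set_option autoImplicit false

open Finset

namespace Pool.Agent.Work.MP_81c58b_co.LG

/-- item Rp -/
theorem prfRp : StRp := by
  intro M hM
  obtain ⟨W, h1, h2⟩ := Pool.Agent.Work.MP_cf6fa9_co.many_reps M.primeFactors
    (fun p hp => ⟨Nat.prime_of_mem_primeFactors hp,
      hM.2 p (Nat.prime_of_mem_primeFactors hp) (Nat.dvd_of_mem_primeFactors hp)⟩)
  rw [Nat.prod_primeFactors_of_squarefree hM.1] at h2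
  exact ⟨W, h1, h2⟩

end Pool.Agent.Work.MP_81c58b_co.LG
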