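import Pool.Agent.Work.MP_81c58b_co.LG.Stmts

/-! Item Sq of the block LG. -/

set_option autoImplicit false

namespace Pool.Agent.Work.MP_81c58b_co.LG

theorem prfSq : StSq := by
  intro M M' k hM hM' h
  have h0 : M ≠ 0 := hM.ne_zero
  have h1 : M ∣ k := by
    rw [← hM.dvd_pow_iff_dvd two_ne_zero]
    exact ⟨M', h.symm⟩
  obtain ⟨t, rfl⟩ := h1
  have h2 : M' = M * (t * t) := by
    apply Nat.eq_of_mul_eq_mul_left (Nat.pos_of_ne_zero h0)
    rw [h]
    ring
  have h3 : IsUnit t := hM' t ⟨M, by rw [h2, mul_comm]⟩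
  rw [Nat.isUnit_iff] at h3
  rw [h2, h3]
  ring

end Pool.Agent.Work.MP_81c58b_co.LG
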