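import Pool.Agent.Work.MP_81c58b_co.LG.Stmts

/-!
# Block LG, item Tp
-/

set_option autoImplicit false

open Finset

namespace Pool.Agent.Work.MP_81c58b_co.LG

namespace XTp

lemma mem_pt (x y : ℤ) (p : ℝ × ℝ) : p ∈ (pt x y).circle ↔ p = ((x : ℝ), (y : ℝ)) := by
  have h0 : p ∈ (pt x y).circle ↔ (p.1 - (x : ℝ)) ^ 2 + (p.2 - (y : ℝ)) ^ 2 = 0 ^ 2 := Iff.rfl
  rw [h0]
  constructor
  · intro h
    have h1 : (p.1 - (x : ℝ)) ^ 2 = 0 := by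
      nlinarith [sq_nonneg (p.1 - (x : ℝ)), sq_nonneg (p.2 - (y : ℝ))]
    have h2 : (p.2 - (y : ℝ)) ^ 2 = 0 := by
      nlinarith [sq_nonneg (p.1 - (x : ℝ)), sq_nonneg (p.2 - (y : ℝ))]
    have h3 := pow_eq_zero_iff (two_ne_zero) |>.1 h1
    have h4 := pow_eq_zero_iff (two_ne_zero) |>.1 h2
    exact Prod.ext (by simpa using sub_eq_zero.1 h3) (by simpa using sub_eq_zero.1 h4)
  · rintro rfl
    simp

end XTp

/-- item Tp -/
theorem prfTp : StTp := by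
  intro D x y
  constructor
  · rintro ⟨p, ⟨h1, h2⟩, -⟩
    rw [XTp.mem_pt] at h2
    rw [h2] at h1
    exact h1
  · intro h
    refine ⟨((x : ℝ), (y : ℝ)), ⟨h, (XTp.mem_pt x y _).2 rfl⟩, ?_⟩
    rintro q ⟨-, hq⟩
    exact (XTp.mem_pt x y q).1 hq

end Pool.Agent.Work.MP_81c58b_co.LG
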