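import Pool.Agent.Work.MP_81c58b_co.LG.AllN
import Pool.Agent.Work.MP_81c58b_co.LG.I_Pa
import Pool.Agent.Work.MP_81c58b_co.LG.I_Rp
import Pool.Agent.Work.MP_81c58b_co.LG.I_R3
import Pool.Agent.Work.MP_81c58b_co.LG.I_Cl
import Pool.Agent.Work.MP_81c58b_co.LG.I_Ij
import Pool.Agent.Work.MP_81c58b_co.LG.I_Tp
import Pool.Agent.Work.MP_81c58b_co.LG.I_Ca
import Pool.Agent.Work.MP_81c58b_co.LG.I_Fa
import Pool.Agent.Work.MP_81c58b_co.LG.I_Sq
import Pool.Agent.Work.MP_81c58b_co.LG.I_Pl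
import Pool.Agent.Work.MP_81c58b_co.LG.I_Op
import Pool.Agent.Work.MP_81c58b_co.LG.I_Nt
import Pool.Agent.Work.MP_81c58b_co.LG.I_Cb
import Pool.Agent.Work.MP_81c58b_co.LG.I_Fb

/-!
# Block LG: assembly
-/

set_option autoImplicit false

namespace Pool.Agent.Work.MP_81c58b_co.LG

theorem all_Fa : StFa := prfFa all_Lv prfPa (prfCa prfRp prfCl prfIj prfTp)

theorem all_Fb : StFb :=
  prfFb all_Lv (prfCb (prfR3 prfRp) prfTp (prfNt (prfOp prfSq prfPl) prfTp))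

end Pool.Agent.Work.MP_81c58b_co.LG
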