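import Pool.Agent.Work.MP_81c58b_co.LG.Stmts

/-!
# Item Ch: the sum of `chi n Λ n / n` is bounded
-/

set_option autoImplicit false

open Finset

namespace Pool.Agent.Work.MP_81c58b_co.LG

namespace XCh

open ArithmeticFunction (vonMangoldt)

theorem chi_mul (m n : ℕ) : chi (m * n) = chi m * chi n := by
  unfold chi
  have h1 : m % 4 = 0 ∨ m % 4 = 1 ∨ m % 4 = 2 ∨ m % 4 = 3 := by omega
  have h2 : n % 4 = 0 ∨ n % 4 = 1 ∨ n % 4 = 2 ∨ n % 4 = 3 := by omega
  rcases h1 with h1 | h1 | h1 | h1 <;> rcases h2 with h2 | h2 | h2 | h2 <;>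
    simp [Nat.mul_mod, h1, h2]

theorem abs_chi_le (n : ℕ) : |chi n| ≤ 1 := by
  unfold chi
  split_ifs <;> simp

/-- the arithmetic function `chi n Λ n / n` -/
noncomputable def F : ArithmeticFunction ℝ :=
  ⟨fun n => chi n * vonMangoldt n / n, by simp⟩

/-- the arithmetic function `chi n / n` -/
noncomputable def G : ArithmeticFunction ℝ := ⟨fun n => chi n / n, by simp⟩

theorem F_apply (n : ℕ) : F n = chi n * vonMangoldt n / n := rfl

theorem G_apply (n : ℕ) : G n = chi n / n := rfl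

theorem FG (n : ℕ) : (F * G) n = chi n * Real.log n / n := by
  rw [ArithmeticFunction.mul_apply]
  have h1 : ∀ p ∈ n.divisorsAntidiagonal, F p.1 * G p.2 = chi n / n * vonMangoldt p.1 := by
    intro p hp
    rw [Nat.mem_divisorsAntidiagonal] at hp
    have h2 : chi n = chi p.1 * chi p.2 := by rw [← chi_mul, hp.1]
    have h3 : (n : ℝ) = p.1 * p.2 := by rw [← hp.1]; push_cast; ring
    rw [F_apply, G_apply, h2, h3, div_mul_div_comm, div_mul_eq_mul_div]
    ring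
  rw [sum_congr rfl h1, ← mul_sum,
    Nat.sum_divisorsAntidiagonal (fun d _ => (vonMangoldt d : ℝ)),
    ArithmeticFunction.vonMangoldt_sum]
  ring

end XCh

open XCh in
open ArithmeticFunction (vonMangoldt) in
theorem prfCh : StLl → StLg → StCh := by
  intro hLl hLg
  obtain ⟨L, hL, hs⟩ := hLl
  refine ⟨(1 + 4 * (Real.log 4 + 4)) / L, ?_⟩
  intro x hx
  have hx0 : (0 : ℝ) < x := by exact_mod_cast hx
  have hI : Icc 1 x = Ioc 0 x := by
    ext n
    simp only [mem_Icc, mem_Ioc]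
    omega
  have hS : ∑ n ∈ Icc 1 x, chi n * vonMangoldt n / n = ∑ n ∈ Ioc 0 x, F n := by
    rw [hI]
    exact sum_congr rfl fun n _ => (F_apply n).symm
  have h1 : ∑ n ∈ Ioc 0 x, (F * G) n = ∑ n ∈ Icc 1 x, chi n * Real.log n / n := by
    rw [hI]
    exact sum_congr rfl fun n _ => FG n
  have h2 : |∑ n ∈ Ioc 0 x, (F * G) n| ≤ 1 := by
    rw [h1]
    exact hLg x
  rw [ArithmeticFunction.sum_Ioc_mul_eq_sum_sum] at h2
  have h3 : ∀ d ∈ Ioc 0 x, |F d * ∑ m ∈ Ioc 0 (x / d), G m - L * F d| ≤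
      4 / x * vonMangoldt d := by
    intro d hd
    rw [mem_Ioc] at hd
    have hd0 : (0 : ℝ) < d := by exact_mod_cast hd.1
    have hq : 1 ≤ x / d := (Nat.one_le_div_iff hd.1).mpr hd.2
    have hq0 : (0 : ℝ) < ((x / d : ℕ) : ℝ) := by exact_mod_cast hq
    have h4 : |∑ m ∈ Ioc 0 (x / d), G m - L| ≤ 2 / ((x / d : ℕ) : ℝ) := by
      have h5 := hs (x / d) hq
      have h6 : Icc 1 (x / d) = Ioc 0 (x / d) := by
        ext n
        simp only [mem_Icc, mem_Ioc]
        omega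
      rw [h6] at h5
      exact h5
    have h7 : x ≤ 2 * (d * (x / d)) := by
      have h8 := Nat.lt_mul_div_succ x hd.1
      have h9 : d * (x / d + 1) ≤ 2 * (d * (x / d)) := by nlinarith
      omega
    have h10 : (x : ℝ) ≤ 2 * (d * ((x / d : ℕ) : ℝ)) := by exact_mod_cast h7
    have h11 : 2 / ((x / d : ℕ) : ℝ) ≤ 4 * d / x := by
      rw [div_le_div_iff₀ hq0 hx0]
      nlinarith
    have h12 : F d * ∑ m ∈ Ioc 0 (x / d), G m - L * F d =
        F d * (∑ m ∈ Ioc 0 (x / d), G m - L) := by ring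
    rw [h12, abs_mul]
    have h13 : |F d| ≤ vonMangoldt d / d := by
      rw [F_apply, abs_div, abs_mul, abs_of_nonneg (ArithmeticFunction.vonMangoldt_nonneg),
        abs_of_pos hd0]
      gcongr
      calc |chi d| * vonMangoldt d ≤ 1 * vonMangoldt d := by
            exact mul_le_mul_of_nonneg_right (abs_chi_le d) ArithmeticFunction.vonMangoldt_nonneg
        _ = vonMangoldt d := one_mul _
    calc |F d| * |∑ m ∈ Ioc 0 (x / d), G m - L| ≤ (vonMangoldt d / d) * (4 * d / x) := by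
          have h14 : (0 : ℝ) ≤ vonMangoldt d / d :=
            div_nonneg ArithmeticFunction.vonMangoldt_nonneg hd0.le
          exact mul_le_mul h13 (h4.trans h11) (abs_nonneg _) h14
      _ = 4 / x * vonMangoldt d := by
          field_simp
  have h20 : |∑ n ∈ Ioc 0 x, F n * ∑ m ∈ Ioc 0 (x / n), G m - L * ∑ n ∈ Ioc 0 x, F n| ≤
      4 * (Real.log 4 + 4) := by
    rw [mul_sum, ← sum_sub_distrib]
    refine (abs_sum_le_sum_abs _ _).trans ((sum_le_sum h3).trans ?_)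
    rw [← mul_sum]
    have h21 := Chebyshev.psi_le_const_mul_self hx0.le
    have h22 : Chebyshev.psi (x : ℝ) = ∑ n ∈ Ioc 0 x, (vonMangoldt n : ℝ) := by
      unfold Chebyshev.psi
      rw [Nat.floor_natCast]
    rw [h22] at h21
    calc 4 / (x : ℝ) * ∑ n ∈ Ioc 0 x, (vonMangoldt n : ℝ) ≤
        4 / x * ((Real.log 4 + 4) * x) := by gcongr
      _ = 4 * (Real.log 4 + 4) := by field_simp
  rw [hS, le_div_iff₀ hL, mul_comm _ L]
  nth_rewrite 1 [← abs_of_pos hL]
  rw [← abs_mul]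
  calc |L * ∑ n ∈ Ioc 0 x, F n| = |∑ n ∈ Ioc 0 x, F n * ∑ m ∈ Ioc 0 (x / n), G m -
        (∑ n ∈ Ioc 0 x, F n * ∑ m ∈ Ioc 0 (x / n), G m - L * ∑ n ∈ Ioc 0 x, F n)| := by
        congr 1
        ring
    _ ≤ |∑ n ∈ Ioc 0 x, F n * ∑ m ∈ Ioc 0 (x / n), G m| + |∑ n ∈ Ioc 0 x, F n *
        ∑ m ∈ Ioc 0 (x / n), G m - L * ∑ n ∈ Ioc 0 x, F n| := abs_sub _ _
    _ ≤ 1 + 4 * (Real.log 4 + 4) := add_le_add h2 h20

end Pool.Agent.Work.MP_81c58b_co.LG
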