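import Pool.Agent.Work.MP_81c58b_co.LG.Stmts

/-!
# MP_81c58b_co, block LG, item Ct: Chebyshev's lower bound for the primes `1 mod 4`
-/

set_option autoImplicit false

open Finset

namespace Pool.Agent.Work.MP_81c58b_co.LG

theorem prfCt (h : StPr) : StCt := by
  obtain ⟨C, hC⟩ := h
  have hC0 : 0 ≤ C := le_trans (abs_nonneg _) (hC 1 le_rfl)
  set D := ⌈Real.exp (4 * C + 6)⌉₊ with hD
  have hDe : Real.exp (4 * C + 6) ≤ D := Nat.le_ceil _
  have hD1 : (1 : ℝ) < D := lt_of_lt_of_le (Real.one_lt_exp_iff.mpr (by linarith)) hDe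
  have hD1' : 1 ≤ D := by
    have : (1 : ℝ) ≤ D := hD1.le
    exact_mod_cast this
  refine ⟨D, D, hD1', fun x hx => ?_⟩
  have hDx : (D : ℝ) ≤ x := by exact_mod_cast hx
  have hx0 : (0 : ℝ) < x := by linarith
  have hx1 : 1 ≤ x := le_trans hD1' hx
  have hlx : 0 < Real.log x := Real.log_pos (by linarith)
  set y := x / D with hy
  have hy1 : 1 ≤ y := (Nat.one_le_div_iff (by omega)).mpr hx
  have hyx : y ≤ x := Nat.div_le_self _ _
  have hyR : (y : ℝ) ≤ x / D := by
    rw [hy]
    exact Nat.cast_div_le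
  have hy0 : (0 : ℝ) < y := by exact_mod_cast hy1
  have h1 := hC x hx1
  have h2 := hC y hy1
  rw [abs_le] at h1 h2
  have hsplit : ∑ p ∈ P14 0 x, Real.log p / p =
      ∑ p ∈ P14 0 y, Real.log p / p + ∑ p ∈ P14 y x, Real.log p / p := by
    rw [← sum_union]
    · congr 1
      unfold P14
      ext p
      simp only [mem_filter, mem_Ioc, mem_union]
      constructor
      · rintro ⟨⟨a, b⟩, c⟩
        by_cases hp : p ≤ y
        · exact Or.inl ⟨⟨a, hp⟩, c⟩
        · exact Or.inr ⟨⟨by omega, b⟩, c⟩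
      · rintro (⟨⟨a, b⟩, c⟩ | ⟨⟨a, b⟩, c⟩)
        · exact ⟨⟨a, by omega⟩, c⟩
        · exact ⟨⟨by omega, b⟩, c⟩
    · rw [disjoint_left]
      intro p hp hp'
      unfold P14 at hp hp'
      rw [mem_filter, mem_Ioc] at hp hp'
      omega
  have hlog : 4 * C + 6 ≤ Real.log x - Real.log y := by
    rw [← Real.log_div hx0.ne' hy0.ne', Real.le_log_iff_exp_le (by positivity)]
    refine hDe.trans ?_
    rw [le_div_iff₀ hy0]
    rw [le_div_iff₀ (by linarith)] at hyR
    linarith
  have hS : 1 ≤ ∑ p ∈ P14 y x, Real.log p / p := by linarith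
  have hub : ∑ p ∈ P14 y x, Real.log p / p ≤ ∑ _p ∈ P14 y x, (D * Real.log x / x) := by
    refine sum_le_sum fun p hp => ?_
    unfold P14 at hp
    rw [mem_filter, mem_Ioc] at hp
    have hp0 : (0 : ℝ) < p := by
      have : 0 < p := by omega
      exact_mod_cast this
    have hpx : (p : ℝ) ≤ x := by exact_mod_cast hp.1.2
    have hpD : (x : ℝ) < p * D := by
      have h3 : x < (y + 1) * D := by
        rw [hy]
        have := Nat.lt_succ_iff.mpr (le_refl (x / D))
        exact (Nat.div_lt_iff_lt_mul (by omega)).mp this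
      have h4 : (y + 1) * D ≤ p * D := Nat.mul_le_mul_right _ hp.1.1
      exact_mod_cast lt_of_lt_of_le h3 h4
    have h5 : Real.log p ≤ Real.log x := Real.log_le_log hp0 hpx
    rw [div_le_div_iff₀ hp0 hx0]
    have h6 : 0 < Real.log x * (p * D - x) := mul_pos hlx (by linarith)
    have h7 : Real.log p * x ≤ Real.log x * x := mul_le_mul_of_nonneg_right h5 hx0.le
    nlinarith
  rw [sum_const, nsmul_eq_mul] at hub
  have hfin : 1 ≤ ((P14 y x).card : ℝ) * (D * Real.log x / x) := le_trans hS hub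
  rw [div_le_iff₀ (by positivity)]
  rw [← mul_div_assoc, le_div_iff₀ hx0] at hfin
  linarith

end Pool.Agent.Work.MP_81c58b_co.LG
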