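import Pool.Agent.Work.MP_81c58b_co.LG.Stmts

/-! Item Es (helper18): elementary symmetric sums. -/

set_option autoImplicit false

open Finset

namespace Pool.Agent.Work.MP_81c58b_co.LG

namespace XEs

/-- the elementary symmetric sum -/
noncomputable def E (x : ℕ → ℝ) (P : Finset ℕ) (j : ℕ) : ℝ := ∑ T ∈ powersetCard j P, ∏ p ∈ T, x p

theorem E_zero (x : ℕ → ℝ) (P : Finset ℕ) : E x P 0 = 1 := by
  simp [E]

theorem E_nonneg (x : ℕ → ℝ) (P : Finset ℕ) (hx : ∀ p ∈ P, 0 ≤ x p) (j : ℕ) : 0 ≤ E x P j := by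
  refine Finset.sum_nonneg fun T hT => Finset.prod_nonneg fun p hp => hx p ?_
  exact (Finset.mem_powersetCard.1 hT).1 hp

theorem E_insert (x : ℕ → ℝ) (P : Finset ℕ) (q : ℕ) (hq : q ∉ P) (j : ℕ) :
    E x (insert q P) (j + 1) = E x P (j + 1) + x q * E x P j := by
  unfold E
  rw [Finset.powersetCard_succ_insert hq, Finset.sum_union, Finset.mul_sum, Finset.sum_image]
  · congr 1
    refine Finset.sum_congr rfl fun T hT => ?_
    rw [Finset.prod_insert fun h => hq ((Finset.mem_powersetCard.1 hT).1 h)]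
  · intro T hT T' hT' h
    have h1 : q ∉ T := fun h => hq ((Finset.mem_powersetCard.1 hT).1 h)
    have h2 : q ∉ T' := fun h => hq ((Finset.mem_powersetCard.1 hT').1 h)
    have h3 := congrArg (fun S => Finset.erase S q) h
    simpa [Finset.erase_insert h1, Finset.erase_insert h2] using h3
  · rw [Finset.disjoint_left]
    intro T hT hT'
    obtain ⟨T', -, rfl⟩ := Finset.mem_image.1 hT'
    exact hq ((Finset.mem_powersetCard.1 hT).1 (Finset.mem_insert_self q T'))

theorem E_empty (x : ℕ → ℝ) (j : ℕ) : E x ∅ (j + 1) = 0 := by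
  unfold E
  rw [Finset.powersetCard_eq_empty.2 (by simp), Finset.sum_empty]

theorem E_one (x : ℕ → ℝ) (P : Finset ℕ) : E x P 1 = ∑ p ∈ P, x p := by
  classical
  induction P using Finset.induction_on with
  | empty => rw [E_empty, Finset.sum_empty]
  | insert q P hq ih => rw [E_insert x P q hq, E_zero, ih, Finset.sum_insert hq]; ring

/-- the two inequalities -/
theorem step (x : ℕ → ℝ) (P : Finset ℕ) (hx : ∀ p ∈ P, 0 ≤ x p) :
    ∀ j : ℕ, ((j + 1 : ℕ) : ℝ) * E x P (j + 1) ≤ (∑ p ∈ P, x p) * E x P j ∧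
      (∑ p ∈ P, x p) * E x P (j + 1) - (∑ p ∈ P, x p ^ 2) * E x P j ≤
        ((j + 2 : ℕ) : ℝ) * E x P (j + 2) := by
  classical
  induction P using Finset.induction_on with
  | empty =>
    intro j
    rw [E_empty, E_empty, Finset.sum_empty, Finset.sum_empty]
    simp
  | insert q P hq ih =>
    have hx' : ∀ p ∈ P, 0 ≤ x p := fun p hp => hx p (Finset.mem_insert_of_mem hp)
    have hq0 : 0 ≤ x q := hx q (Finset.mem_insert_self q P)
    have ih' := ih hx'
    have hE := E_nonneg x P hx'
    have hs : 0 ≤ ∑ p ∈ P, x p := Finset.sum_nonneg hx'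
    intro j
    rw [Finset.sum_insert hq, Finset.sum_insert hq, E_insert x P q hq, E_insert x P q hq]
    cases j with
    | zero =>
      have h1 := (ih' 0).1
      have h2 := (ih' 0).2
      have e0 := E_zero x P
      have e1 := E_one x P
      have e0' := E_zero x (insert q P)
      rw [zero_add] at h1 h2 ⊢
      rw [e0] at h1 h2 ⊢
      rw [e0']
      push_cast at h1 h2 ⊢
      constructor
      · nlinarith
      · rw [e1] at h2 ⊢
        nlinarith
    | succ j =>
      rw [E_insert x P q hq]
      have h1 := (ih' (j + 1)).1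
      have h2 := (ih' (j + 1)).2
      have h3 := (ih' j).1
      have h4 := (ih' j).2
      have hEj := hE j
      have hEj1 := hE (j + 1)
      have hEj2 := hE (j + 2)
      push_cast at *
      have m3 := mul_le_mul_of_nonneg_left h3 hq0
      have m4 := mul_le_mul_of_nonneg_left h4 hq0
      have m5 : 0 ≤ x q ^ 2 * E x P j := mul_nonneg (sq_nonneg _) hEj
      have m6 : 0 ≤ x q ^ 3 * E x P j := mul_nonneg (pow_nonneg hq0 3) hEj
      have m7 : 0 ≤ x q * E x P (j + 1) := mul_nonneg hq0 hEj1
      constructor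
      · nlinarith
      · have e3 : E x P (j + 1 + 2) = E x P (j + 3) := rfl
        have e2 : E x P (j + 1 + 1) = E x P (j + 2) := rfl
        rw [e3, e2] at *
        nlinarith

end XEs

theorem prfEs : StEs := by
  intro P x j hx hj
  have hst := XEs.step x P hx
  set s := ∑ p ∈ P, x p with hs
  set s2 := ∑ p ∈ P, x p ^ 2 with hs2
  have hs0 : 0 ≤ s := Finset.sum_nonneg hx
  have hs20 : 0 ≤ s2 := Finset.sum_nonneg fun p _ => sq_nonneg _
  have hup : ∀ j : ℕ, (j.factorial : ℝ) * XEs.E x P j ≤ s ^ j := by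
    intro j
    induction j with
    | zero => rw [XEs.E_zero]; simp
    | succ j ih =>
      have h1 := (hst j).1
      have h2 : (0 : ℝ) ≤ (j.factorial : ℝ) := by positivity
      have h3 := mul_le_mul_of_nonneg_left h1 h2
      have h4 := mul_le_mul_of_nonneg_left ih hs0
      rw [Nat.factorial_succ, pow_succ]
      push_cast at *
      nlinarith
  have hlow : ∀ j : ℕ, s ^ (j + 2) - ((j + 2).choose 2 : ℝ) * s2 * s ^ j ≤
      ((j + 2).factorial : ℝ) * XEs.E x P (j + 2) := by
    intro j
    induction j with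
    | zero =>
      have h1 := (hst 0).2
      rw [XEs.E_zero, XEs.E_one] at h1
      have h2 : ((0 + 2).choose 2 : ℕ) = 1 := by decide
      have h3 : (0 + 2).factorial = 2 := by decide
      rw [h2, h3]
      push_cast at *
      nlinarith
    | succ j ih =>
      have h1 := (hst (j + 1)).2
      have h2 : (0 : ℝ) ≤ ((j + 2).factorial : ℝ) := by positivity
      have h3 := mul_le_mul_of_nonneg_left h1 h2
      have h4 := mul_le_mul_of_nonneg_left ih hs0
      have h5 := hup (j + 1)
      have h6 : ((j + 1 + 2).choose 2 : ℕ) = (j + 2).choose 2 + (j + 2) := by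
        rw [show j + 1 + 2 = (j + 2) + 1 from rfl, Nat.choose_succ_succ' (j + 2) 1,
          Nat.choose_one_right]
        ring
      have h7 : (j + 1 + 2).factorial = (j + 3) * (j + 2).factorial := by
        rw [show j + 1 + 2 = (j + 2) + 1 from rfl, Nat.factorial_succ]
      have h8 : (j + 2).factorial = (j + 2) * (j + 1).factorial := by
        rw [show j + 2 = (j + 1) + 1 from rfl, Nat.factorial_succ]
      have h9 := mul_le_mul_of_nonneg_left h5 (mul_nonneg (by positivity : (0 : ℝ) ≤ (j : ℝ) + 2) hs20)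
      rw [h6, h7]
      rw [show j + 1 + 2 = j + 3 from rfl] at *
      rw [show j + 1 + 1 = j + 2 from rfl] at *
      push_cast at *
      have h10 : ((j + 2).factorial : ℝ) = ((j : ℝ) + 2) * ((j + 1).factorial : ℝ) := by
        rw [h8]; push_cast; ring
      have e1 : s ^ (j + 3) = s * s ^ (j + 2) := by ring
      have e2 : s ^ (j + 1) = s * s ^ j := by ring
      rw [e1, e2]
      rw [e2] at h9
      have e3 : ((j + 2).factorial : ℝ) * (s2 * XEs.E x P (j + 1)) =
          ((j : ℝ) + 2) * s2 * (((j + 1).factorial : ℝ) * XEs.E x P (j + 1)) := by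
        rw [h10]; ring
      nlinarith
  obtain ⟨i, rfl⟩ : ∃ i, j = i + 2 := ⟨j - 2, by omega⟩
  have h := hlow i
  rw [Nat.add_sub_cancel]
  exact h

end Pool.Agent.Work.MP_81c58b_co.LG
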