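import Pool.Agent.Work.MP_81c58b_co.LG.Stmts

/-!
# MP_81c58b_co, block LG, item Lg: the sums of `chi n * log n / n`
-/

set_option autoImplicit false

open Finset

namespace Pool.Agent.Work.MP_81c58b_co.LG

theorem prfLg (h : StAb) : StLg := by
  intro x
  have e3 : Real.exp 1 ≤ 3 := by
    have := Real.exp_one_lt_d9
    linarith
  have h1 : ∑ n ∈ Icc 1 x, chi n * Real.log n / n = ∑ n ∈ Ioc 2 x, chi n * (Real.log n / n) := by
    have hsub : Ioc 2 x ⊆ Icc 1 x := by
      intro m hm
      rw [mem_Ioc] at hm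
      rw [mem_Icc]
      omega
    symm
    rw [sum_congr rfl (fun n _ => mul_div_assoc (chi n) (Real.log n) n)]
    refine sum_subset hsub fun m hm hm' => ?_
    rw [mem_Icc] at hm
    rw [mem_Ioc] at hm'
    have h2 : m = 1 ∨ m = 2 := by omega
    rcases h2 with rfl | rfl
    · simp
    · simp [chi]
  rw [h1]
  have h2 := h (fun n => Real.log n / n) 2 x (fun n hn => by
    have hn3 : (3 : ℝ) ≤ n := by exact_mod_cast hn
    constructor
    · exact div_nonneg (Real.log_nonneg (by linarith)) (by linarith)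
    · have h3 := Real.log_div_self_antitoneOn (a := (n : ℝ)) (b := ((n + 1 : ℕ) : ℝ))
        (by rw [Set.mem_Ici]; linarith) (by rw [Set.mem_Ici]; push_cast; linarith)
        (by push_cast; linarith)
      exact h3)
  refine h2.trans ?_
  have h3 : Real.log ((2 + 1 : ℕ) : ℝ) ≤ ((2 + 1 : ℕ) : ℝ) - 1 :=
    Real.log_le_sub_one_of_pos (by norm_num)
  show Real.log ((2 + 1 : ℕ) : ℝ) / ((2 + 1 : ℕ) : ℝ) ≤ 1
  rw [div_le_one (by norm_num)]
  linarith

end Pool.Agent.Work.MP_81c58b_co.LG
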