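import Pool.Agent.Work.MP_81c58b_co.LG.Stmts

/-!
# MP_81c58b_co, block LG, item Ll: `L(1, chi)`
-/

set_option autoImplicit false

open Finset

namespace Pool.Agent.Work.MP_81c58b_co.LG

namespace XLl

/-- the partial sums -/
noncomputable def s (x : ℕ) : ℝ := ∑ n ∈ Icc 1 x, chi n / n

theorem diff (h : StAb) (x y : ℕ) (hxy : x ≤ y) : |s y - s x| ≤ 1 / ((x : ℝ) + 1) := by
  have h1 : s y - s x = ∑ m ∈ Ioc x y, chi m * (1 / (m : ℝ)) := by
    have h2 : Icc 1 y = Icc 1 x ∪ Ioc x y := by
      ext m
      simp only [mem_Icc, mem_union, mem_Ioc]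
      omega
    have h3 : Disjoint (Icc 1 x) (Ioc x y) := by
      rw [disjoint_left]
      intro m hm hm'
      rw [mem_Icc] at hm
      rw [mem_Ioc] at hm'
      omega
    unfold s
    rw [h2, sum_union h3, add_sub_cancel_left]
    refine sum_congr rfl fun m _ => ?_
    rw [mul_one_div]
  rw [h1]
  have h4 := h (fun n => 1 / (n : ℝ)) x y (fun n hn => by
    have hn0 : (0 : ℝ) < n := by
      have : 0 < n := by omega
      exact_mod_cast this
    constructor
    · positivity
    · push_cast
      exact one_div_le_one_div_of_le hn0 (by linarith))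
  simpa using h4

end XLl

theorem prfLl (h : StAb) : StLl := by
  have hc : CauchySeq XLl.s := by
    refine cauchySeq_of_le_tendsto_0 (fun N : ℕ => 2 * (1 / ((N : ℝ) + 1))) ?_ ?_
    · intro n m N hn hm
      have h1 := XLl.diff h N n hn
      have h2 := XLl.diff h N m hm
      rw [Real.dist_eq]
      have h3 : XLl.s n - XLl.s m = (XLl.s n - XLl.s N) - (XLl.s m - XLl.s N) := by ring
      rw [h3]
      refine (abs_sub _ _).trans ?_
      linarith
    · have := tendsto_one_div_add_atTop_nhds_zero_nat (𝕜 := ℝ)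
      simpa using this.const_mul 2
  obtain ⟨L, hL⟩ := cauchySeq_tendsto_of_complete hc
  have hb : ∀ x : ℕ, |XLl.s x - L| ≤ 1 / ((x : ℝ) + 1) := by
    intro x
    have h1 : Filter.Tendsto (fun y => |XLl.s y - XLl.s x|) Filter.atTop
        (nhds |L - XLl.s x|) := (hL.sub_const _).abs
    have h2 : |L - XLl.s x| ≤ 1 / ((x : ℝ) + 1) := by
      refine le_of_tendsto h1 ?_
      filter_upwards [Filter.eventually_ge_atTop x] with y hy
      exact XLl.diff h x y hy
    rwa [abs_sub_comm] at h2
  refine ⟨L, ?_, fun x hx => ?_⟩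
  · have h4 := hb 4
    have h5 : XLl.s 4 = 2 / 3 := by
      unfold XLl.s
      rw [show Icc 1 4 = {1, 2, 3, 4} by decide]
      rw [sum_insert (by decide), sum_insert (by decide), sum_insert (by decide), sum_singleton]
      norm_num [chi]
    rw [h5, abs_le] at h4
    norm_num at h4
    linarith [h4.2]
  · refine (hb x).trans ?_
    have hx0 : (0 : ℝ) < x := by exact_mod_cast hx
    rw [div_le_div_iff₀ (by linarith) hx0]
    linarith

end Pool.Agent.Work.MP_81c58b_co.LG
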