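import Pool.Agent.Work.MP_81c58b_co.LG.Stmts

/-!
# MP_81c58b_co, block LG, item Lm: Mertens' first theorem
-/

set_option autoImplicit false

open Finset

namespace Pool.Agent.Work.MP_81c58b_co.LG

namespace XLm

open scoped ArithmeticFunction.vonMangoldt

theorem log_fact (N : ℕ) : Real.log (N.factorial : ℝ) = ∑ m ∈ Ioc 0 N, Real.log m := by
  induction N with
  | zero => simp
  | succ N ih =>
    rw [Nat.factorial_succ, Finset.sum_Ioc_succ_top (Nat.zero_le N), ← ih]
    push_cast
    rw [Real.log_mul (by positivity) (by positivity)]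
    ring

theorem log_fact_eq (N : ℕ) :
    Real.log (N.factorial : ℝ) = ∑ d ∈ Ioc 0 N, Λ d * ((N / d : ℕ) : ℝ) := by
  rw [log_fact]
  have h1 : ∀ m ∈ Ioc 0 N, Real.log m = ∑ d ∈ Ioc 0 N, if d ∣ m then Λ d else 0 := by
    intro m hm
    rw [mem_Ioc] at hm
    rw [← ArithmeticFunction.vonMangoldt_sum, ← sum_filter]
    refine sum_congr ?_ fun _ _ => rfl
    ext d
    simp only [Nat.mem_divisors, mem_filter, mem_Ioc]
    constructor
    · rintro ⟨h, h0⟩
      exact ⟨⟨Nat.pos_of_dvd_of_pos h hm.1, (Nat.le_of_dvd hm.1 h).trans hm.2⟩, h⟩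
    · rintro ⟨_, h⟩
      exact ⟨h, by omega⟩
  rw [sum_congr rfl h1, sum_comm]
  refine sum_congr rfl fun d _ => ?_
  rw [← sum_filter, sum_const, nsmul_eq_mul, Nat.Ioc_filter_dvd_card_eq_div, mul_comm]

end XLm

theorem prfLm : StLm := by
  refine ⟨Real.log 4 + 5, fun x hx => ?_⟩
  have hx0 : (0 : ℝ) < x := by exact_mod_cast hx
  have hx1 : (1 : ℝ) ≤ x := by exact_mod_cast hx
  have h4 : 0 ≤ Real.log 4 := Real.log_nonneg (by norm_num)
  have hI : Icc 1 x = Ioc 0 x := by
    ext m
    simp only [mem_Icc, mem_Ioc]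
    omega
  rw [hI]
  set T := ∑ n ∈ Ioc 0 x, ArithmeticFunction.vonMangoldt n / n with hT
  have hF := XLm.log_fact_eq x
  have hxT : (x : ℝ) * T = ∑ d ∈ Ioc 0 x, ArithmeticFunction.vonMangoldt d * ((x : ℝ) / d) := by
    rw [hT, mul_sum]
    refine sum_congr rfl fun d _ => ?_
    ring
  have hup : Real.log (x.factorial : ℝ) ≤ x * T := by
    rw [hF, hxT]
    refine sum_le_sum fun d _ => ?_
    exact mul_le_mul_of_nonneg_left Nat.cast_div_le ArithmeticFunction.vonMangoldt_nonneg
  have hlo : x * T - ∑ d ∈ Ioc 0 x, ArithmeticFunction.vonMangoldt d ≤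
      Real.log (x.factorial : ℝ) := by
    rw [hF, hxT, ← sum_sub_distrib]
    refine sum_le_sum fun d _ => ?_
    have h1 : (x : ℝ) / d - 1 ≤ ((x / d : ℕ) : ℝ) := by
      rw [← Nat.floor_div_eq_div (K := ℝ) x d]
      have := Nat.lt_floor_add_one ((x : ℝ) / d)
      linarith
    have h2 := mul_le_mul_of_nonneg_left h1
      (ArithmeticFunction.vonMangoldt_nonneg (n := d))
    linarith
  have hpsi : ∑ d ∈ Ioc 0 x, ArithmeticFunction.vonMangoldt d ≤ (Real.log 4 + 4) * x := by
    have h1 := Chebyshev.psi_le_const_mul_self hx0.le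
    unfold Chebyshev.psi at h1
    rwa [Nat.floor_natCast] at h1
  have hst := Stirling.le_log_factorial_stirling (n := x) (by omega)
  have hpi : 0 ≤ Real.log (2 * Real.pi) := Real.log_nonneg (by linarith [Real.pi_gt_three])
  have hlx : 0 ≤ Real.log x := Real.log_nonneg hx1
  have hfl : Real.log (x.factorial : ℝ) ≤ x * Real.log x := by
    have h1 : (x.factorial : ℝ) ≤ (x : ℝ) ^ x := by exact_mod_cast Nat.factorial_le_pow x
    have h2 := Real.log_le_log (by exact_mod_cast Nat.factorial_pos x) h1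
    rwa [Real.log_pow] at h2
  rw [abs_le]
  constructor
  · have h1 : x * (Real.log x - 1) ≤ x * T := by nlinarith
    have h2 := le_of_mul_le_mul_left h1 hx0
    linarith
  · have h1 : x * T ≤ x * (Real.log x + (Real.log 4 + 4)) := by nlinarith
    have h2 := le_of_mul_le_mul_left h1 hx0
    linarith

end Pool.Agent.Work.MP_81c58b_co.LG
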