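import Pool.Agent.Work.MP_81c58b_co.LG.Stmts

/-!
# Item Lv: level sets of the number of prime factors
-/

set_option autoImplicit false

open Finset

namespace Pool.Agent.Work.MP_81c58b_co.LG

namespace XLv

open Filter

theorem sum_sq_le (y : ℕ) : ∑ p ∈ P14 599 y, (1 / (p : ℝ)) ^ 2 ≤ 1 / 599 := by
  have h1 : ∑ p ∈ P14 599 y, (1 / (p : ℝ)) ^ 2 ≤ ∑ p ∈ Ioc 599 y, (1 / (p : ℝ)) ^ 2 :=
    sum_le_sum_of_subset_of_nonneg (filter_subset _ _) fun _ _ _ => sq_nonneg _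
  refine h1.trans ?_
  rcases le_or_gt y 599 with h | h
  · rw [Ioc_eq_empty (by omega)]
    norm_num
  have h2 : ∀ n : ℕ, 599 ≤ n → ∑ p ∈ Ioc 599 n, (1 / (p : ℝ)) ^ 2 ≤ 1 / 599 - 1 / (n : ℝ) := by
    intro n hn
    induction n, hn using Nat.le_induction with
    | base => simp
    | succ n hn ih =>
      rw [sum_Ioc_succ_top (by omega)]
      have hn0 : (0 : ℝ) < n := by
        have : 0 < n := by omega
        exact_mod_cast this
      have h3 : (1 / ((n + 1 : ℕ) : ℝ)) ^ 2 ≤ 1 / (n : ℝ) - 1 / ((n + 1 : ℕ) : ℝ) := by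
        push_cast
        rw [div_sub_div _ _ hn0.ne' (by positivity), one_div, inv_pow, ← one_div,
          div_le_div_iff₀ (by positivity) (by positivity)]
        nlinarith
      linarith
  have h3 := h2 y h.le
  have h4 : (0 : ℝ) ≤ 1 / (y : ℝ) := by positivity
  linarith

theorem ev_log (η : ℝ) (hη : 0 < η) : ∀ᶠ t : ℝ in atTop, Real.log (32 * t) ≤ η * t := by
  have h1 := Real.isLittleO_log_id_atTop.def (show (0 : ℝ) < η / 2 by positivity)
  filter_upwards [h1, eventually_ge_atTop (1 : ℝ),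
    eventually_ge_atTop (Real.log 32 / (η / 2))] with t h2 h3 h4
  rw [Real.log_mul (by norm_num) (by linarith)]
  simp only [id_eq, Real.norm_eq_abs] at h2
  rw [abs_of_nonneg (Real.log_nonneg h3), abs_of_nonneg (by linarith : (0 : ℝ) ≤ t)] at h2
  rw [div_le_iff₀ (by positivity)] at h4
  linarith

end XLv

open XLv Filter in
theorem prfLv : StRe → StEs → StGs → StSt → StLv := by
  intro hRe hEs hGs hSt b hb2 hb16 ε0 hε0
  obtain ⟨ε, hε, hε1, hεle⟩ : ∃ ε : ℝ, 0 < ε ∧ ε ≤ 1 / 2 ∧ ε ≤ ε0 :=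
    ⟨min ε0 (1 / 2), by positivity, min_le_right _ _, min_le_left _ _⟩
  obtain ⟨η, hη, t0, hS⟩ := hSt b hb2 (ε / 4) (by positivity)
  obtain ⟨η', hη', hη1, hη2⟩ : ∃ η' : ℝ, 0 < η' ∧ η' ≤ η / 2 ∧ η' ≤ 1 / 32 :=
    ⟨min (η / 2) (1 / 32), by positivity, min_le_left _ _, min_le_right _ _⟩
  obtain ⟨y0, hy0⟩ := hRe η' hη'
  obtain ⟨c, hc, Z1, hG⟩ := hGs
  have hb2' : (2 : ℝ) ≤ b := by exact_mod_cast hb2
  have hb16' : (b : ℝ) ≤ 16 := by exact_mod_cast hb16
  have hT : Tendsto (fun Z : ℕ => Real.log (Real.log (Z : ℝ))) atTop atTop :=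
    Real.tendsto_log_atTop.comp (Real.tendsto_log_atTop.comp tendsto_natCast_atTop_atTop)
  have hexp : ∀ᶠ t : ℝ in atTop, 2 / c ≤ Real.exp (3 * ε / 4 * t) := by
    have h1 : Tendsto (fun t : ℝ => Real.exp (3 * ε / 4 * t)) atTop atTop :=
      Real.tendsto_exp_atTop.comp (tendsto_id.const_mul_atTop (by positivity))
    exact h1.eventually_ge_atTop _
  have hev : ∀ᶠ t : ℝ in atTop, t0 ≤ t ∧ Real.log (32 * t) ≤ η' * t ∧ 4 ≤ t ∧
      64 * ((y0 : ℝ) + 1) ≤ t ∧ 2 / c ≤ Real.exp (3 * ε / 4 * t) := by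
    filter_upwards [eventually_ge_atTop t0, ev_log η' hη', eventually_ge_atTop (4 : ℝ),
      eventually_ge_atTop (64 * ((y0 : ℝ) + 1)), hexp] with t h1 h2 h3 h4 h5
    exact ⟨h1, h2, h3, h4, h5⟩
  obtain ⟨Z0, hZ0⟩ := eventually_atTop.mp
    ((hT.eventually hev).and (eventually_ge_atTop (max Z1 16)))
  refine ⟨Z0, fun Z hZ => ?_⟩
  obtain ⟨⟨ht0, hlog, ht4, hty, hce⟩, hZm⟩ := hZ0 Z hZ
  have hZ1 : Z1 ≤ Z := (le_max_left _ _).trans hZm
  have hZ16 : 16 ≤ Z := (le_max_right _ _).trans hZm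
  have hZr : (16 : ℝ) ≤ Z := by exact_mod_cast hZ16
  have hZpos : (0 : ℝ) < Z := by linarith
  have hlZ0 : 0 < Real.log Z := Real.log_pos (by linarith)
  have hlZ : Real.log (Z : ℝ) = Real.exp (Real.log (Real.log Z)) := (Real.exp_log hlZ0).symm
  generalize hteq : Real.log (Real.log (Z : ℝ)) = t at *
  have htpos : 0 < t := by linarith
  have hy0n : (0 : ℝ) ≤ y0 := Nat.cast_nonneg _
  -- exponential bound
  have hE : 32 * t * ((y0 : ℝ) + 1) ≤ Real.exp t := by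
    have h1 := Real.quadratic_le_exp_of_nonneg htpos.le
    nlinarith
  obtain ⟨j, hj⟩ : ∃ j : ℕ, j = ⌊(b : ℝ) / 2 * t⌋₊ := ⟨_, rfl⟩
  have hbt : (2 : ℝ) ≤ (b : ℝ) / 2 * t := by nlinarith
  have hjle : (j : ℝ) ≤ (b : ℝ) / 2 * t := by
    rw [hj]
    exact Nat.floor_le (by linarith)
  have hj8 : (j : ℝ) ≤ 8 * t := by nlinarith
  have hj2 : 2 ≤ j := by
    rw [hj]
    exact Nat.le_floor (by exact_mod_cast hbt)
  have hj2' : (2 : ℝ) ≤ j := by exact_mod_cast hj2
  have hjpos : (0 : ℝ) < j := by linarith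
  obtain ⟨r, hr⟩ : ∃ r : ℝ, r = (Z : ℝ) ^ (1 / (2 * (j : ℝ))) := ⟨_, rfl⟩
  have hrpos : 0 < r := by rw [hr]; exact Real.rpow_pos_of_pos hZpos _
  have hlr : Real.log r = Real.exp t / (2 * j) := by
    rw [hr, Real.log_rpow hZpos, hlZ]
    ring
  have hrpow : r ^ (2 * j) = Z := by
    rw [hr, ← Real.rpow_natCast, ← Real.rpow_mul hZpos.le]
    push_cast
    rw [one_div, inv_mul_cancel₀ (by positivity), Real.rpow_one]
  obtain ⟨y, hy⟩ : ∃ y : ℕ, y = ⌊r⌋₊ := ⟨_, rfl⟩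
  have hyr : (y : ℝ) ≤ r := by rw [hy]; exact Nat.floor_le hrpos.le
  have hyZ : y ^ (2 * j) ≤ Z := by
    have h1 : (y : ℝ) ^ (2 * j) ≤ r ^ (2 * j) := pow_le_pow_left₀ (Nat.cast_nonneg _) hyr _
    rw [hrpow] at h1
    exact_mod_cast h1
  have hq : ((y0 : ℝ) + 1) ≤ Real.exp t / (4 * j) := by
    rw [le_div_iff₀ (by positivity)]
    calc ((y0 : ℝ) + 1) * (4 * j) ≤ ((y0 : ℝ) + 1) * (4 * (8 * t)) := by gcongr
      _ = 32 * t * ((y0 : ℝ) + 1) := by ring
      _ ≤ Real.exp t := hE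
  have hlog2 : Real.log 2 ≤ 1 := by
    have := Real.log_two_lt_d9
    linarith
  have hhalf : Real.exp t / (2 * j) = 2 * (Real.exp t / (4 * j)) := by
    field_simp
    ring
  have hr2 : 2 ≤ r := by
    have h1 : Real.log 2 ≤ Real.log r := by
      rw [hlr, hhalf]
      linarith
    exact (Real.log_le_log_iff (by norm_num) hrpos).mp h1
  have hyr2 : r / 2 ≤ y := by
    have h1 := Nat.lt_floor_add_one r
    rw [← hy] at h1
    linarith
  have hypos : (0 : ℝ) < y := by linarith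
  have hly : Real.exp t / (4 * j) ≤ Real.log y := by
    have h1 : Real.log (r / 2) ≤ Real.log y := Real.log_le_log (by positivity) hyr2
    rw [Real.log_div hrpos.ne' (by norm_num), hlr, hhalf] at h1
    linarith
  have hly2 : Real.exp t / (32 * t) ≤ Real.log y := by
    refine le_trans ?_ hly
    gcongr Real.exp t / ?_
    linarith
  have hyy0 : y0 ≤ y := by
    have h1 := Real.log_le_sub_one_of_pos hypos
    have h2 : (y0 : ℝ) ≤ y := by linarith
    exact_mod_cast h2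
  have hlly : (1 - η') * t ≤ Real.log (Real.log y) := by
    have h1 : Real.log (Real.exp t / (32 * t)) ≤ Real.log (Real.log y) :=
      Real.log_le_log (by positivity) hly2
    rw [Real.log_div (Real.exp_pos _).ne' (by positivity), Real.log_exp] at h1
    linarith
  have hs1 := hy0 y hyy0
  have hs2le := sum_sq_le y
  have hG1 := hG Z hZ1 j y hj2 hyZ
  generalize P14 599 y = A at hs1 hs2le hG1
  obtain ⟨s, hs⟩ : ∃ s : ℝ, s = ∑ p ∈ A, 1 / (p : ℝ) := ⟨_, rfl⟩
  rw [← hs] at hs1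
  have hs3 : (1 / 2 - 2 * η') * t ≤ s := by
    have h1 : (1 / 2 - η') * ((1 - η') * t) ≤ (1 / 2 - η') * Real.log (Real.log y) :=
      mul_le_mul_of_nonneg_left hlly (by linarith)
    have h2 : (1 / 2 - 2 * η') * t ≤ (1 / 2 - η') * ((1 - η') * t) := by
      have h3 : (1 / 2 - η') * ((1 - η') * t) - (1 / 2 - 2 * η') * t =
        (η' / 2 + η' ^ 2) * t := by ring
      have h4 : 0 ≤ (η' / 2 + η' ^ 2) * t := by positivity
      linarith
    linarith
  have hsη : (1 / 2 - η) * t ≤ s := by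
    refine le_trans ?_ hs3
    exact mul_le_mul_of_nonneg_right (by linarith) htpos.le
  have hs38 : 3 / 8 * t ≤ s := by
    refine le_trans ?_ hs3
    exact mul_le_mul_of_nonneg_right (by linarith) htpos.le
  have hspos : 0 < s := by
    have : 0 < 3 / 8 * t := by positivity
    linarith
  have hSt1 := hS t s ht0 hsη
  rw [← hj] at hSt1
  -- elementary symmetric sums
  have hs2nn : 0 ≤ ∑ p ∈ A, (1 / (p : ℝ)) ^ 2 := sum_nonneg fun _ _ => sq_nonneg _
  have hEs1 := hEs A (fun p => 1 / (p : ℝ)) j (fun p _ => by positivity) hj2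
  beta_reduce at hEs1
  rw [← hs] at hEs1
  generalize (∑ p ∈ A, (1 / (p : ℝ)) ^ 2) = s2 at hs2le hs2nn hEs1
  generalize (∑ T ∈ powersetCard j A, ∏ p ∈ T, 1 / (p : ℝ)) = E at hEs1 hG1
  have hEs2 : s ^ j / 2 ≤ (j.factorial : ℝ) * E := by
    refine le_trans ?_ hEs1
    obtain ⟨k, hk⟩ : ∃ k, j = k + 2 := ⟨j - 2, by omega⟩
    have h1 : ((j.choose 2 : ℕ) : ℝ) ≤ (j : ℝ) ^ 2 / 2 := by
      rw [Nat.cast_choose_two]
      nlinarith
    have h1a : (j : ℝ) ^ 2 ≤ (8 * t) ^ 2 := pow_le_pow_left₀ hjpos.le hj8 2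
    have h1b : (3 / 8 * t) ^ 2 ≤ s ^ 2 := pow_le_pow_left₀ (by positivity) hs38 2
    have h2 : ((j.choose 2 : ℕ) : ℝ) * s2 ≤ s ^ 2 / 2 := by
      calc ((j.choose 2 : ℕ) : ℝ) * s2 ≤ ((j : ℝ) ^ 2 / 2) * (1 / 599) := by
            exact mul_le_mul h1 hs2le hs2nn (by positivity)
        _ ≤ ((8 * t) ^ 2 / 2) * (1 / 599) := by linarith
        _ ≤ (3 / 8 * t) ^ 2 / 2 := by
            have h1c := sq_nonneg t
            have h1d : ((8 * t) ^ 2 / 2) * (1 / 599) = 32 / 599 * t ^ 2 := by ring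
            have h1e : (3 / 8 * t) ^ 2 / 2 = 9 / 128 * t ^ 2 := by ring
            rw [h1d, h1e]
            exact mul_le_mul_of_nonneg_right (by norm_num) h1c
        _ ≤ s ^ 2 / 2 := by linarith
    have h4 : s ^ (j - 2) * s ^ 2 = s ^ j := by
      rw [← pow_add]
      congr 1
      omega
    have h5 : ((j.choose 2 : ℕ) : ℝ) * s2 * s ^ (j - 2) ≤ s ^ 2 / 2 * s ^ (j - 2) :=
      mul_le_mul_of_nonneg_right h2 (by positivity)
    have h6 : s ^ 2 / 2 * s ^ (j - 2) = s ^ j / 2 := by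
      rw [← h4]
      ring
    linarith
  refine ⟨j + 1, ?_, ?_⟩
  · push_cast
    have h1 : (b : ℝ) * t = (b : ℝ) / 2 * t + (b : ℝ) / 2 * t := by ring
    linarith
  · have hfpos : (0 : ℝ) < j.factorial := by exact_mod_cast j.factorial_pos
    have hEpos : s ^ j / (2 * j.factorial) ≤ E := by
      rw [div_le_iff₀ (by positivity)]
      linarith
    have h1 : Real.exp (((b : ℝ) / 2 - ε / 4) * t) / 2 ≤ (b : ℝ) ^ j * E := by
      calc Real.exp (((b : ℝ) / 2 - ε / 4) * t) / 2 ≤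
          (((b : ℝ) * s) ^ j / (j.factorial : ℝ)) / 2 := by gcongr
        _ = (b : ℝ) ^ j * (s ^ j / (2 * j.factorial)) := by
            rw [mul_pow]
            field_simp
        _ ≤ (b : ℝ) ^ j * E := by gcongr
    have h2 : c * Z / Real.log Z * ((b : ℝ) ^ j * E) ≤
        (b : ℝ) ^ (j + 1) * ((GS Z (j + 1)).card : ℝ) := by
      calc c * Z / Real.log Z * ((b : ℝ) ^ j * E) =
          (b : ℝ) ^ j * (c * Z / Real.log Z * E) := by ring
        _ ≤ (b : ℝ) ^ j * ((GS Z (j + 1)).card : ℝ) := by gcongr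
        _ ≤ (b : ℝ) ^ (j + 1) * ((GS Z (j + 1)).card : ℝ) := by
            have h3 : (b : ℝ) ^ j ≤ (b : ℝ) ^ (j + 1) :=
              pow_le_pow_right₀ (by linarith) (by omega)
            exact mul_le_mul_of_nonneg_right h3 (Nat.cast_nonneg _)
    refine le_trans ?_ h2
    have h3 : c * Z / Real.log Z * (Real.exp (((b : ℝ) / 2 - ε / 4) * t) / 2) ≤
        c * Z / Real.log Z * ((b : ℝ) ^ j * E) :=
      mul_le_mul_of_nonneg_left h1 (by positivity)
    refine le_trans ?_ h3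
    have h4 : Real.log (Z : ℝ) ^ ((b : ℝ) / 2 - 1 - ε0) ≤
        Real.exp (((b : ℝ) / 2 - 1 - ε) * t) := by
      rw [Real.rpow_def_of_pos hlZ0, hteq]
      apply Real.exp_le_exp.mpr
      rw [mul_comm]
      exact mul_le_mul_of_nonneg_right (by linarith) htpos.le
    have h5 : Real.exp (((b : ℝ) / 2 - 1 - ε) * t) ≤
        c / Real.log Z * (Real.exp (((b : ℝ) / 2 - ε / 4) * t) / 2) := by
      rw [hlZ]
      have h6 : c / Real.exp t * (Real.exp (((b : ℝ) / 2 - ε / 4) * t) / 2) =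
          c / 2 * Real.exp (((b : ℝ) / 2 - 1 - ε) * t) * Real.exp (3 * ε / 4 * t) := by
        have h7 : Real.exp (((b : ℝ) / 2 - ε / 4) * t) =
            Real.exp (((b : ℝ) / 2 - 1 - ε) * t) * Real.exp (3 * ε / 4 * t) * Real.exp t := by
          rw [← Real.exp_add, ← Real.exp_add]
          congr 1
          ring
        rw [h7]
        field_simp
      rw [h6]
      have h8 : 1 ≤ c / 2 * Real.exp (3 * ε / 4 * t) := by
        rw [div_le_iff₀ hc] at hce
        linarith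
      have h9 := Real.exp_pos (((b : ℝ) / 2 - 1 - ε) * t)
      have h10 := mul_le_mul_of_nonneg_right h8 h9.le
      calc Real.exp (((b : ℝ) / 2 - 1 - ε) * t) =
          1 * Real.exp (((b : ℝ) / 2 - 1 - ε) * t) := (one_mul _).symm
        _ ≤ c / 2 * Real.exp (3 * ε / 4 * t) * Real.exp (((b : ℝ) / 2 - 1 - ε) * t) := h10
        _ = _ := by ring
    calc (Z : ℝ) * Real.log (Z : ℝ) ^ ((b : ℝ) / 2 - 1 - ε0) ≤
        Z * (c / Real.log Z * (Real.exp (((b : ℝ) / 2 - ε / 4) * t) / 2)) :=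
          mul_le_mul_of_nonneg_left (h4.trans h5) hZpos.le
      _ = c * Z / Real.log Z * (Real.exp (((b : ℝ) / 2 - ε / 4) * t) / 2) := by ring

end Pool.Agent.Work.MP_81c58b_co.LG
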