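import Pool.Agent.Work.MP_81c58b_co.LG.Stmts

/-!
# MP_81c58b_co, block LG, item Pp: the prime powers which are not prime
-/

set_option autoImplicit false

open Finset

namespace Pool.Agent.Work.MP_81c58b_co.LG

namespace XPp

/-- the terms -/
noncomputable def g (q : ℕ × ℕ) : ℝ := Real.log q.1 / (q.1 : ℝ) ^ q.2

theorem inner (p x : ℕ) (hp : 2 ≤ p) :
    ∑ k ∈ Icc 2 x, g (p, k) ≤ 8 * (Real.log p / (p : ℝ) ^ 2) := by
  have hp2 : (2 : ℝ) ≤ p := by exact_mod_cast hp
  have hl : 0 ≤ Real.log p := Real.log_nonneg (by linarith)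
  have h1 : ∀ k ∈ Icc 2 x, g (p, k) ≤ Real.log p / (p : ℝ) ^ 2 * (4 * (1 / 2 : ℝ) ^ k) := by
    intro k hk
    rw [mem_Icc] at hk
    obtain ⟨j, rfl⟩ := Nat.exists_eq_add_of_le hk.1
    unfold g
    show Real.log p / (p : ℝ) ^ (2 + j) ≤ _
    have h2 : 4 * (1 / 2 : ℝ) ^ (2 + j) = 1 / 2 ^ j := by
      rw [pow_add, one_div_pow, one_div_pow]
      ring
    rw [h2, pow_add, div_mul_div_comm, mul_one]
    refine div_le_div_of_nonneg_left hl (by positivity) ?_
    refine mul_le_mul_of_nonneg_left ?_ (by positivity)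
    exact pow_le_pow_left₀ (by norm_num) hp2 j
  refine (sum_le_sum h1).trans ?_
  rw [← mul_sum, ← mul_sum]
  have h3 : ∑ k ∈ Icc 2 x, (1 / 2 : ℝ) ^ k ≤ 2 := by
    have h5 := Summable.sum_le_tsum (Icc 2 x) (fun k _ => by positivity) summable_geometric_two
    rwa [tsum_geometric_two] at h5
  have h4 : 0 ≤ Real.log p / (p : ℝ) ^ 2 := by positivity
  nlinarith

theorem outer : ∃ C : ℝ, ∀ x : ℕ, ∑ p ∈ Icc 2 x, 8 * (Real.log p / (p : ℝ) ^ 2) ≤ C := by
  have hs : Summable (fun n : ℕ => 16 * (1 / (n : ℝ) ^ (3 / 2 : ℝ))) :=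
    (Real.summable_one_div_nat_rpow.mpr (by norm_num)).mul_left 16
  refine ⟨∑' n : ℕ, 16 * (1 / (n : ℝ) ^ (3 / 2 : ℝ)), fun x => ?_⟩
  refine le_trans (sum_le_sum fun p hp => ?_) (Summable.sum_le_tsum (Icc 2 x)
    (fun _ _ => by positivity) hs)
  rw [mem_Icc] at hp
  have hp0 : (0 : ℝ) < p := by
    have : 0 < p := by omega
    exact_mod_cast this
  have h1 : Real.log p ≤ 2 * Real.sqrt p := by
    have h2 : Real.log p = 2 * Real.log (Real.sqrt p) := by
      rw [Real.log_sqrt hp0.le]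
      ring
    have h3 := Real.log_le_sub_one_of_pos (Real.sqrt_pos.mpr hp0)
    rw [h2]
    linarith
  have h4 : (p : ℝ) ^ (3 / 2 : ℝ) * Real.sqrt p = (p : ℝ) ^ 2 := by
    rw [Real.sqrt_eq_rpow, ← Real.rpow_add hp0, ← Real.rpow_natCast]
    norm_num
  have h5 : 0 < (p : ℝ) ^ (3 / 2 : ℝ) := by positivity
  rw [← h4, mul_div_assoc', mul_one_div, div_le_div_iff₀ (by positivity) h5]
  have h6 : 0 < Real.sqrt p := Real.sqrt_pos.mpr hp0
  nlinarith [mul_le_mul_of_nonneg_right h1 h5.le]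

end XPp

theorem prfPp : StPp := by
  obtain ⟨C, hC⟩ := XPp.outer
  refine ⟨C, fun x => le_trans ?_ (hC x)⟩
  have h0 : ∑ n ∈ (Icc 1 x).filter (fun n => ¬ n.Prime), ArithmeticFunction.vonMangoldt n / n =
      ∑ n ∈ ((Icc 1 x).filter (fun n => ¬ n.Prime)).filter (fun n => IsPrimePow n),
        XPp.g (n.minFac, n.factorization n.minFac) := by
    rw [sum_filter (s := (Icc 1 x).filter (fun n => ¬ n.Prime)) (p := fun n => IsPrimePow n)]
    refine sum_congr rfl fun n _ => ?_
    rw [ArithmeticFunction.vonMangoldt_apply]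
    split_ifs with h
    · unfold XPp.g
      have h1 : ((n.minFac : ℝ)) ^ (n.factorization n.minFac) = (n : ℝ) := by
        exact_mod_cast h.minFac_pow_factorization_eq
      show Real.log (n.minFac : ℝ) / n = Real.log (n.minFac : ℝ) /
        (n.minFac : ℝ) ^ (n.factorization n.minFac)
      rw [h1]
    · simp
  rw [h0]
  set S := ((Icc 1 x).filter (fun n => ¬ n.Prime)).filter (fun n => IsPrimePow n) with hS
  have hinj : Set.InjOn (fun n : ℕ => (n.minFac, n.factorization n.minFac)) (S : Set ℕ) := by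
    intro m hm n hn hmn
    rw [mem_coe, hS, mem_filter] at hm hn
    have h1 : m.minFac = n.minFac := congrArg Prod.fst hmn
    have h2 : m.factorization m.minFac = n.factorization n.minFac := congrArg Prod.snd hmn
    rw [← hm.2.minFac_pow_factorization_eq, ← hn.2.minFac_pow_factorization_eq, h2, h1]
  rw [← sum_image (f := XPp.g) hinj]
  have hsub : S.image (fun n : ℕ => (n.minFac, n.factorization n.minFac)) ⊆
      Icc 2 x ×ˢ Icc 2 x := by
    intro q hq
    rw [mem_image] at hq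
    obtain ⟨n, hn, rfl⟩ := hq
    rw [hS, mem_filter, mem_filter, mem_Icc] at hn
    obtain ⟨⟨⟨hn1, hnx⟩, hnp⟩, hpp⟩ := hn
    have he := hpp.minFac_pow_factorization_eq
    have hn1' : n ≠ 1 := hpp.ne_one
    have hpr : n.minFac.Prime := Nat.minFac_prime hn1'
    have hk0 : n.factorization n.minFac ≠ 0 := by
      intro h
      rw [h, pow_zero] at he
      exact hn1' he.symm
    have hk1 : n.factorization n.minFac ≠ 1 := by
      intro h
      rw [h, pow_one] at he
      rw [← he] at hnp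
      exact hnp hpr
    have h2k : n.factorization n.minFac < n := by
      calc n.factorization n.minFac < 2 ^ n.factorization n.minFac := Nat.lt_two_pow_self
        _ ≤ n.minFac ^ n.factorization n.minFac := Nat.pow_le_pow_left hpr.two_le _
        _ = n := he
    simp only [mem_product, mem_Icc]
    refine ⟨⟨hpr.two_le, (Nat.minFac_le (by omega)).trans hnx⟩, by omega, by omega⟩
  calc ∑ q ∈ S.image (fun n : ℕ => (n.minFac, n.factorization n.minFac)), XPp.g q
      ≤ ∑ q ∈ Icc 2 x ×ˢ Icc 2 x, XPp.g q := by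
        refine sum_le_sum_of_subset_of_nonneg hsub fun q hq _ => ?_
        simp only [mem_product, mem_Icc] at hq
        unfold XPp.g
        have : (1 : ℝ) ≤ q.1 := by
          have : 1 ≤ q.1 := by omega
          exact_mod_cast this
        exact div_nonneg (Real.log_nonneg this) (by positivity)
    _ = ∑ p ∈ Icc 2 x, ∑ k ∈ Icc 2 x, XPp.g (p, k) := sum_product _ _ _
    _ ≤ ∑ p ∈ Icc 2 x, 8 * (Real.log p / (p : ℝ) ^ 2) :=
        sum_le_sum fun p hp => XPp.inner p x (mem_Icc.mp hp).1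

end Pool.Agent.Work.MP_81c58b_co.LG
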