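import Pool.Agent.Work.MP_81c58b_co.LG.Stmts

/-! Item Pr (helper18): Mertens' theorem for the primes `1 mod 4`. -/

set_option autoImplicit false

open Finset

namespace Pool.Agent.Work.MP_81c58b_co.LG

namespace XPr

/-- `Λ n / n` -/
noncomputable def f (n : ℕ) : ℝ := ArithmeticFunction.vonMangoldt n / n

theorem f_nonneg (n : ℕ) : 0 ≤ f n :=
  div_nonneg ArithmeticFunction.vonMangoldt_nonneg (Nat.cast_nonneg n)

theorem f_prime {p : ℕ} (hp : p.Prime) : f p = Real.log p / p := by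
  unfold f
  rw [ArithmeticFunction.vonMangoldt_apply_prime hp]

theorem chi_bd (n : ℕ) : 0 ≤ 1 + chi n ∧ 1 + chi n ≤ 2 := by
  unfold chi
  split_ifs <;> norm_num

open Classical in
theorem point (n : ℕ) :
    2 * (if n.Prime ∧ n % 4 = 1 then f n else 0) =
      f n + chi n * f n - (if ¬ n.Prime then (1 + chi n) * f n else 0) -
        (if n = 2 then f n else 0) := by
  by_cases hp : n.Prime
  · rcases Nat.Prime.eq_two_or_odd hp with h2 | hodd
    · subst h2
      have h1 : chi 2 = 0 := by unfold chi; norm_num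
      rw [if_neg (by norm_num), if_neg (by simpa using hp), if_pos rfl, h1]
      ring
    · have hn2 : n ≠ 2 := by
        rintro rfl
        norm_num at hodd
      rw [if_neg (not_not.2 hp), if_neg hn2]
      by_cases h1 : n % 4 = 1
      · have h3 : chi n = 1 := by unfold chi; rw [if_pos h1]
        rw [if_pos ⟨hp, h1⟩, h3]
        ring
      · have h4 : n % 4 = 3 := by omega
        have h3 : chi n = -1 := by unfold chi; rw [if_neg h1, if_pos h4]
        rw [if_neg (fun h => h1 h.2), h3]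
        ring
  · have hn2 : n ≠ 2 := by
      rintro rfl
      exact hp Nat.prime_two
    rw [if_neg (fun h => hp h.1), if_pos hp, if_neg hn2]
    ring

end XPr

theorem prfPr (hLm : StLm) (hCh : StCh) (hPp : StPp) : StPr := by
  classical
  obtain ⟨C1, h1⟩ := hLm
  obtain ⟨C2, h2⟩ := hCh
  obtain ⟨C3, h3⟩ := hPp
  refine ⟨(C1 + C2 + 2 * C3 + 1) / 2, fun x hx => ?_⟩
  have e0 : ∑ p ∈ P14 0 x, Real.log p / p =
      ∑ n ∈ Icc 1 x, (if n.Prime ∧ n % 4 = 1 then XPr.f n else 0) := by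
    rw [← Finset.sum_filter]
    have e1 : P14 0 x = (Icc 1 x).filter (fun n => n.Prime ∧ n % 4 = 1) := by
      ext n
      unfold P14
      rw [Finset.mem_filter, Finset.mem_filter, Finset.mem_Ioc, Finset.mem_Icc]
      have : 0 < n ↔ 1 ≤ n := Iff.rfl
      rw [this]
    rw [e1]
    refine Finset.sum_congr rfl fun p hp => ?_
    rw [XPr.f_prime (Finset.mem_filter.1 hp).2.1]
  have e2 : 2 * ∑ p ∈ P14 0 x, Real.log p / p =
      ∑ n ∈ Icc 1 x, XPr.f n + ∑ n ∈ Icc 1 x, chi n * XPr.f n -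
        ∑ n ∈ (Icc 1 x).filter (fun n => ¬ n.Prime), (1 + chi n) * XPr.f n -
        ∑ n ∈ Icc 1 x, (if n = 2 then XPr.f n else 0) := by
    rw [e0, Finset.mul_sum, Finset.sum_filter, ← Finset.sum_add_distrib, ← Finset.sum_sub_distrib,
      ← Finset.sum_sub_distrib]
    exact Finset.sum_congr rfl fun n _ => XPr.point n
  have a1 := h1 x hx
  have a2 := h2 x hx
  have a3 := h3 x
  have b1 : ∑ n ∈ Icc 1 x, ArithmeticFunction.vonMangoldt n / (n : ℝ) = ∑ n ∈ Icc 1 x, XPr.f n := rfl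
  have b2 : ∑ n ∈ Icc 1 x, chi n * ArithmeticFunction.vonMangoldt n / (n : ℝ) =
      ∑ n ∈ Icc 1 x, chi n * XPr.f n := by
    refine Finset.sum_congr rfl fun n _ => ?_
    unfold XPr.f
    ring
  have b3 : ∑ n ∈ (Icc 1 x).filter (fun n => ¬ n.Prime), ArithmeticFunction.vonMangoldt n / (n : ℝ) =
      ∑ n ∈ (Icc 1 x).filter (fun n => ¬ n.Prime), XPr.f n := rfl
  rw [b1] at a1
  rw [b2] at a2
  rw [b3] at a3
  have c1 : 0 ≤ ∑ n ∈ (Icc 1 x).filter (fun n => ¬ n.Prime), (1 + chi n) * XPr.f n :=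
    Finset.sum_nonneg fun n _ => mul_nonneg (XPr.chi_bd n).1 (XPr.f_nonneg n)
  have c2 : ∑ n ∈ (Icc 1 x).filter (fun n => ¬ n.Prime), (1 + chi n) * XPr.f n ≤
      2 * ∑ n ∈ (Icc 1 x).filter (fun n => ¬ n.Prime), XPr.f n := by
    rw [Finset.mul_sum]
    exact Finset.sum_le_sum fun n _ => mul_le_mul_of_nonneg_right (XPr.chi_bd n).2 (XPr.f_nonneg n)
  have c3 : 0 ≤ ∑ n ∈ Icc 1 x, (if n = 2 then XPr.f n else 0) :=
    Finset.sum_nonneg fun n _ => by
      split_ifs
      · exact XPr.f_nonneg n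
      · exact le_rfl
  have c4 : ∑ n ∈ Icc 1 x, (if n = 2 then XPr.f n else 0) ≤ 1 := by
    rw [Finset.sum_ite_eq']
    split_ifs
    · rw [XPr.f_prime Nat.prime_two]
      have := Real.log_two_lt_d9
      push_cast
      linarith
    · norm_num
  rw [abs_le] at a1 a2 ⊢
  constructor <;> linarith [a1.1, a1.2, a2.1, a2.2]

end Pool.Agent.Work.MP_81c58b_co.LG
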