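import Pool.Agent.Work.MP_81c58b_co.LG.Stmts

/-! Item Re (helper18): the sum of the reciprocals of the primes `1 mod 4`. -/

set_option autoImplicit false
set_option maxRecDepth 20000

open Finset Filter Topology

namespace Pool.Agent.Work.MP_81c58b_co.LG

namespace XRe

theorem P14_split (a b c : ℕ) (hab : a ≤ b) (hbc : b ≤ c) (f : ℕ → ℝ) :
    ∑ p ∈ P14 a c, f p = ∑ p ∈ P14 a b, f p + ∑ p ∈ P14 b c, f p := by
  unfold P14
  rw [← Finset.sum_union]
  · congr 1
    rw [← Finset.filter_union, Finset.Ioc_union_Ioc_eq_Ioc hab hbc]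
  · refine Finset.disjoint_filter_filter ?_
    rw [Finset.disjoint_left]
    intro x hx hx'
    rw [Finset.mem_Ioc] at hx hx'
    omega

theorem P14_mono (a b c : ℕ) (hbc : b ≤ c) (f : ℕ → ℝ) (hf : ∀ n, 0 ≤ f n) :
    ∑ p ∈ P14 a b, f p ≤ ∑ p ∈ P14 a c, f p := by
  refine Finset.sum_le_sum_of_subset_of_nonneg ?_ fun p _ _ => hf p
  intro p hp
  unfold P14 at *
  rw [Finset.mem_filter, Finset.mem_Ioc] at *
  exact ⟨⟨hp.1.1, hp.1.2.trans hbc⟩, hp.2⟩

/-- one block -/
theorem block (C : ℝ) (hC : ∀ x : ℕ, 1 ≤ x → |∑ p ∈ P14 0 x, Real.log p / p - Real.log x / 2| ≤ C)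
    (B : ℕ) (hB : 2 ≤ B) (k : ℕ) :
    (1 / 2 - 2 * C / Real.log B) / ((k : ℝ) + 1) ≤ ∑ p ∈ P14 (B ^ k) (B ^ (k + 1)), 1 / (p : ℝ) := by
  have hB0 : (1 : ℝ) < B := by exact_mod_cast (by omega : 1 < B)
  have hl : 0 < Real.log B := Real.log_pos hB0
  have hp1 : 1 ≤ B ^ k := Nat.one_le_pow _ _ (by omega)
  have hp2 : B ^ k ≤ B ^ (k + 1) := Nat.pow_le_pow_right (by omega) (by omega)
  have h1 := hC (B ^ k) hp1
  have h2 := hC (B ^ (k + 1)) (hp1.trans hp2)
  rw [P14_split 0 (B ^ k) (B ^ (k + 1)) (Nat.zero_le _) hp2] at h2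
  push_cast at h1 h2
  rw [Real.log_pow] at h1 h2
  rw [abs_le] at h1 h2
  push_cast at h1 h2
  have h3 : Real.log B / 2 - 2 * C ≤ ∑ p ∈ P14 (B ^ k) (B ^ (k + 1)), Real.log p / p := by
    nlinarith [h1.1, h1.2, h2.1, h2.2]
  have h4 : ∑ p ∈ P14 (B ^ k) (B ^ (k + 1)), Real.log p / p ≤
      ((k : ℝ) + 1) * Real.log B * ∑ p ∈ P14 (B ^ k) (B ^ (k + 1)), 1 / (p : ℝ) := by
    rw [Finset.mul_sum]
    refine Finset.sum_le_sum fun p hp => ?_
    unfold P14 at hp
    rw [Finset.mem_filter, Finset.mem_Ioc] at hp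
    have hp0 : (0 : ℝ) < p := by exact_mod_cast (by omega : 0 < p)
    have h5 : Real.log p ≤ ((k : ℝ) + 1) * Real.log B := by
      have h6 : (p : ℝ) ≤ (B : ℝ) ^ (k + 1) := by exact_mod_cast hp.1.2
      have h7 := Real.log_le_log hp0 h6
      rw [Real.log_pow] at h7
      push_cast at h7
      exact h7
    rw [mul_one_div]
    exact div_le_div_of_nonneg_right h5 hp0.le
  have h8 : Real.log B / 2 - 2 * C ≤
      ((k : ℝ) + 1) * Real.log B * ∑ p ∈ P14 (B ^ k) (B ^ (k + 1)), 1 / (p : ℝ) := h3.trans h4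
  have hk : (0 : ℝ) < (k : ℝ) + 1 := by positivity
  rw [div_le_iff₀ hk]
  have h9 : (1 / 2 - 2 * C / Real.log B) * Real.log B = Real.log B / 2 - 2 * C := by
    field_simp
  have h10 : (1 / 2 - 2 * C / Real.log B) * Real.log B ≤
      ((∑ p ∈ P14 (B ^ k) (B ^ (k + 1)), 1 / (p : ℝ)) * ((k : ℝ) + 1)) * Real.log B := by
    rw [h9]
    refine h8.trans (le_of_eq ?_)
    ring
  exact le_of_mul_le_mul_right h10 hl

/-- all blocks -/
theorem blocks (C c : ℝ) (hC : ∀ x : ℕ, 1 ≤ x → |∑ p ∈ P14 0 x, Real.log p / p - Real.log x / 2| ≤ C)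
    (B : ℕ) (hB : 600 ≤ B) (hc : c ≤ 1 / 2 - 2 * C / Real.log B) (K : ℕ) :
    c * ((harmonic (K + 1) : ℚ) - 1 : ℝ) ≤ ∑ p ∈ P14 599 (B ^ (K + 1)), 1 / (p : ℝ) := by
  induction K with
  | zero =>
    have h1 : ((harmonic (0 + 1) : ℚ) : ℝ) = 1 := by
      rw [zero_add, harmonic_succ, harmonic_zero]
      norm_num
    rw [h1, sub_self, mul_zero]
    exact Finset.sum_nonneg fun p _ => by positivity
  | succ K ih =>
    have h1 := block C hC B (le_trans (by norm_num) hB) (K + 1)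
    have hBpos : 0 < B := lt_of_lt_of_le (by norm_num) hB
    have hBK : 599 ≤ B ^ (K + 1) := by
      have e1 : B ^ 1 ≤ B ^ (K + 1) := Nat.pow_le_pow_right hBpos (Nat.le_add_left 1 K)
      rw [pow_one] at e1
      exact le_trans (le_trans (by norm_num) hB) e1
    have hBK2 : B ^ (K + 1) ≤ B ^ (K + 1 + 1) := Nat.pow_le_pow_right hBpos (Nat.le_succ _)
    rw [P14_split 599 (B ^ (K + 1)) (B ^ (K + 1 + 1)) hBK hBK2, harmonic_succ]
    push_cast at h1 ⊢
    have hk : (0 : ℝ) < (K : ℝ) + 1 + 1 := by positivity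
    have h2 : c / ((K : ℝ) + 1 + 1) ≤ (1 / 2 - 2 * C / Real.log B) / ((K : ℝ) + 1 + 1) :=
      div_le_div_of_nonneg_right hc hk.le
    have h3 : c * (((harmonic (K + 1) : ℚ) : ℝ) + ((K : ℝ) + 1 + 1)⁻¹ - 1) =
        c * (((harmonic (K + 1) : ℚ) : ℝ) - 1) + c / ((K : ℝ) + 1 + 1) := by
      rw [div_eq_mul_inv]; ring
    rw [h3]
    exact add_le_add ih (h2.trans h1)

end XRe

theorem prfRe (hPr : StPr) : StRe := by
  obtain ⟨C0, hC0⟩ := hPr
  intro ε hε
  by_cases hε2 : 1 / 2 ≤ ε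
  · refine ⟨3, fun y hy => ?_⟩
    have h1 : 1 < Real.log y := by
      have h3 : (3 : ℝ) ≤ y := by exact_mod_cast hy
      have h4 : Real.log 3 ≤ Real.log y := Real.log_le_log (by norm_num) h3
      have h5 : (1 : ℝ) < Real.log 3 := by
        rw [Real.lt_log_iff_exp_lt (by norm_num)]
        have := Real.exp_one_lt_d9
        linarith
      linarith
    have h2 : 0 < Real.log (Real.log y) := Real.log_pos h1
    have h3 : (1 / 2 - ε) * Real.log (Real.log y) ≤ 0 :=
      mul_nonpos_of_nonpos_of_nonneg (by linarith) h2.le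
    exact h3.trans (Finset.sum_nonneg fun p _ => by positivity)
  · push Not at hε2
    set C : ℝ := max C0 1 with hCdef
    have hC1 : 1 ≤ C := le_max_right _ _
    have hC : ∀ x : ℕ, 1 ≤ x → |∑ p ∈ P14 0 x, Real.log p / p - Real.log x / 2| ≤ C :=
      fun x hx => (hC0 x hx).trans (le_max_left _ _)
    set B : ℕ := ⌈Real.exp (4 * C / ε)⌉₊ + 600 with hB
    have hB600 : 600 ≤ B := Nat.le_add_left _ _
    have hB1 : 1 < B := lt_of_lt_of_le (by norm_num) hB600
    have hBpos : 0 < B := lt_trans Nat.zero_lt_one hB1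
    clear_value B
    have hB0 : (1 : ℝ) < B := by exact_mod_cast hB1
    have hl : 0 < Real.log B := Real.log_pos hB0
    have hlB : 4 * C / ε ≤ Real.log B := by
      rw [Real.le_log_iff_exp_le (by linarith)]
      have h1 := Nat.le_ceil (Real.exp (4 * C / ε))
      have h2 : (B : ℝ) = (⌈Real.exp (4 * C / ε)⌉₊ : ℝ) + 600 := by
        rw [hB]
        push_cast
        ring
      linarith
    have hc : 1 / 2 - ε / 2 ≤ 1 / 2 - 2 * C / Real.log B := by
      have h1 : 2 * C / Real.log B ≤ ε / 2 := by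
        rw [div_le_iff₀ hl]
        rw [div_le_iff₀ hε] at hlB
        linarith
      linarith
    have hc0 : 0 < 1 / 2 - ε / 2 := by linarith
    -- large y
    have hT : Tendsto (fun y : ℕ => Real.log (Real.log (y : ℝ))) atTop atTop :=
      Real.tendsto_log_atTop.comp (Real.tendsto_log_atTop.comp tendsto_natCast_atTop_atTop)
    obtain ⟨y1, hy1⟩ := Filter.eventually_atTop.1 (hT.eventually_ge_atTop
      ((1 / 2 - ε / 2) * (Real.log (Real.log B) + 1) / (ε / 2)))
    refine ⟨max y1 B, fun y hy => ?_⟩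
    have hyB : B ≤ y := le_trans (le_max_right _ _) hy
    have hL := hy1 y (le_trans (le_max_left _ _) hy)
    rw [div_le_iff₀ (by linarith)] at hL
    set K : ℕ := Nat.log B y with hK
    have hK1 : 1 ≤ K := by
      rw [hK]
      exact Nat.log_pos hB1 hyB
    obtain ⟨K', hK'⟩ : ∃ K', K = K' + 1 := ⟨K - 1, (Nat.sub_add_cancel hK1).symm⟩
    have hpow : B ^ (K' + 1) ≤ y := by
      rw [← hK', hK]
      exact Nat.pow_log_le_self B (lt_of_lt_of_le hBpos hyB).ne'
    have hlt : y < B ^ (K' + 1 + 1) := by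
      have := Nat.lt_pow_succ_log_self hB1 y
      rw [← hK, hK'] at this
      exact this
    have h1 := XRe.blocks C (1 / 2 - ε / 2) hC B hB600 hc K'
    have h2 := XRe.P14_mono 599 (B ^ (K' + 1)) y hpow (fun p => 1 / (p : ℝ)) (fun n => by positivity)
    have h3 : Real.log ((K' : ℝ) + 1 + 1) ≤ ((harmonic (K' + 1) : ℚ) : ℝ) := by
      have := log_add_one_le_harmonic (K' + 1)
      push_cast at this
      exact this
    have hy0 : (0 : ℝ) < y := by exact_mod_cast (lt_of_lt_of_le hBpos hyB)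
    have h4 : Real.log y ≤ ((K' : ℝ) + 1 + 1) * Real.log B := by
      have h5 : (y : ℝ) ≤ (B : ℝ) ^ (K' + 1 + 1) := by exact_mod_cast hlt.le
      have h6 := Real.log_le_log hy0 h5
      rw [Real.log_pow] at h6
      push_cast at h6
      exact h6
    have hly : 0 < Real.log y := Real.log_pos (by exact_mod_cast (lt_of_lt_of_le hB1 hyB))
    have h7 : Real.log (Real.log y) ≤ Real.log ((K' : ℝ) + 1 + 1) + Real.log (Real.log B) := by
      rw [← Real.log_mul (by positivity) hl.ne']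
      exact Real.log_le_log hly h4
    have h8 : (1 / 2 - ε / 2) * (Real.log (Real.log y) - Real.log (Real.log B) - 1) ≤
        (1 / 2 - ε / 2) * (((harmonic (K' + 1) : ℚ) : ℝ) - 1) :=
      mul_le_mul_of_nonneg_left (by linarith) hc0.le
    have h9 := h8.trans (h1.trans h2)
    refine le_trans ?_ h9
    nlinarith

end Pool.Agent.Work.MP_81c58b_co.LG
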