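import Pool.Agent.Work.MP_81c58b_co.LG.Stmts

/-! Item St (helper18): an elementary estimate. -/

set_option autoImplicit false

open Finset

namespace Pool.Agent.Work.MP_81c58b_co.LG

namespace XSt

/-- upper Stirling bound in logarithmic form -/
theorem fac (j : ℕ) (hj : 1 ≤ j) :
    Real.log (j.factorial : ℝ) ≤ 1 + Real.log j + j * (Real.log j - 1) := by
  induction j, hj using Nat.le_induction with
  | base => simp
  | succ j hj ih =>
    have hj0 : (0 : ℝ) < j := by exact_mod_cast hj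
    have hj1 : (0 : ℝ) < (j : ℝ) + 1 := by linarith
    have h1 : Real.log ((j + 1).factorial : ℝ) = Real.log ((j : ℝ) + 1) + Real.log (j.factorial : ℝ) := by
      rw [Nat.factorial_succ]
      push_cast
      rw [Real.log_mul hj1.ne' (by positivity)]
    have h2 : 1 / ((j : ℝ) + 1) ≤ Real.log ((j : ℝ) + 1) - Real.log j := by
      rw [← Real.log_div hj1.ne' hj0.ne']
      have h3 := Real.one_sub_inv_le_log_of_pos (div_pos hj1 hj0)
      refine le_trans (le_of_eq ?_) h3
      field_simp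
      ring
    have h4 : 1 ≤ ((j : ℝ) + 1) * (Real.log ((j : ℝ) + 1) - Real.log j) := by
      have h5 := mul_le_mul_of_nonneg_left h2 hj1.le
      rwa [mul_one_div, div_self hj1.ne'] at h5
    rw [h1]
    push_cast
    nlinarith

end XSt

theorem prfSt : StSt := by
  intro b hb ε hε
  have hb0 : (2 : ℝ) ≤ b := by exact_mod_cast hb
  have hbpos : (0 : ℝ) < b := by linarith
  set η : ℝ := min (1 / 8) (ε / (4 * b)) with hη
  have hη0 : 0 < η := lt_min (by norm_num) (by positivity)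
  have hη1 : η ≤ 1 / 8 := min_le_left _ _
  have hη2 : η * b ≤ ε / 4 := by
    have h1 : η ≤ ε / (4 * b) := min_le_right _ _
    have h2 := mul_le_mul_of_nonneg_right h1 hbpos.le
    refine h2.trans (le_of_eq ?_)
    field_simp
  set δ : ℝ := ε / (2 * b) with hδ
  have hδ0 : 0 < δ := by positivity
  refine ⟨η, hη0, max 2 (4 * (2 + |Real.log δ|) / ε), fun t s ht hs => ?_⟩
  have ht2 : 2 ≤ t := le_trans (le_max_left _ _) ht
  have ht3 : 4 * (2 + |Real.log δ|) / ε ≤ t := le_trans (le_max_right _ _) ht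
  have ht4 : 2 + |Real.log δ| ≤ ε * t / 4 := by
    rw [div_le_iff₀ hε] at ht3
    linarith
  set j : ℕ := ⌊(b : ℝ) / 2 * t⌋₊ with hj
  have hx0 : (0 : ℝ) ≤ (b : ℝ) / 2 * t := by positivity
  have hjle : (j : ℝ) ≤ (b : ℝ) / 2 * t := Nat.floor_le hx0
  have hjge : (b : ℝ) / 2 * t - 1 < j := by
    have := Nat.lt_floor_add_one ((b : ℝ) / 2 * t)
    rw [← hj] at this
    linarith
  have hj1 : (1 : ℝ) ≤ j := by
    have h1 : (2 : ℝ) ≤ (b : ℝ) / 2 * t := by nlinarith
    have h2 : (1 : ℝ) < j := by linarith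
    exact h2.le
  have hjn : 1 ≤ j := by exact_mod_cast hj1
  have hj0 : (0 : ℝ) < j := by linarith
  have hc0 : 0 < 1 - 2 * η := by linarith
  have hus : (1 - 2 * η) * j ≤ (b : ℝ) * s := by
    have h1 : (1 - 2 * η) * j ≤ (1 - 2 * η) * ((b : ℝ) / 2 * t) :=
      mul_le_mul_of_nonneg_left hjle hc0.le
    have h2 : (b : ℝ) * ((1 / 2 - η) * t) ≤ (b : ℝ) * s := mul_le_mul_of_nonneg_left hs hbpos.le
    refine h1.trans (le_trans (le_of_eq ?_) h2)
    ring
  have hu0 : 0 < (b : ℝ) * s := lt_of_lt_of_le (mul_pos hc0 hj0) hus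
  have hfac0 : (0 : ℝ) < (j.factorial : ℝ) := by positivity
  rw [← Real.exp_log (div_pos (pow_pos hu0 j) hfac0), Real.exp_le_exp,
    Real.log_div (pow_pos hu0 j).ne' hfac0.ne', Real.log_pow]
  have h1 : Real.log (1 - 2 * η) + Real.log j ≤ Real.log ((b : ℝ) * s) := by
    rw [← Real.log_mul hc0.ne' hj0.ne']
    exact Real.log_le_log (mul_pos hc0 hj0) hus
  have h2 : -4 * η ≤ Real.log (1 - 2 * η) := by
    have h3 := Real.one_sub_inv_le_log_of_pos hc0
    refine le_trans ?_ h3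
    have h4 : (1 - 2 * η)⁻¹ ≤ 1 + 4 * η := by
      rw [inv_le_comm₀ hc0 (by linarith), ← one_div, div_le_iff₀ (by linarith)]
      nlinarith
    linarith
  have h5 := XSt.fac j hjn
  have h6 : Real.log j ≤ ε / 4 * t - Real.log δ := by
    have h7 : Real.log (δ * j) ≤ δ * j - 1 := Real.log_le_sub_one_of_pos (mul_pos hδ0 hj0)
    rw [Real.log_mul hδ0.ne' hj0.ne'] at h7
    have h8 : δ * j ≤ δ * ((b : ℝ) / 2 * t) := mul_le_mul_of_nonneg_left hjle hδ0.le
    have h9 : δ * ((b : ℝ) / 2 * t) = ε / 4 * t := by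
      rw [hδ]
      field_simp
      ring
    linarith
  have h10 : (j : ℝ) * (Real.log (1 - 2 * η) + Real.log j) ≤ (j : ℝ) * Real.log ((b : ℝ) * s) :=
    mul_le_mul_of_nonneg_left h1 hj0.le
  have h11 : (j : ℝ) * (-4 * η) ≤ (j : ℝ) * Real.log (1 - 2 * η) :=
    mul_le_mul_of_nonneg_left h2 hj0.le
  have h12 : (j : ℝ) * (4 * η) ≤ ε / 2 * t := by
    calc (j : ℝ) * (4 * η) ≤ ((b : ℝ) / 2 * t) * (4 * η) :=
          mul_le_mul_of_nonneg_right hjle (by positivity)
      _ = 2 * (η * b) * t := by ring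
      _ ≤ 2 * (ε / 4) * t := by
          refine mul_le_mul_of_nonneg_right ?_ (by linarith)
          linarith
      _ = ε / 2 * t := by ring
  have h13 : -Real.log δ ≤ |Real.log δ| := neg_le_abs _
  have h14 : ε * t / 4 ≥ 2 + |Real.log δ| := ht4
  nlinarith

end Pool.Agent.Work.MP_81c58b_co.LG
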