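import Pool.Agent.Work.MP_81c58b_co.LG.I_Ab
import Pool.Agent.Work.MP_81c58b_co.LG.I_Ll
import Pool.Agent.Work.MP_81c58b_co.LG.I_Lg
import Pool.Agent.Work.MP_81c58b_co.LG.I_Lm
import Pool.Agent.Work.MP_81c58b_co.LG.I_Ch
import Pool.Agent.Work.MP_81c58b_co.LG.I_Pp
import Pool.Agent.Work.MP_81c58b_co.LG.I_Pr
import Pool.Agent.Work.MP_81c58b_co.LG.I_Ct
import Pool.Agent.Work.MP_81c58b_co.LG.I_Re
import Pool.Agent.Work.MP_81c58b_co.LG.I_Es
import Pool.Agent.Work.MP_81c58b_co.LG.I_Gs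
import Pool.Agent.Work.MP_81c58b_co.LG.I_St
import Pool.Agent.Work.MP_81c58b_co.LG.I_Lv

/-!
# Block LG: assembly of the number theory
-/

set_option autoImplicit false

namespace Pool.Agent.Work.MP_81c58b_co.LG

theorem all_Pr : StPr := prfPr prfLm (prfCh (prfLl prfAb) (prfLg prfAb)) prfPp

theorem all_Lv : StLv := prfLv (prfRe all_Pr) prfEs (prfGs (prfCt all_Pr)) prfSt

end Pool.Agent.Work.MP_81c58b_co.LG
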