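import Mathlib

/-!
# MP_81c58b_co, block LG: the power of the logarithm in the bound for tangencies

Paper proof: team note 4785.
-/

set_option autoImplicit false

open Finset

namespace Pool.Agent.Work.MP_81c58b_co.LG

/-- A disc of the plane, given by its centre `(x, y)` and its radius `r`
(only used with `0 ≤ r`; a disc of radius `0` is a point). -/
@[ext] structure Disc where
  x : ℝ
  y : ℝ
  r : ℝ

/-- The boundary circle of a disc. -/
def Disc.circle (D : Disc) : Set (ℝ × ℝ) :=
  {p | (p.1 - D.x) ^ 2 + (p.2 - D.y) ^ 2 = D.r ^ 2}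

/-- Two discs touch if their boundary circles have exactly one point in common. -/
def Touch (D E : Disc) : Prop := ∃! p : ℝ × ℝ, p ∈ D.circle ∩ E.circle

/-- The number of touching red-blue pairs. -/
noncomputable def touching (R B : Finset Disc) : ℕ :=
  {P : Disc × Disc | P.1 ∈ R ∧ P.2 ∈ B ∧ Touch P.1 P.2}.ncard

/-- No three different discs of `S` touch pairwise in one common point. -/
def NoTriple (S : Set Disc) : Prop :=
  ∀ D ∈ S, ∀ E ∈ S, ∀ F ∈ S, D ≠ E → D ≠ F → E ≠ F → Touch D E → Touch D F → Touch E F →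
    D.circle ∩ E.circle ∩ F.circle = ∅

/-- squarefree, all prime factors are `1 mod 4` -/
def Good (M : ℕ) : Prop := Squarefree M ∧ ∀ p : ℕ, p.Prime → p ∣ M → p % 4 = 1

open Classical in
/-- the good numbers `1 ≤ M ≤ Z` with exactly `i` prime factors -/
noncomputable def GS (Z i : ℕ) : Finset ℕ :=
  (Icc 1 Z).filter (fun M => Good M ∧ M.primeFactors.card = i)

/-- the character mod 4 with real values -/
noncomputable def chi (n : ℕ) : ℝ := if n % 4 = 1 then 1 else if n % 4 = 3 then -1 else 0

/-- the primes `1 mod 4` in `(a, x]` -/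
def P14 (a x : ℕ) : Finset ℕ := (Ioc a x).filter (fun p => p.Prime ∧ p % 4 = 1)

/-- the circle with centre `(b, c) / a` and radius `√M / a` -/
noncomputable def mk (a M : ℕ) (b c : ℤ) : Disc := ⟨(b : ℝ) / a, (c : ℝ) / a, Real.sqrt M / a⟩

/-- the point `(x, y)` -/
def pt (x y : ℤ) : Disc := ⟨x, y, 0⟩

end Pool.Agent.Work.MP_81c58b_co.LG
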