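import Pool.Agent.Work.MP_81c58b_co.LG.Stmts

/-!
# MP_81c58b_co, block LG, item Ab: sums with the character mod 4 and decreasing weights
-/

set_option autoImplicit false

open Finset

namespace Pool.Agent.Work.MP_81c58b_co.LG

namespace XAb

theorem split (g : ℕ → ℝ) (x k : ℕ) :
    ∑ m ∈ Ioc x (x + (k + 1)), g m = g (x + 1) + ∑ m ∈ Ioc (x + 1) (x + 1 + k), g m := by
  have h : Ioc x (x + (k + 1)) = insert (x + 1) (Ioc (x + 1) (x + 1 + k)) := by
    ext m
    simp only [mem_Ioc, mem_insert]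
    omega
  rw [h, sum_insert (by simp)]

theorem key (f : ℕ → ℝ) (k : ℕ) : ∀ x : ℕ, (∀ n : ℕ, x < n → 0 ≤ f n ∧ f (n + 1) ≤ f n) →
    ((x % 4 = 0 ∨ x % 4 = 3) → 0 ≤ ∑ m ∈ Ioc x (x + k), chi m * f m ∧
      ∑ m ∈ Ioc x (x + k), chi m * f m ≤ f (x + 1)) ∧
    ((x % 4 = 1 ∨ x % 4 = 2) → -f (x + 1) ≤ ∑ m ∈ Ioc x (x + k), chi m * f m ∧
      ∑ m ∈ Ioc x (x + k), chi m * f m ≤ 0) := by
  induction k with
  | zero =>
    intro x hf
    have h1 := (hf (x + 1) (by omega)).1
    simp only [Nat.add_zero, Ioc_self, sum_empty]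
    constructor
    · intro _
      exact ⟨le_rfl, h1⟩
    · intro _
      exact ⟨by linarith, le_rfl⟩
  | succ k ih =>
    intro x hf
    obtain ⟨i1, i2⟩ := ih (x + 1) (fun n hn => hf n (by omega))
    have h1 := hf (x + 1) (by omega)
    rw [split (fun m => chi m * f m)]
    set S := ∑ m ∈ Ioc (x + 1) (x + 1 + k), chi m * f m with hS
    constructor
    · rintro (h | h)
      · have hc : chi (x + 1) = 1 := by
          unfold chi
          rw [if_pos (by omega)]
        obtain ⟨a, b⟩ := i2 (Or.inl (by omega))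
        rw [hc]
        constructor <;> linarith [h1.2]
      · have hc : chi (x + 1) = 0 := by
          unfold chi
          rw [if_neg (by omega), if_neg (by omega)]
        obtain ⟨a, b⟩ := i1 (Or.inl (by omega))
        rw [hc]
        constructor <;> linarith [h1.2]
    · rintro (h | h)
      · have hc : chi (x + 1) = 0 := by
          unfold chi
          rw [if_neg (by omega), if_neg (by omega)]
        obtain ⟨a, b⟩ := i2 (Or.inr (by omega))
        rw [hc]
        constructor <;> linarith [h1.2]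
      · have hc : chi (x + 1) = -1 := by
          unfold chi
          rw [if_neg (by omega), if_pos (by omega)]
        obtain ⟨a, b⟩ := i1 (Or.inr (by omega))
        rw [hc]
        constructor <;> linarith [h1.2]

end XAb

theorem prfAb : StAb := by
  intro f x y hf
  have h0 := (hf (x + 1) (by omega)).1
  rcases le_or_gt y x with h | h
  · rw [Ioc_eq_empty_of_le h, sum_empty, abs_zero]
    exact h0
  · obtain ⟨k, rfl⟩ := Nat.exists_eq_add_of_lt h
    rw [show x + k + 1 = x + (k + 1) by ring]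
    obtain ⟨i1, i2⟩ := XAb.key f (k + 1) x hf
    rw [abs_le]
    have h4 : x % 4 = 0 ∨ x % 4 = 1 ∨ x % 4 = 2 ∨ x % 4 = 3 := by omega
    rcases h4 with h4 | h4 | h4 | h4
    · obtain ⟨a, b⟩ := i1 (Or.inl h4)
      exact ⟨by linarith, b⟩
    · obtain ⟨a, b⟩ := i2 (Or.inl h4)
      exact ⟨a, by linarith⟩
    · obtain ⟨a, b⟩ := i2 (Or.inr h4)
      exact ⟨a, by linarith⟩
    · obtain ⟨a, b⟩ := i1 (Or.inr h4)
      exact ⟨by linarith, b⟩

end Pool.Agent.Work.MP_81c58b_co.LG
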