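import Pool.Agent.Work.MP_81c58b_co.LG.Stmts

/-!
# Block LG, item Gs (helper55): many good numbers with `j + 1` prime factors
-/

set_option autoImplicit false

open Finset

namespace Pool.Agent.Work.MP_81c58b_co.LG

namespace XGs

lemma mem_P14 {a x p : ℕ} : p ∈ P14 a x ↔ (a < p ∧ p ≤ x) ∧ p.Prime ∧ p % 4 = 1 := by
  unfold P14
  rw [mem_filter, mem_Ioc]

lemma mem_GS {Z i M : ℕ} :
    M ∈ GS Z i ↔ (1 ≤ M ∧ M ≤ Z) ∧ Good M ∧ M.primeFactors.card = i := by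
  classical
  unfold GS
  rw [mem_filter, mem_Icc]

lemma sqf (S : Finset ℕ) (hS : ∀ p ∈ S, p.Prime) : Squarefree (∏ p ∈ S, p) := by
  induction S using Finset.induction_on with
  | empty => simp
  | insert p S hp ih =>
    rw [prod_insert hp]
    have h1 : p.Prime := hS p (mem_insert_self _ _)
    have h2 : ∀ q ∈ S, q.Prime := fun q hq => hS q (mem_insert_of_mem hq)
    have h3 : Nat.Coprime p (∏ q ∈ S, q) := by
      refine Nat.Coprime.prod_right fun q hq => ?_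
      exact (Nat.coprime_primes h1 (h2 q hq)).2 fun h => hp (h ▸ hq)
    exact (Nat.squarefree_mul h3).2 ⟨h1.squarefree, ih h2⟩

/-- products of different primes 1 mod 4 -/
lemma good_prod (S : Finset ℕ) (hS : ∀ p ∈ S, p.Prime ∧ p % 4 = 1) :
    Good (∏ p ∈ S, p) ∧ (∏ p ∈ S, p).primeFactors = S := by
  have h1 : (∏ p ∈ S, p).primeFactors = S := Nat.primeFactors_prod fun p hp => (hS p hp).1
  refine ⟨⟨sqf S fun p hp => (hS p hp).1, ?_⟩, h1⟩
  intro p hp hpd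
  have hne : ∏ p ∈ S, p ≠ 0 := prod_ne_zero_iff.2 fun p hp => (hS p hp).1.ne_zero
  have h2 : p ∈ (∏ p ∈ S, p).primeFactors := Nat.mem_primeFactors.2 ⟨hp, hpd, hne⟩
  rw [h1] at h2
  exact (hS p h2).2

lemma arith (Z m y D x0 : ℕ) (hm : 1 ≤ m) (hmm : m ^ 2 ≤ Z) (hy : y ^ 4 ≤ Z) (hD : 1 ≤ D)
    (hZ : x0 ^ 2 + D ^ 4 + 9 ≤ Z) :
    x0 ≤ Z / m ∧ 3 ≤ Z / m ∧ Z ≤ 2 * (Z / m) * m ∧ ∀ q, Z / m / D < q → y < q := by
  obtain ⟨u, hu⟩ : ∃ u, u = Z / m := ⟨_, rfl⟩
  rw [← hu]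
  have h1 : m ≤ u := by
    rw [hu, Nat.le_div_iff_mul_le hm]
    nlinarith
  have h2 : Z < (u + 1) * m := by
    rw [← Nat.div_lt_iff_lt_mul hm, ← hu]
    exact Nat.lt_succ_self u
  have h3 : Z < (u + 1) ^ 2 := by nlinarith
  refine ⟨?_, ?_, by nlinarith, ?_⟩
  · by_contra h
    push Not at h
    have : (u + 1) ^ 2 ≤ x0 ^ 2 := Nat.pow_le_pow_left h 2
    omega
  · by_contra h
    push Not at h
    have : (u + 1) ^ 2 ≤ 3 ^ 2 := Nat.pow_le_pow_left h 2
    omega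
  · intro q hq
    by_contra hqy
    push Not at hqy
    have h4 : u < q * D := (Nat.div_lt_iff_lt_mul hD).1 hq
    have h6 : Z < (q * D) ^ 2 := lt_of_lt_of_le h3 (Nat.pow_le_pow_left h4 2)
    have h7 : q ^ 4 ≤ Z := (Nat.pow_le_pow_left hqy 4).trans hy
    have h8 : Z * Z < (q * D) ^ 2 * (q * D) ^ 2 := Nat.mul_lt_mul'' h6 h6
    have h9 : q ^ 4 * D ^ 4 ≤ Z * Z := Nat.mul_le_mul h7 (by omega)
    have h10 : (q * D) ^ 2 * (q * D) ^ 2 = q ^ 4 * D ^ 4 := by ring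
    omega

/-- the bound for one set -/
lemma bound (Z u m D : ℕ) (hm : 1 ≤ m) (hD : 1 ≤ D) (hu3 : 3 ≤ u) (huZ : u ≤ Z)
    (h : Z ≤ 2 * u * m) :
    1 / (2 * (D : ℝ)) * Z / Real.log Z * (1 / (m : ℝ)) ≤ (u : ℝ) / (D * Real.log u) := by
  have hu : (3 : ℝ) ≤ u := by exact_mod_cast hu3
  have hm0 : (0 : ℝ) < m := by exact_mod_cast hm
  have hD0 : (0 : ℝ) < D := by exact_mod_cast hD
  have hlu : 0 < Real.log u := Real.log_pos (by linarith)
  have huZ' : (u : ℝ) ≤ Z := by exact_mod_cast huZ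
  have hlZ : Real.log u ≤ Real.log Z := Real.log_le_log (by linarith) huZ'
  have hlZ0 : 0 < Real.log Z := by linarith
  have h' : (Z : ℝ) ≤ 2 * u * m := by exact_mod_cast h
  have e1 : 1 / (2 * (D : ℝ)) * Z / Real.log Z * (1 / (m : ℝ)) =
      (Z / (2 * m)) / (D * Real.log Z) := by field_simp
  have e2 : (Z : ℝ) / (2 * m) ≤ u := by
    rw [div_le_iff₀ (by positivity)]
    linarith
  rw [e1]
  calc (Z / (2 * m) : ℝ) / (D * Real.log Z) ≤ u / (D * Real.log Z) := by gcongr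
    _ ≤ u / (D * Real.log u) := by gcongr

end XGs

open XGs

theorem prfGs : StCt → StGs := by
  rintro ⟨D, x0, hD, hCt⟩
  have hD0 : (0 : ℝ) < D := by exact_mod_cast hD
  refine ⟨1 / (2 * (D : ℝ)), by positivity, x0 ^ 2 + D ^ 4 + 9, ?_⟩
  intro Z hZ j y hj hy
  -- the facts for one set
  have hT : ∀ T ∈ powersetCard j (P14 599 y),
      1 ≤ ∏ p ∈ T, p ∧ (∏ p ∈ T, p) ^ 2 ≤ Z ∧ y ^ 4 ≤ Z := by
    intro T hT
    rw [mem_powersetCard] at hT
    have hTne : T.Nonempty := by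
      rw [← card_pos]
      omega
    obtain ⟨p, hp⟩ := hTne
    have hy1 : 1 ≤ y := by
      have := (mem_P14.1 (hT.1 hp)).1
      omega
    refine ⟨?_, ?_, ?_⟩
    · exact Nat.one_le_iff_ne_zero.2
        (prod_ne_zero_iff.2 fun p hp => (mem_P14.1 (hT.1 hp)).2.1.ne_zero)
    · have h1 : ∏ p ∈ T, p ≤ y ^ j := by
        have := prod_le_pow_card T (fun p => p) y fun p hp => (mem_P14.1 (hT.1 hp)).1.2
        rwa [hT.2] at this
      calc (∏ p ∈ T, p) ^ 2 ≤ (y ^ j) ^ 2 := Nat.pow_le_pow_left h1 2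
        _ = y ^ (2 * j) := by rw [← pow_mul, Nat.mul_comm]
        _ ≤ Z := hy
    · exact (Nat.pow_le_pow_right hy1 (by omega)).trans hy
  have hA : ∀ T ∈ powersetCard j (P14 599 y), _ := fun T h =>
    arith Z (∏ p ∈ T, p) y D x0 (hT T h).1 (hT T h).2.1 (hT T h).2.2 hD hZ
  -- the injection
  have hcard : ∑ T ∈ powersetCard j (P14 599 y),
      (P14 (Z / (∏ p ∈ T, p) / D) (Z / (∏ p ∈ T, p))).card ≤ (GS Z (j + 1)).card := by
    rw [← card_sigma]
    have key : ∀ z ∈ (powersetCard j (P14 599 y)).sigma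
        (fun T => P14 (Z / (∏ p ∈ T, p) / D) (Z / (∏ p ∈ T, p))),
        z.2 ∉ z.1 ∧ (∀ p ∈ z.1, p ≤ y) ∧ y < z.2 ∧
        z.2 * ∏ p ∈ z.1, p = ∏ p ∈ insert z.2 z.1, p ∧
        (∀ p ∈ insert z.2 z.1, p.Prime ∧ p % 4 = 1) ∧ z.2 * ∏ p ∈ z.1, p ≤ Z ∧
        (insert z.2 z.1).card = j + 1 := by
      rintro ⟨T, q⟩ hz
      rw [mem_sigma] at hz
      obtain ⟨h1, h2⟩ := hz
      change q ∈ P14 (Z / (∏ p ∈ T, p) / D) (Z / (∏ p ∈ T, p)) at h2
      change T ∈ powersetCard j (P14 599 y) at h1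
      have h3 := (hA T h1).2.2.2 q (mem_P14.1 h2).1.1
      have h4 : ∀ p ∈ T, p ≤ y := fun p hp => (mem_P14.1 ((mem_powersetCard.1 h1).1 hp)).1.2
      have h5 : q ∉ T := fun h => by
        have := h4 q h
        omega
      refine ⟨h5, h4, h3, (prod_insert (f := fun p : ℕ => p) h5).symm, ?_, ?_, ?_⟩
      · intro p hp
        rw [mem_insert] at hp
        rcases hp with rfl | hp
        · exact (mem_P14.1 h2).2
        · exact (mem_P14.1 ((mem_powersetCard.1 h1).1 hp)).2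
      · exact (Nat.le_div_iff_mul_le (hT T h1).1).1 (mem_P14.1 h2).1.2
      · change (insert q T).card = j + 1
        rw [card_insert_of_notMem h5, (mem_powersetCard.1 h1).2]
    refine card_le_card_of_injOn (fun z : (_ : Finset ℕ) × ℕ => z.2 * ∏ p ∈ z.1, p) ?_ ?_
    · intro z hz
      obtain ⟨-, -, -, h4, h5, h6, h7⟩ := key z hz
      obtain ⟨g1, g2⟩ := good_prod _ h5
      rw [← h4] at g1 g2
      change z.2 * ∏ p ∈ z.1, p ∈ (GS Z (j + 1) : Set ℕ)
      rw [mem_coe, mem_GS]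
      refine ⟨⟨?_, h6⟩, g1, by rw [g2, h7]⟩
      exact Nat.one_le_iff_ne_zero.2 g1.1.ne_zero
    · intro z hz w hw hzw
      obtain ⟨a1, a2, a3, a4, a5, a6, a7⟩ := key z hz
      obtain ⟨b1, b2, b3, b4, b5, b6, b7⟩ := key w hw
      have e : insert z.2 z.1 = insert w.2 w.1 := by
        rw [← (good_prod _ a5).2, ← (good_prod _ b5).2, ← a4, ← b4]
        exact congrArg Nat.primeFactors hzw
      have e2 : z.2 = w.2 := by
        have h : z.2 ∈ insert w.2 w.1 := by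
          rw [← e]
          exact mem_insert_self _ _
        rw [mem_insert] at h
        rcases h with h | h
        · exact h
        · have := b2 _ h
          omega
      have e1 : z.1 = w.1 := by
        rw [← erase_insert a1, ← erase_insert b1, e, e2]
      obtain ⟨T, q⟩ := z
      obtain ⟨T', q'⟩ := w
      change T = T' at e1
      change q = q' at e2
      subst e1 e2
      rfl
  -- the sum
  have hsum : 1 / (2 * (D : ℝ)) * Z / Real.log Z *
      ∑ T ∈ powersetCard j (P14 599 y), ∏ p ∈ T, 1 / (p : ℝ) ≤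
      ∑ T ∈ powersetCard j (P14 599 y),
        ((P14 (Z / (∏ p ∈ T, p) / D) (Z / (∏ p ∈ T, p))).card : ℝ) := by
    rw [mul_sum]
    refine sum_le_sum fun T h => ?_
    obtain ⟨h1, h2, h3, -⟩ := hA T h
    have e1 : ∏ p ∈ T, 1 / (p : ℝ) = 1 / ((∏ p ∈ T, p : ℕ) : ℝ) := by
      rw [prod_div_distrib, prod_const_one]
      push_cast
      rfl
    rw [e1]
    exact (bound Z _ _ D (hT T h).1 hD h2 (Nat.div_le_self _ _) h3).trans (hCt _ h1)
  refine hsum.trans ?_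
  exact_mod_cast hcard

end Pool.Agent.Work.MP_81c58b_co.LG
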