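import Pool.Agent.Work.MP_81c58b_co.LG.Stmts

/-!
# Block LG, item Pl: the point of tangency is on the line of centres
-/

set_option autoImplicit false

open Finset

namespace Pool.Agent.Work.MP_81c58b_co.LG

/-- item Pl -/
theorem prfPl : StPl := by
  intro D E p hD hE hDE hT hpD hpE
  obtain ⟨z, -, hz⟩ := hT
  have hp : p = z := hz p ⟨hpD, hpE⟩
  have kD : (p.1 - D.x) ^ 2 + (p.2 - D.y) ^ 2 = D.r ^ 2 := hpD
  have kE : (p.1 - E.x) ^ 2 + (p.2 - E.y) ^ 2 = E.r ^ 2 := hpE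
  set d1 : ℝ := E.x - D.x with hd1
  set d2 : ℝ := E.y - D.y with hd2
  have hd : 0 < d1 ^ 2 + d2 ^ 2 := by
    by_contra h
    have h1 : d1 = 0 := by nlinarith [sq_nonneg d1, sq_nonneg d2]
    have h2 : d2 = 0 := by nlinarith [sq_nonneg d1, sq_nonneg d2]
    apply hDE
    have e1 : E.x = D.x := by linarith
    have e2 : E.y = D.y := by linarith
    rw [e1, e2, kD] at kE
    have e3 : D.r = E.r := by
      have := abs_eq_abs.2 (sq_eq_sq_iff_eq_or_eq_neg.1 kE)
      rwa [abs_of_pos hD, abs_of_pos hE] at this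
    exact Disc.ext e1.symm e2.symm e3
  set s : ℝ := ((p.1 - D.x) * (-d2) + (p.2 - D.y) * d1) / (d1 ^ 2 + d2 ^ 2) with hs
  have hs' : s * (d1 ^ 2 + d2 ^ 2) = (p.1 - D.x) * (-d2) + (p.2 - D.y) * d1 := by
    rw [hs]; field_simp
  set q : ℝ × ℝ := (p.1 + 2 * s * d2, p.2 - 2 * s * d1) with hq
  have hqD : q ∈ D.circle := by
    show (q.1 - D.x) ^ 2 + (q.2 - D.y) ^ 2 = D.r ^ 2
    rw [← kD, hq]
    simp only
    linear_combination (4 * s) * hs'
  have hqE : q ∈ E.circle := by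
    show (q.1 - E.x) ^ 2 + (q.2 - E.y) ^ 2 = E.r ^ 2
    rw [← kE, hq]
    simp only
    have e1 : E.x = D.x + d1 := by rw [hd1]; ring
    have e2 : E.y = D.y + d2 := by rw [hd2]; ring
    rw [e1, e2]
    linear_combination (4 * s) * hs'
  have hqz : q = z := hz q ⟨hqD, hqE⟩
  have hqp : q = p := by rw [hqz, hp]
  have h1 : p.1 + 2 * s * d2 = p.1 := congrArg Prod.fst hqp
  have h2 : p.2 - 2 * s * d1 = p.2 := congrArg Prod.snd hqp
  have h3 : s * d2 = 0 := by linarith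
  have h4 : s * d1 = 0 := by linarith
  have h5 : s * (d1 ^ 2 + d2 ^ 2) = 0 := by linear_combination d1 * h4 + d2 * h3
  rw [hs'] at h5
  have e1 : E.x = D.x + d1 := by rw [hd1]; ring
  have e2 : E.y = D.y + d2 := by rw [hd2]; ring
  rw [e1, e2]
  linear_combination h5

end Pool.Agent.Work.MP_81c58b_co.LG
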