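import Pool.Agent.Work.MP_81c58b_co.LG.Defs

/-!
# MP_81c58b_co, block LG: the items

Every `def StX : Prop` is an item; its docstring is the complete proof; the items it uses are
hypotheses of the theorem `prfX : StA → StB → StX` (in the order given after `Uses`).
`Λ` is `ArithmeticFunction.vonMangoldt`.  Every constant in the docstrings may be changed
by the prover inside an existential statement.
-/

set_option autoImplicit false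

open Finset

namespace Pool.Agent.Work.MP_81c58b_co.LG

/-! ### Part N: primes and integers -/

/-- Ab (EASY-MEDIUM). Sums with the character `chi` and decreasing weights.
Proof. Let `c n = ∑ m ∈ Ioc x n, chi m`. The values of `chi` have period 4 and are `1, 0, -1, 0` at
`1, 2, 3, 4`, so `c n` is for all `n` in `{0, 1}` (if the first nonzero value after `x` is `1`) or
for all `n` in `{-1, 0}`: indeed with `P n = ∑ m ∈ Icc 1 n, chi m` (`P n = 1` if `n % 4 ∈ {1, 2}`,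
`0` otherwise) we have `c n = P n - P x`, so `|c n| ≤ 1`.
Abel summation: `∑ m ∈ Ioc x y, chi m * f m = c y * f y + ∑ m ∈ Ioo x y, c m * (f m - f (m+1))`
for `x < y`, so the absolute value is at most `f y + ∑ (f m - f (m+1)) = f (x+1)`. For `y ≤ x` the
sum is empty. -/
def StAb : Prop := ∀ (f : ℕ → ℝ) (x y : ℕ), (∀ n : ℕ, x < n → 0 ≤ f n ∧ f (n + 1) ≤ f n) →
  |∑ m ∈ Ioc x y, chi m * f m| ≤ f (x + 1)

/-- Ll (EASY-MEDIUM). Uses Ab. Proof. Let `s x = ∑ n ∈ Icc 1 x, chi n / n`. By Ab with `f n = 1/n`: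
`|s y - s x| ≤ 1/(x+1)` for `x ≤ y`, so `s` is a Cauchy sequence; let `L` be its limit; then
`|s x - L| ≤ 1/(x+1) ≤ 2/x`. `s 4 = 1 - 1/3 = 2/3` and `|s 4 - L| ≤ 1/5`, so `L > 0`. -/
def StLl : Prop := ∃ L : ℝ, 0 < L ∧ ∀ x : ℕ, 1 ≤ x → |∑ n ∈ Icc 1 x, chi n / n - L| ≤ 2 / x

/-- Lg (EASY-MEDIUM). Uses Ab. Proof. `log n / n` is nonnegative for `n ≥ 1` and decreasing for
`n ≥ 3` (Mathlib: `Real.log_div_self_antitoneOn` on `{x | exp 1 ≤ x}`, `exp 1 < 3`); so for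
`x ≥ 3` the part of the sum over `Ioc 2 x` is at most `log 3 / 3 ≤ 1` by Ab, and the terms `n = 1, 2`
are `0` (`log 1 = 0`, `chi 2 = 0`). -/
def StLg : Prop := ∀ x : ℕ, |∑ n ∈ Icc 1 x, chi n * Real.log n / n| ≤ 1

/-- Lm (EASY-MEDIUM). Proof. `log x! = ∑ m ≤ x, log m = ∑ m ≤ x, ∑ d ∣ m, Λ d = ∑ d ≤ x, Λ d * ⌊x/d⌋`
(`ArithmeticFunction.vonMangoldt_sum`; a version is `log_fact_eq` in
`Pool/Agent/Work/MP_8d13b5_lc/Ex2/Cheb.lean`), and `x log x - x ≤ log x! ≤ x log x`.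
As `x/d - 1 ≤ ⌊x/d⌋ ≤ x/d`, `∑ Λ d / d ≥ log x! / x ≥ log x - 1` and
`∑ Λ d / d ≤ log x! / x + (∑ d ≤ x, Λ d) / x ≤ log x + C` by Chebyshev
(`Chebyshev.psi_le_const_mul_self`). -/
def StLm : Prop := ∃ C : ℝ, ∀ x : ℕ, 1 ≤ x →
  |∑ n ∈ Icc 1 x, ArithmeticFunction.vonMangoldt n / n - Real.log x| ≤ C

/-- Ch (MEDIUM). Uses Ll, Lg. Proof. `chi (m * n) = chi m * chi n`, `log n = ∑ d ∣ n, Λ d`. With
`s y = ∑ k ∈ Icc 1 y, chi k / k`:
`∑ n ≤ x, chi n log n / n = ∑ d ≤ x, (chi d Λ d / d) * s ⌊x/d⌋`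
(write `n = d k`, `k ≤ ⌊x/d⌋`). By Ll `|s ⌊x/d⌋ - L| ≤ 2/⌊x/d⌋ ≤ 4 d / x` (`⌊x/d⌋ ≥ x/(2d)` for
`d ≤ x`). So `L * |∑ d ≤ x, chi d Λ d / d| ≤ 1 + ∑ d ≤ x, (Λ d / d) * (4 d / x)
= 1 + 4 ψ(x) / x ≤ C` (Chebyshev: `Chebyshev.psi_le_const_mul_self`). Divide by `L > 0`. -/
def StCh : Prop := ∃ C : ℝ, ∀ x : ℕ, 1 ≤ x →
  |∑ n ∈ Icc 1 x, chi n * ArithmeticFunction.vonMangoldt n / n| ≤ C

/-- Pp (EASY-MEDIUM). Proof. A number `n` with `Λ n ≠ 0` which is not prime is `p ^ k`, `k ≥ 2`,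
`Λ n = log p`. `∑_p ∑_(k ≥ 2) log p / p ^ k ≤ ∑_p log p / (p (p-1)) ≤ ∑_(n ≥ 2) 2 log n / n ^ 2`,
and `log n ≤ 2 √n`, so it is at most `∑ 4 / n ^ (3/2) < ∞`. (One can also sum over `n = p ^ k`
with `k ≥ 2` by: `n` is a square or `p` times a square, `n = t ^ 2` or `n = p t ^ 2` with
`p ∣ t`, `p ≤ t`.) -/
def StPp : Prop := ∃ C : ℝ, ∀ x : ℕ,
  ∑ n ∈ (Icc 1 x).filter (fun n => ¬ n.Prime), ArithmeticFunction.vonMangoldt n / n ≤ C

/-- Pr (MEDIUM). Uses Lm, Ch, Pp. Mertens' theorem for the primes `1 mod 4`.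
Proof. For odd `n`: `(1 + chi n) / 2` is `1` if `n % 4 = 1` and `0` otherwise. So
`∑ n ≤ x, n % 4 = 1, Λ n / n = (1/2) ∑ n ≤ x odd, Λ n / n + (1/2) ∑ n ≤ x, chi n Λ n / n`.
The even `n` contribute `∑ 2 ^ k ≤ x, log 2 / 2 ^ k ≤ log 2` to `∑ n ≤ x, Λ n / n` (they are
powers of 2: or use Pp, the only even prime is 2). So by Lm, Ch
the left side is `(1/2) log x + O(1)`. The `n` which are not prime contribute at most `C` by Pp
(all terms are nonnegative), for a prime `Λ p = log p`. -/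
def StPr : Prop := ∃ C : ℝ, ∀ x : ℕ, 1 ≤ x →
  |∑ p ∈ P14 0 x, Real.log p / p - Real.log x / 2| ≤ C

/-- Ct (EASY-MEDIUM). Uses Pr. Chebyshev's lower bound for the primes `1 mod 4`.
Proof. Let `C ≥ 0` be as in Pr, `D = ⌈exp (4 C + 6)⌉`. For `x ≥ D`, `y = x / D ≥ 1` (natural
division), `y ≤ x / D` in `ℝ`: the sum of `log p / p` over `P14 y x` is at least
`(log x / 2 - C) - (log y / 2 + C) ≥ (log D) / 2 - 2 C ≥ 1`. Every `p ∈ P14 y x` is `≥ y + 1 > x / D`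
(real quotient) and `≤ x`, so `log p / p ≤ D log x / x`. So the number of these primes is at least
`x / (D log x)`. (`x0 = D`.) -/
def StCt : Prop := ∃ D x0 : ℕ, 1 ≤ D ∧ ∀ x : ℕ, x0 ≤ x →
  (x : ℝ) / (D * Real.log x) ≤ (P14 (x / D) x).card

/-- Re (MEDIUM). Uses Pr. Proof. Let `C ≥ 1` be as in Pr, `B ≥ 600` a natural number with
`2 C / log B ≤ ε / 2`. For `k ≥ 1`, by Pr the sum of `log p / p` over `P14 (B^k) (B^(k+1))` is at
least `((k+1) log B / 2 - C) - (k log B / 2 + C) = log B / 2 - 2 C`, and `log p ≤ (k+1) log B`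
there, so the sum of `1/p` over it is at least
`(1/2 - 2 C / log B)/(k+1) ≥ (1/2 - ε/2)/(k+1)`. For `y ≥ B ^ 2` let `K = ⌊log y / log B⌋ ≥ 2`; the
sets `P14 (B^k) (B^(k+1))`, `1 ≤ k < K`, are disjoint and contained in `P14 599 y`. So the sum is
at least `(1/2 - ε/2) ∑_(k = 2)^K 1/k ≥ (1/2 - ε/2) (log K - 1)`
(harmonic sum `≥ log (K+1)`), and `log K ≥ log (log y / log B - 1)
≥ log log y - log log B - log 2` for `y ≥ B ^ 2`. So the sum is at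
least `(1/2 - ε/2) log log y - C'` and this is `≥ (1/2 - ε) log log y` for `y ≥ y0`
(for `ε ≥ 1/2` the claim is trivial as then the right side `(1/2 - ε) log log y ≤ 0` for
`y ≥ 3`; so assume `ε < 1/2`). -/
def StRe : Prop := ∀ ε : ℝ, 0 < ε → ∃ y0 : ℕ, ∀ y : ℕ, y0 ≤ y →
  (1 / 2 - ε) * Real.log (Real.log y) ≤ ∑ p ∈ P14 599 y, 1 / (p : ℝ)

/-- Es (MEDIUM). Elementary symmetric sums. Proof. `s ^ j = ∑_t ∏ i, x (t i)` over all
`t : Fin j → P`. The injective `t` contribute `j! * ∑ T ∈ powersetCard j P, ∏ p ∈ T, x p` (every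
`T` with `j` elements is the image of `j!` injective `t`). The others satisfy `t a = t b` for some
`a < b`, and for given `a < b` the sum over all `t` with `t a = t b` is `s2 * s ^ (j - 2)`
(`s2 = ∑ x p ^ 2`). There are `j.choose 2` pairs.
Alternative proof by induction on `j` for `E j = ∑ T ∈ powersetCard j P, ∏`: `(j+1) E (j+1) ≥
s E j - s2 E (j-1)` (a pair `(p, T)` with `p ∉ T` gives `T ∪ {p}`, each set `j+1` times; the pairs with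
`p ∈ T` contribute at most `s2 E (j-1)`) and `j! E j ≤ s ^ j` (`(j+1) E (j+1) ≤ s E j`); then
`(j+1)! E (j+1) ≥ s (j! E j) - j s2 ((j-1)! E (j-1)) ≥ s (s^j - (j choose 2) s2 s^(j-2)) - j s2 s^(j-1)`
and `(j choose 2) + j = (j+1 choose 2)`. -/
def StEs : Prop := ∀ (P : Finset ℕ) (x : ℕ → ℝ) (j : ℕ), (∀ p ∈ P, 0 ≤ x p) → 2 ≤ j →
  (∑ p ∈ P, x p) ^ j - (j.choose 2 : ℝ) * (∑ p ∈ P, x p ^ 2) * (∑ p ∈ P, x p) ^ (j - 2) ≤
    (j.factorial : ℝ) * ∑ T ∈ powersetCard j P, ∏ p ∈ T, x p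

/-- Gs (MEDIUM). Uses Ct. Many good numbers with `j + 1` prime factors.
Proof. Let `D, x0` be as in Ct and `Z` large. Let `T ⊆ P14 599 y`, `|T| = j`, `m = ∏ p ∈ T, p`;
then `m ≤ y ^ j`, so `m ^ 2 ≤ Z`, and `u = Z / m` (natural division) satisfies `u ≥ √Z - 1` and
`u ≥ Z / (2 m)` (as `Z / m ≥ 1`). Also `y ^ 4 ≤ y ^ (2 j) ≤ Z`. For a prime `q ∈ P14 (u / D) u`:
`m q ≤ Z`; `q > u / D`, so `q ≥ (√Z - 1) / D > Z ^ (1/4) ≥ y` for `Z ≥ Z0(D)`, so `q`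
is larger than all elements of `T` and `m q` is
squarefree, its set of prime factors is `insert q T`, all are `1 mod 4`, it lies in `GS Z (j+1)`.
The pair `(T, q)` is determined by `m q` (`q` is the largest prime factor). So by Ct
(`u ≥ x0` for large `Z`, `log u ≤ log Z`)
`#GS Z (j+1) ≥ ∑_T #(P14 (u/D) u) ≥ ∑_T u / (D log u) ≥ ∑_T Z / (2 D m log Z)`, and
`1 / m = ∏ p ∈ T, 1 / p`. `c = 1 / (2 D)`. -/
def StGs : Prop := ∃ c : ℝ, 0 < c ∧ ∃ Z0 : ℕ, ∀ Z : ℕ, Z0 ≤ Z → ∀ j y : ℕ, 2 ≤ j →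
  y ^ (2 * j) ≤ Z →
  c * Z / Real.log Z * ∑ T ∈ powersetCard j (P14 599 y), ∏ p ∈ T, 1 / (p : ℝ) ≤
    (GS Z (j + 1)).card

/-- St (MEDIUM). An elementary estimate. Proof. Let `j = ⌊(b/2) t⌋` (natural number), for large `t`
`j ≥ 1`. `j! ≤ e j (j/e) ^ j` (`j ≥ 1`; e.g. by induction from `(1 + 1/j)^j ≤ e`... or
`Nat.factorial_lt`/Stirling bounds of Mathlib). Put `η = min (ε / (16 b)) (1/16)`. `s ≥ (1/2 - η) t`, `t ≥ 2 j / b`, so
`b s / j ≥ b (1/2 - η) (2/b) = 1 - 2 η` and `(b s) ^ j / j! ≥ (1 - 2 η) ^ j e ^ j / (e j)`.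
`log (1 - 2 η) ≥ - 4 η` (`η ≤ 1/16`), so it is at least `exp (j (1 - 4 η)) / (e j)`, and
`j ≥ (b/2) t - 1`, `j ≤ b t`: at least `exp ((b/2) t - 1 - 4 η b t - 1) / (b t)
≥ exp ((b/2 - ε/4) t - 2) / (b t) ≥ exp ((b/2 - ε) t)` for large `t`. -/
def StSt : Prop := ∀ b : ℕ, 2 ≤ b → ∀ ε : ℝ, 0 < ε → ∃ η : ℝ, 0 < η ∧ ∃ t0 : ℝ, ∀ t s : ℝ,
  t0 ≤ t → (1 / 2 - η) * t ≤ s →
  Real.exp (((b : ℝ) / 2 - ε) * t) ≤
    ((b : ℝ) * s) ^ ⌊(b : ℝ) / 2 * t⌋₊ / (⌊(b : ℝ) / 2 * t⌋₊.factorial : ℝ)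

/-- Lv (MEDIUM). Uses Re, Es, Gs, St. Level sets of the number of prime factors.
Proof. WLOG `ε ≤ 1/2`. Let `t = log log Z`, `η` from St for `ε / 4`, `η' = min (η/2) (1/32)`,
`j = ⌊(b/2) t⌋`, `y = ⌊Z ^ (1/(2 j))⌋` (the largest natural number with `y ^ (2 j) ≤ Z`), so
`log y ≥ log Z / (2 j) - 1 ≥ log Z / (4 j)` and `log log y ≥ t - log (4 j) ≥ (1 - η') t` for `Z` large
(`log (4 j) ≤ log (2 b t)` is `o(t)`); `y ≥ y0` for large `Z`. By Re with `ε = η'`: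
`s := ∑ p ∈ P14 599 y, 1/p ≥ (1/2 - η') (1 - η') t ≥ (1/2 - 2 η') t ≥ (1/2 - η) t`, and also
`s ≥ (3/8) t`. `s2 = ∑ 1/p^2 ≤ ∑_(n ≥ 600) 1/n^2 ≤ 1/599`. By Es with `x p = 1/p`:
`j! E ≥ s ^ j - (j choose 2) s2 s ^ (j-2) ≥ s ^ j / 2`, because `(j choose 2) s2 ≤ j^2/1198
≤ (b^2/4) t^2/1198 ≤ 64 t^2 / 1198 ≤ (9/128) t^2 ≤ s^2 / 2` (`b ≤ 16`). So
`E = ∑ T ∈ powersetCard j (P14 599 y), ∏ 1/p ≥ s ^ j / (2 j!)`, and Gs gives
`b ^ (j+1) #GS Z (j+1) ≥ (c Z / log Z) (b s) ^ j / (2 j!) ≥ (c / 2) (Z / log Z) exp ((b/2 - ε/4) t)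
= (c/2) Z (log Z) ^ (b/2 - 1 - ε/4) ≥ Z (log Z) ^ (b/2 - 1 - ε)` for large `Z` (St with this `s`;
`exp (a t) = (log Z) ^ a`). `i = j + 1 ≤ b t` for `t ≥ 2`. -/
def StLv : Prop := ∀ b : ℕ, 2 ≤ b → b ≤ 16 → ∀ ε : ℝ, 0 < ε → ∃ Z0 : ℕ, ∀ Z : ℕ, Z0 ≤ Z →
  ∃ i : ℕ, (i : ℝ) ≤ b * Real.log (Real.log Z) ∧
    (Z : ℝ) * Real.log Z ^ ((b : ℝ) / 2 - 1 - ε) ≤ (b : ℝ) ^ i * (GS Z i).card

/-- Pa (EASY-MEDIUM). Proof. Chebyshev (Mathlib `Chebyshev.theta_ge`, `Chebyshev.theta_le_log4_mul_x`):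
`θ(4A) - θ(A) ≥ 4 A log 2 - log (4A+1) - 2 √(4A) log (4A) - 2 A log 2 ≥ A` for `A ≥ A0`
(`2 log 2 > 1.38`), and every prime in `(A, 4A]` contributes at most `log (4A) ≤ 3 log (2A)`
... so there are at least `A / log (4 A)` of them, and `log (4A) ≤ 2 log (2A)` for `A ≥ 1`. For
`1 ≤ A < A0` there is at least one prime in `(A, 2A]` (`Nat.exists_prime_lt_and_le_two_mul`),
so `c = min (1/2) (log 2 / A0)` works (`A / log (2A) ≤ A0 / log 2`). -/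
def StPa : Prop := ∃ c : ℝ, 0 < c ∧ ∀ A : ℕ, 1 ≤ A →
  c * A / Real.log (2 * A) ≤ (((Ioc A (4 * A)).filter Nat.Prime).card : ℝ)

/-! ### Part G: representations and configurations -/

/-- Rp (EASY). Proof. `many_reps` in `Pool/Agent/Work/MP_cf6fa9_co/Reps.lean` (import it) with
`S = M.primeFactors`; `∏ p ∈ M.primeFactors, p = M` for squarefree `M`
(`Nat.prod_primeFactors_of_squarefree`). -/
def StRp : Prop := ∀ M : ℕ, Good M → ∃ W : Finset (ℤ × ℤ), 2 ^ M.primeFactors.card ≤ W.card ∧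
  ∀ v ∈ W, v.1 ^ 2 + v.2 ^ 2 = (M : ℤ)

/-- R3 (EASY-MEDIUM). Uses Rp. Proof. `3 ∤ M`. If `M % 3 = 1` a representation `(u, v)` has
exactly one coordinate divisible by 3; among the four rotations `(u,v), (-v,u), (-u,-v), (v,-u)`
exactly one has `u % 3 = 1` and `v % 3 = 0`. If `M % 3 = 2` both coordinates are not divisible by 3
and exactly one rotation has `u % 3 = 1`, `v % 3 = 1`. Let `W0` be from Rp; map every element of
`W0` to its rotation with the wanted residues; every element of the image `W` has at most four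
preimages, so `#W0 ≤ 4 #W`. (It is enough to cover `W0` by the four rotated copies of `W`, where
`W` is the image of the filter of `W0` under suitable rotations; every `v ∈ W0` has a
rotation in the class by a case check mod 3.) -/
def StR3 : Prop := ∀ M : ℕ, Good M → ∃ W : Finset (ℤ × ℤ),
  2 ^ M.primeFactors.card ≤ 4 * W.card ∧
  ∀ v ∈ W, v.1 ^ 2 + v.2 ^ 2 = (M : ℤ) ∧ v.1 % 3 = 1 ∧ v.2 % 3 = (if M % 3 = 1 then 0 else 1)

/-- Cl (EASY-MEDIUM). Proof. For a given `b` the condition says that `c` is a root of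
`c ^ 2 = M - b ^ 2` in the field `ZMod a`, so `c` lies in at most two residue classes mod `a`, and
each class has at most `2 L / a + 1` members in `[-L, L]` (`2 L / a + 1` is a natural number here:
`Int.Ioc_filter_modEq_card`, or: the map `c ↦ (c + L) / a` is injective on the class and takes values
in `{0, ..., 2 L / a}`). -/
def StCl : Prop := ∀ a M L : ℕ, a.Prime →
  (((Icc (-(L : ℤ)) L) ×ˢ (Icc (-(L : ℤ)) L)).filter
    (fun v : ℤ × ℤ => (a : ℤ) ∣ v.1 ^ 2 + v.2 ^ 2 - M)).card ≤ (2 * L + 1) * (2 * (2 * L / a + 1))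

/-- Ij (EASY-MEDIUM). Proof. The radii give `√M / a = √M' / a'`, so `M a' ^ 2 = M' a ^ 2` in `ℕ`. If
`a ≠ a'` they are coprime, so `a ^ 2 ∣ M a' ^ 2` gives `a ^ 2 ∣ M`, which contradicts that `M` is
squarefree (`a` is prime). So `a = a'`, `M = M'` and the centres give `b = b'`, `c = c'`. -/
def StIj : Prop := ∀ (a a' M M' : ℕ) (b b' c c' : ℤ), a.Prime → a'.Prime → Squarefree M →
  Squarefree M' → mk a M b c = mk a' M' b' c' → a = a' ∧ M = M' ∧ b = b' ∧ c = c'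

/-- Tp (EASY). Proof. The circle of the point is `{(x, y)}` (a sum of two squares is zero), so the
intersection is `{(x, y)}` or empty. -/
def StTp : Prop := ∀ (D : Disc) (x y : ℤ),
  Touch D (pt x y) ↔ ((x : ℝ) - D.x) ^ 2 + ((y : ℝ) - D.y) ^ 2 = D.r ^ 2

/-- Ca (MEDIUM). Uses Rp, Cl, Ij, Tp. The configuration of part (A).
Proof. `B = {pt x y : 1 ≤ x, y ≤ X}` (`X ^ 2` discs). `R` = the set of all `mk a M b c` with
`a ∈ Q`, `M ∈ S`, `(b, c) ∈ [-L, L] ^ 2`, `L = 5 A X`, `a ∣ b ^ 2 + c ^ 2 - M` (a finite image).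
Number: for given `a, M` at most `(2 L + 1) * 2 (2 L / a + 1) ≤ (11 A X) * 2 * (11 X) = 242 A X ^ 2`
(`2 L / a ≤ 10 A X / A = 10 X` because `a ≥ A`).
All radii are positive (`M ≥ 1`, `a ≥ 2`).
Touching pairs: let `a ∈ Q`, `M ∈ S`, `1 ≤ x, y ≤ X` and `(u, v)` a representation of `M` in the
set `W M` of Rp. The disc `mk a M (a x - u) (a y - v)` touches `pt x y` (Tp:
`(x - (a x - u)/a)^2 + ... = (u^2+v^2)/a^2 = M/a^2`), and it is in `R`: `|u| ≤ √M ≤ √Z ≤ A X`,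
`|a x - u| ≤ 4 A X + A X = L`, and `(a x - u)^2 + (a y - v)^2 - M` is a multiple of `a`. The map
`(a, M, x, y, (u,v)) ↦ (disc, point)` is injective by Ij (the point gives `x, y`, the disc gives
`a, M, a x - u, a y - v`). The number of these quintuples is at least `#Q #S X^2 2^i`.
(`touching` is the `ncard` of a finite set; use the injection from a `Finset.sigma` or a
`Finset` of tuples and `Set.ncard_le_ncard`.) -/
def StCa : Prop := ∀ (A X Z i : ℕ) (Q S : Finset ℕ), 1 ≤ A → 1 ≤ X → Z ≤ (A * X) ^ 2 →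
  (∀ a ∈ Q, a.Prime ∧ A < a ∧ a ≤ 4 * A) → S ⊆ GS Z i →
  ∃ R B : Finset Disc, (∀ D ∈ R, 0 < D.r) ∧ (∀ D ∈ B, D.r = 0) ∧ B.card = X ^ 2 ∧
    R.card ≤ 242 * Q.card * S.card * A * X ^ 2 ∧
    Q.card * S.card * X ^ 2 * 2 ^ i ≤ touching R B

/-- Fa (MEDIUM). Uses Lv, Pa, Ca. Part (A).
Proof. We may assume `C ≥ 1`, `0 ≤ k` (replace `k` by `max k 0`: `log (m+n+1) ≥ 1` in our
examples). Choose `ε > 0` with `k < (7 - ε)/4 - ε`. For `Z` large take `i` from Lv with `b = 16`,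
`S = GS Z i`, `N = #S ≥ 1`, `α = (Z / N) ^ (1/4) ≥ 1` (`N ≤ Z`), `A = ⌈α⌉`, so `α ≤ A ≤ 2 α`;
`X = ⌈√Z / A⌉`, so `Z ≤ (A X)^2`, and as `A ≤ 2 Z^(1/4) ≤ √Z`: `X ≤ 2 √Z / A`. Let `Q` be the primes
in `(A, 4A]`, `q = #Q ≥ c A / log (2 A)`, `q ≤ 3 A`. Let `R, B` be from Ca, `m = #B = X^2`,
`n = #R ≤ 242 q N A X^2`, `T = touching R B ≥ q N X^2 2^i`. Put `ℓ = log Z`,
`ρ = 2^i / α`; `ρ^4 = 16^i N / Z ≥ ℓ^(7 - ε)`.
(1) `T / n ≥ 2^i / (242 A) ≥ ρ / 484`.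
(2) `T / m ≥ q N 2^i ≥ 2^i N`, and `(2^i N)^4 ≥ 16^i N ≥ Z`, so `T / m ≥ Z^(1/4)`.
(3) `T^3 / (m n)^2 ≥ q^3 N^3 X^6 8^i / (X^4 242^2 q^2 N^2 A^2 X^4) = q N 8^i / (242^2 A^2 X^2)
≥ q N 8^i / (242^2 * 4 Z) = q 8^i / (4 * 242^2 α^4) ≥ c A 8^i / (4 * 242^2 α^4 log (2A))
≥ c' ρ^3 / log (2 A)` with `c' = c / (4 * 242^2)`. As `α ≤ 2^i` (`ρ ≥ 1`) and
`i ≤ 16 log ℓ`: `log (2 A) ≤ log 4 + i log 2 ≤ 16 log ℓ + 2`. So
`T / (m n)^(2/3) ≥ (c' / (16 log ℓ + 2))^(1/3) ρ`.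
Altogether, for large `Z`, each of the three quotients is at least `3 ℓ^((7-ε)/4 - ε/2)` (use
`ρ ≥ ℓ^((7-ε)/4)`), so `T ≥ ℓ^((7-ε)/4 - ε/2) ((m n)^(2/3) + m + n)`. Finally
`m + n + 1 ≤ Z^3` for large `Z` (`n ≤ 242 * 3 A * Z * A * (4 Z / A^2)`), so `log (m+n+1) ≤ 3 ℓ` and
`C (log (m+n+1))^k ≤ C 3^k ℓ^k < ℓ^((7-ε)/4 - ε/2)` for large `Z`. -/
def StFa : Prop := ∀ C k : ℝ, k < 7 / 4 → ∃ R B : Finset Disc,
  (∀ D ∈ R, 0 < D.r) ∧ (∀ D ∈ B, D.r = 0) ∧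
  C * (((R.card * B.card : ℝ)) ^ ((2 : ℝ) / 3) + R.card + B.card) *
    Real.log (R.card + B.card + 1) ^ k < touching R B

/-! ### Part S: the strict version -/

/-- Sq (EASY). Proof. In squarefree `M, M'` every prime has exponent 0 or 1, and in the square `k^2`
an even exponent, so `M` and `M'` have the same prime factors. -/
def StSq : Prop := ∀ M M' k : ℕ, Squarefree M → Squarefree M' → M * M' = k ^ 2 → M = M'

/-- Pl (EASY-MEDIUM). Two different circles with exactly one common point have it on the line of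
centres. Proof. Let `w, w'` be the centres, `d = w' - w`. If `d = 0` the common point shows that the radii are
equal (both positive), so `D = E`. Otherwise let `n = (-d.2, d.1)` and
`q' = q - (2 ((q - w) · n) / |d|^2) n`, the reflection of `q` in the line of centres; it has the same distances
from `w` and `w'` as `q`, so it is on both circles, so `q' = q` by uniqueness, so `(q - w) · n = 0`,
and this is the claim up to the sign. -/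
def StPl : Prop := ∀ (D E : Disc) (p : ℝ × ℝ), 0 < D.r → 0 < E.r → D ≠ E → Touch D E →
  p ∈ D.circle → p ∈ E.circle →
  (p.1 - D.x) * (p.2 - E.y) - (p.2 - D.y) * (p.1 - E.x) = 0

/-- Op (EASY-MEDIUM). Uses Sq, Pl. Proof. Let `r1 = p - (b, c)`, `r2 = p - (b', c')`,
`|r1|^2 = M`, `|r2|^2 = M'` (both `≥ 1`, the radii are positive).
By Pl `r1` and `r2` are parallel, so `(r1 · r2)^2 = M M'`. And `2 r1 · r2 = M + M' - |r1 - r2|^2` is an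
integer `t` because `r1 - r2 = (b' - b, c' - c)` is an integer vector. So `4 M M' = t^2`, `t` is
even, `M M' = (t/2)^2`, `M = M'` by Sq. Then `(r1 · r2)^2 = M^2`. If `r1 · r2 = M` then
`|r1 - r2|^2 = 0`, the centres agree and `D = E`, excluded; so `r1 · r2 = -M` and
`|r1 + r2|^2 = 0`. -/
def StOp : Prop := ∀ (M M' : ℕ) (b c b' c' : ℤ) (p : ℝ × ℝ), Squarefree M → Squarefree M' →
  mk 1 M b c ≠ mk 1 M' b' c' → Touch (mk 1 M b c) (mk 1 M' b' c') →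
  p ∈ (mk 1 M b c).circle → p ∈ (mk 1 M' b' c').circle →
  p.1 - b' = -(p.1 - b) ∧ p.2 - c' = -(p.2 - c)

/-- Nt (EASY-MEDIUM). Uses Op, Tp. Proof. Suppose `D, E, F` are different, touch pairwise and `q` is
on all three circles. Two different points do not touch (their circles are different
singletons), so at most one of them is a point. (1) Three circles with centres `w1, w2, w3`: by Op
`q - w2 = -(q - w1)`, `q - w3 = -(q - w1)`, `q - w3 = -(q - w2)`; so `q - w1 = 0`, but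
`|q - w1|^2 = M ≥ 1`. (2) One point `pt x y` and two circles: `q = (x, y)` and by Op
`x - b' = -(x - b)` with integers, `b, b'` divisible by 3 and `x % 3 = 1`: `1 ≡ -1 mod 3`, a
contradiction. -/
def StNt : Prop := ∀ R B : Finset Disc,
  (∀ D ∈ R, ∃ (M : ℕ) (b c : ℤ), Squarefree M ∧ 3 ∣ b ∧ 3 ∣ c ∧ D = mk 1 M b c) →
  (∀ D ∈ B, ∃ x y : ℤ, x % 3 = 1 ∧ D = pt x y) → NoTriple ((R : Set Disc) ∪ B)

/-- Cb (MEDIUM). Uses R3, Tp, Nt. The configuration of part (B).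
Proof. Let `t = 0` if `κ = 1` and `t = 1` if `κ = 2`. `B` = the points `pt x y`,
`1 ≤ x, y ≤ 3 X`, `x % 3 = 1`, `y % 3 = t` (exactly `X^2` points). `R` = all `mk 1 M b c`, `M ∈ S`,
`|b|, |c| ≤ 4 X`, `3 ∣ b`, `3 ∣ c`; `#R ≤ #S (3 X + 1)^2` (the multiples of 3 in `[-4X, 4X]` are at most
`8 X / 3 + 1 ≤ 3 X + 1`). NoTriple is Nt. Touching pairs: for a point `pt x y ∈ B`, `M ∈ S` and
`(u, v) ∈ W M` (R3), `(u, v) = (1, t) = (x, y)` mod 3, so `(b, c) = (x - u, y - v)` is divisible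
by 3, `|u| ≤ √M ≤ X`, `|b|, |c| ≤ 3 X + X`; the disc `mk 1 M b c` touches `pt x y`. The
map `(x, y, M, (u, v)) ↦ (disc, point)` is injective (radius `√M`, centre). So
`4 T ≥ #S X^2 2^i`. -/
def StCb : Prop := ∀ (X Z i κ : ℕ) (S : Finset ℕ), 1 ≤ X → Z ≤ X ^ 2 → S ⊆ GS Z i →
  κ = 1 ∨ κ = 2 → (∀ M ∈ S, M % 3 = κ) →
  ∃ R B : Finset Disc, (∀ D ∈ R, 0 < D.r) ∧ (∀ D ∈ B, D.r = 0) ∧
    NoTriple ((R : Set Disc) ∪ B) ∧ B.card = X ^ 2 ∧
    R.card ≤ S.card * (3 * X + 1) ^ 2 ∧ S.card * X ^ 2 * 2 ^ i ≤ 4 * touching R B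

/-- Fb (MEDIUM). Uses Lv, Cb. Part (B).
Proof. As in Fa: `C ≥ 1`, `0 ≤ k < 1`, `ε > 0` with `k < 1 - ε`, `Z` large, `i` from Lv with
`b = 8`, `ℓ = log Z`: `8^i N ≥ Z ℓ^(3 - ε)`, `N = #GS Z i`. A good number is not
divisible by 3, so for some `κ ∈ {1, 2}` the set `S` of the `M ∈ GS Z i` with `M % 3 = κ` has
`N' ≥ N/2` elements. `X = ⌈√Z⌉ ≤ 2 √Z`. With `m = #B = X^2`, `n = #R ≤ 16 N' X^2`,
`T ≥ N' X^2 2^i / 4`: `T / n ≥ 2^i / 64`, and `8^i ≥ 8^i N / Z ≥ ℓ^(3-ε)`, so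
`T / n ≥ ℓ^(1 - ε/3) / 64`. `T / m ≥ N' 2^i / 4`, `(2^i N')^3 ≥ 8^i N' ≥ Z / 2`, so `T / m ≥ Z^(1/3) / 8`.
`T^3 / (m n)^2 ≥ N'^3 X^6 8^i / (64 * X^4 * 256 N'^2 X^4) = N' 8^i / (16384 X^2)
≥ (N/2) 8^i / (16384 * 4 Z) ≥ ℓ^(3-ε) / 131072`, so `T / (m n)^(2/3) ≥ ℓ^(1-ε/3) / 64`. So
`T ≥ (ℓ^(1 - ε/3) / 200) ((mn)^(2/3) + m + n)` and `log (m + n + 1) ≤ 3 ℓ`
(`n ≤ 16 Z * 4 Z`, so `m + n + 1 ≤ Z^3` for large `Z`). -/
def StFb : Prop := ∀ C k : ℝ, k < 1 → ∃ R B : Finset Disc,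
  (∀ D ∈ R, 0 < D.r) ∧ (∀ D ∈ B, D.r = 0) ∧ NoTriple ((R : Set Disc) ∪ B) ∧
  C * (((R.card * B.card : ℝ)) ^ ((2 : ℝ) / 3) + R.card + B.card) *
    Real.log (R.card + B.card + 1) ^ k < touching R B

end Pool.Agent.Work.MP_81c58b_co.LG
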